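import Mathlib

/-!
# Semialgebraic sets, Nash maps, approximation targets, analytic paths

`ℝⁿ` is `Fin n → ℝ` with its Euclidean (product) topology.
-/

set_option autoImplicit false

open scoped ContDiff

namespace Pool.Agent.R851.NashDefs

/-- Semialgebraic subsets of `ℝⁿ`: the smallest family of subsets which contains all sets
`{p > 0}`, `p` a polynomial, and is closed under finite unions and complements (hence also under
finite intersections; it contains the sets `{p = 0}`, complements of `{p > 0} ∪ {-p > 0}`). -/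
inductive IsSemialgebraic {n : ℕ} : Set (Fin n → ℝ) → Prop
  | basic (p : MvPolynomial (Fin n) ℝ) : IsSemialgebraic {x | 0 < MvPolynomial.eval x p}
  | union {s t : Set (Fin n → ℝ)} : IsSemialgebraic s → IsSemialgebraic t → IsSemialgebraic (s ∪ t)
  | compl {s : Set (Fin n → ℝ)} : IsSemialgebraic s → IsSemialgebraic sᶜ

/-- The graph of the restriction to `S ⊆ ℝᵐ` of `f : ℝᵐ → ℝⁿ`, a subset of `ℝᵐ⁺ⁿ`. -/
def graph {m n : ℕ} (S : Set (Fin m → ℝ)) (f : (Fin m → ℝ) → (Fin n → ℝ)) :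
    Set (Fin (m + n) → ℝ) :=
  {z | (fun i => z (Fin.castAdd n i)) ∈ S ∧
    (fun j => z (Fin.natAdd m j)) = f (fun i => z (Fin.castAdd n i))}

/-- The restriction to `S` of `f : ℝᵐ → ℝⁿ` is a semialgebraic map. -/
def IsSemialgebraicMap {m n : ℕ} (S : Set (Fin m → ℝ)) (f : (Fin m → ℝ) → (Fin n → ℝ)) : Prop :=
  IsSemialgebraic (graph S f)

/-- `h` is a Nash function on `Ω`: the set `Ω` is open and semialgebraic, and `h` is a
semialgebraic function of class `C^∞` on `Ω`. -/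
def IsNashFunction {m : ℕ} (Ω : Set (Fin m → ℝ)) (h : (Fin m → ℝ) → ℝ) : Prop :=
  IsOpen Ω ∧ IsSemialgebraic Ω ∧ ContDiffOn ℝ ∞ h Ω ∧
    IsSemialgebraicMap Ω (fun x => fun _ : Fin 1 => h x)

/-- `g` is a Nash map from `S ⊆ ℝᵐ` to `T ⊆ ℝⁿ`: it maps `S` into `T` and every component of `g`
is on `S` the restriction of a Nash function defined on some open semialgebraic set which
contains `S`. -/
def IsNashMap {m n : ℕ} (S : Set (Fin m → ℝ)) (T : Set (Fin n → ℝ))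
    (g : (Fin m → ℝ) → (Fin n → ℝ)) : Prop :=
  (∀ x ∈ S, g x ∈ T) ∧
    ∀ i, ∃ (Ω : Set (Fin m → ℝ)) (h : (Fin m → ℝ) → ℝ),
      S ⊆ Ω ∧ IsNashFunction Ω h ∧ ∀ x ∈ S, g x i = h x

/-- `f` belongs to `S⁰(S, T)`: it is a continuous semialgebraic map from `S` to `T`. -/
def IsContSemialgebraicMap {m n : ℕ} (S : Set (Fin m → ℝ)) (T : Set (Fin n → ℝ))
    (f : (Fin m → ℝ) → (Fin n → ℝ)) : Prop :=
  (∀ x ∈ S, f x ∈ T) ∧ ContinuousOn f S ∧ IsSemialgebraicMap S f

/-- `ε` is (on `S`) a continuous semialgebraic function with positive values. -/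
def IsPositiveSemialgebraic {m : ℕ} (S : Set (Fin m → ℝ)) (ε : (Fin m → ℝ) → ℝ) : Prop :=
  (∀ x ∈ S, 0 < ε x) ∧ ContinuousOn ε S ∧ IsSemialgebraicMap S (fun x => fun _ : Fin 1 => ε x)

/-- `T` is an `(N, 0)`-approximation target space: for all `m ≥ 1` and all non-empty locally
compact semialgebraic sets `S ⊆ ℝᵐ` the Nash maps from `S` to `T` are dense in `S⁰(S, T)`, that is,
for every `f` in `S⁰(S, T)` and every positive continuous semialgebraic function `ε` on `S` there is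
a Nash map `g` from `S` to `T` with `‖g(x) - f(x)‖ < ε(x)` (Euclidean norm) for all `x` in `S`. -/
def IsNashTarget {n : ℕ} (T : Set (Fin n → ℝ)) : Prop :=
  ∀ (m : ℕ) (S : Set (Fin m → ℝ)), 1 ≤ m → S.Nonempty → IsSemialgebraic S →
    LocallyCompactSpace S →
    ∀ f : (Fin m → ℝ) → (Fin n → ℝ), IsContSemialgebraicMap S T f →
      ∀ ε : (Fin m → ℝ) → ℝ, IsPositiveSemialgebraic S ε →
        ∃ g : (Fin m → ℝ) → (Fin n → ℝ), IsNashMap S T g ∧
          ∀ x ∈ S, Real.sqrt (∑ i, (g x i - f x i) ^ 2) < ε x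

/-- Any two points of `T` are joined by an analytic path in `T`, that is, by a map
`α : [0, 1] → T` which extends real-analytically to an open interval around `[0, 1]`. -/
def ConnectedByAnalyticPaths {n : ℕ} (T : Set (Fin n → ℝ)) : Prop :=
  ∀ x ∈ T, ∀ y ∈ T, ∃ (δ : ℝ) (α : ℝ → (Fin n → ℝ)), 0 < δ ∧
    AnalyticOnNhd ℝ α (Set.Ioo (-δ) (1 + δ)) ∧ (∀ t ∈ Set.Icc (0 : ℝ) 1, α t ∈ T) ∧
    α 0 = x ∧ α 1 = y

/-- `T` is locally connected by analytic paths. -/
def LocallyConnectedByAnalyticPaths {n : ℕ} (T : Set (Fin n → ℝ)) : Prop :=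
  ∀ x ∈ T, ∀ U : Set (Fin n → ℝ), IsOpen U → x ∈ U →
    ∃ W : Set (Fin n → ℝ), IsOpen W ∧ IsSemialgebraic W ∧ x ∈ W ∧ W ⊆ U ∧
      ConnectedByAnalyticPaths (T ∩ W)

/-- The set `T = {(x, y, z) ∈ ℝ³ : z ≥ 0, z² = x⁴ + y⁴}`. -/
def quarticCone : Set (Fin 3 → ℝ) := {x | 0 ≤ x 2 ∧ x 2 ^ 2 = x 0 ^ 4 + x 1 ^ 4}

end Pool.Agent.R851.NashDefs
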