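import Mathlib

set_option autoImplicit false

open Filter Topology Polynomial
open scoped ContDiff

namespace Pool.Agent.R851.Nash

/-- a flat smooth function is `O((x - a)^n)` for all `n` -/
lemma isBigO_of_flat {φ : ℝ → ℝ} (hφ : ContDiff ℝ ∞ φ) {a : ℝ}
    (h : ∀ n, iteratedDeriv n φ a = 0) (n : ℕ) :
    φ =O[𝓝 a] fun x => (x - a) ^ n := by
  have h1 := taylor_isLittleO_univ (x₀ := a) (n := n) (hφ.of_le (by exact_mod_cast le_top))
  have h2 : ∀ x, taylorWithinEval φ n Set.univ a x = 0 := by
    intro x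
    rw [taylor_within_apply]
    apply Finset.sum_eq_zero
    intro k _
    rw [iteratedDerivWithin_univ, h k, smul_zero]
  simp only [h2, sub_zero] at h1
  exact h1.isBigO

/-- a flat smooth function satisfying a polynomial equation vanishes near the point -/
lemma eventually_zero_of_flat {φ : ℝ → ℝ} (hφ : ContDiff ℝ ∞ φ) {a : ℝ}
    (h : ∀ n, iteratedDeriv n φ a = 0) (P : ℝ[X][X]) (hP : P ≠ 0)
    (hrel : ∀ t, (P.eval (C (φ t))).eval t = 0) : ∀ᶠ x in 𝓝 a, φ x = 0 := by
  -- remove powers of the variable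
  obtain ⟨Q, hQ, hndvd⟩ := exists_eq_pow_rootMultiplicity_mul_and_not_dvd P hP 0
  rw [C_0, sub_zero] at hQ hndvd
  have hQ0 : Q.coeff 0 ≠ 0 := fun h0 => hndvd (X_dvd_iff.2 h0)
  have hrelQ : ∀ t, φ t ≠ 0 → (Q.eval (C (φ t))).eval t = 0 := by
    intro t ht
    have h1 := hrel t
    rw [hQ, eval_mul, eval_pow, eval_X, eval_mul, eval_pow, eval_C] at h1
    exact (mul_eq_zero.1 h1).resolve_left (pow_ne_zero _ ht)
  set q := Q.coeff 0 with hq
  obtain ⟨r, hr, hr2⟩ := exists_eq_pow_rootMultiplicity_mul_and_not_dvd q hQ0 a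
  set m := q.rootMultiplicity a with hm
  have hra : r.eval a ≠ 0 := fun h0 => hr2 (dvd_iff_isRoot.2 h0)
  set Q1 := Q.divX with hQ1
  have hdec : ∀ t, (Q.eval (C (φ t))).eval t = q.eval t + φ t * (Q1.eval (C (φ t))).eval t := by
    intro t
    have h1 : Q = Q1 * X + C q := by rw [hQ1, hq]; exact (divX_mul_X_add Q).symm
    conv_lhs => rw [h1]
    rw [eval_add, eval_mul, eval_X, eval_C, eval_add, eval_mul, eval_C]
    ring
  -- continuity of the remaining factor
  have hcont : Continuous fun t => (Q1.eval (C (φ t))).eval t := by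
    have : (fun t => (Q1.eval (C (φ t))).eval t) =
        fun t => Q1.sum fun n c => c.eval t * φ t ^ n := by
      funext t
      rw [eval_eq_sum (p := Q1), Polynomial.sum, Polynomial.sum, eval_finsetSum]
      apply Finset.sum_congr rfl
      intro n _
      rw [eval_mul, eval_pow, eval_C]
    rw [this]
    unfold Polynomial.sum
    have := hφ.continuous
    apply continuous_finsetSum
    intro n _
    exact (Polynomial.continuous _).mul (this.pow n)
  have hbig := isBigO_of_flat hφ h (m + 1)
  obtain ⟨c, hc, hb⟩ := hbig.exists_pos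
  rw [Asymptotics.isBigOWith_iff] at hb
  set D := |(Q1.eval (C (φ a))).eval a| + 1 with hD
  have hDpos : 0 < D := by positivity
  have h1 : ∀ᶠ x in 𝓝 a, |(Q1.eval (C (φ x))).eval x| < D := by
    apply (hcont.abs.continuousAt (x := a)).eventually (gt_mem_nhds _)
    simp only [hD]; linarith
  have hrpos : 0 < |r.eval a| := abs_pos.2 hra
  have h2 : ∀ᶠ x in 𝓝 a, |r.eval a| / 2 < |r.eval x| := by
    apply (r.continuous.abs.continuousAt (x := a)).eventually (lt_mem_nhds _)
    linarith
  have h3 : ∀ᶠ x in 𝓝 a, c * D * |x - a| < |r.eval a| / 2 := by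
    have : Continuous fun x : ℝ => c * D * |x - a| := by fun_prop
    apply (this.continuousAt (x := a)).eventually (gt_mem_nhds _)
    simp only [sub_self, abs_zero, mul_zero]
    positivity
  have hφa : φ a = 0 := by
    have := h 0
    rwa [iteratedDeriv_zero] at this
  filter_upwards [hb, h1, h2, h3] with x hx1 hx2 hx3 hx4
  by_contra hne
  have hxa : x ≠ a := by rintro rfl; exact hne hφa
  have hpos : 0 < |x - a| := abs_pos.2 (sub_ne_zero.2 hxa)
  have h4 := hrelQ x hne
  rw [hdec] at h4
  have h5 : |q.eval x| = |φ x| * |(Q1.eval (C (φ x))).eval x| := by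
    rw [← abs_mul]
    have : q.eval x = -(φ x * (Q1.eval (C (φ x))).eval x) := by linarith
    rw [this, abs_neg]
  have h6 : |q.eval x| = |x - a| ^ m * |r.eval x| := by
    conv_lhs => rw [hr]
    rw [eval_mul, eval_pow, eval_sub, eval_X, eval_C, abs_mul, abs_pow]
  have h7 : |φ x| ≤ c * |x - a| ^ (m + 1) := by
    have := hx1
    rwa [Real.norm_eq_abs, Real.norm_eq_abs, abs_pow] at this
  have h8 : |x - a| ^ m * (|r.eval a| / 2) < |x - a| ^ m * (c * D * |x - a|) := by
    calc |x - a| ^ m * (|r.eval a| / 2) < |x - a| ^ m * |r.eval x| := by gcongr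
      _ = |φ x| * |(Q1.eval (C (φ x))).eval x| := by rw [← h6, h5]
      _ ≤ (c * |x - a| ^ (m + 1)) * D := by gcongr
      _ = |x - a| ^ m * (c * D * |x - a|) := by ring
  have h9 := lt_of_mul_lt_mul_left h8 (by positivity)
  linarith

/-- a smooth function satisfying a polynomial equation and flat at one point is zero -/
theorem zero_of_flat {φ : ℝ → ℝ} (hφ : ContDiff ℝ ∞ φ) (P : ℝ[X][X]) (hP : P ≠ 0)
    (hrel : ∀ t, (P.eval (C (φ t))).eval t = 0) {a : ℝ} (h : ∀ n, iteratedDeriv n φ a = 0) :
    ∀ x, φ x = 0 := by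
  set F : Set ℝ := {x | ∀ n, iteratedDeriv n φ x = 0} with hF
  have hclosed : IsClosed F := by
    have : F = ⋂ n, {x | iteratedDeriv n φ x = 0} := by ext x; simp [hF]
    rw [this]
    apply isClosed_iInter
    intro n
    have hc : Continuous (iteratedDeriv n φ) :=
      hφ.continuous_iteratedDeriv n (by exact_mod_cast le_top)
    exact isClosed_eq hc continuous_const
  have hopen : IsOpen F := by
    rw [isOpen_iff_mem_nhds]
    intro x hx
    have h1 := eventually_zero_of_flat hφ hx P hP hrel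
    filter_upwards [h1.eventually_nhds] with y hy
    intro n
    have h2 : φ =ᶠ[𝓝 y] fun _ => 0 := hy
    rw [h2.iteratedDeriv_eq]
    simp
  have huniv : F = Set.univ := IsClopen.eq_univ ⟨hclosed, hopen⟩ ⟨a, h⟩
  intro x
  have : x ∈ F := by rw [huniv]; trivial
  have := this 0
  rwa [iteratedDeriv_zero] at this

end Pool.Agent.R851.Nash
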