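import Mathlib
import Pool.Agent.R851.NashDefs

set_option autoImplicit false

open Filter Topology MvPolynomial
open scoped ContDiff

namespace Pool.Agent.R851.NashDefs

variable {n : ℕ}

lemma IsSemialgebraic.inter {s t : Set (Fin n → ℝ)} (hs : IsSemialgebraic s)
    (ht : IsSemialgebraic t) : IsSemialgebraic (s ∩ t) := by
  have := (hs.compl.union ht.compl).compl
  rwa [Set.compl_union, compl_compl, compl_compl] at this

lemma isSemialgebraic_le (p : MvPolynomial (Fin n) ℝ) :
    IsSemialgebraic {x : Fin n → ℝ | 0 ≤ eval x p} := by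
  have := (IsSemialgebraic.basic (-p)).compl
  convert this using 1
  ext x
  simp

lemma isSemialgebraic_eq (p : MvPolynomial (Fin n) ℝ) :
    IsSemialgebraic {x : Fin n → ℝ | eval x p = 0} := by
  have := (isSemialgebraic_le p).inter (isSemialgebraic_le (-p))
  convert this using 1
  ext x
  simp only [map_neg, Left.nonneg_neg_iff, Set.mem_inter_iff, Set.mem_ofPred_eq]
  constructor
  · intro h; constructor <;> linarith
  · rintro ⟨h1, h2⟩; linarith

lemma isSemialgebraic_univ : IsSemialgebraic (Set.univ : Set (Fin n → ℝ)) := by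
  have := isSemialgebraic_eq (0 : MvPolynomial (Fin n) ℝ)
  convert this using 1
  ext x; simp

/-- preimages under polynomial maps -/
lemma IsSemialgebraic.preimage {k : ℕ} (F : Fin k → MvPolynomial (Fin n) ℝ)
    {B : Set (Fin k → ℝ)} (hB : IsSemialgebraic B) :
    IsSemialgebraic {x : Fin n → ℝ | (fun i => eval x (F i)) ∈ B} := by
  induction hB with
  | basic p =>
    have := IsSemialgebraic.basic (bind₁ F p)
    convert this using 1
    ext x
    have e : eval x (bind₁ F p) = eval (fun i => eval x (F i)) p := by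
      exact eval₂Hom_bind₁ (RingHom.id ℝ) x F p
    simp only [Set.mem_ofPred_eq]
    rw [e]
  | union _ _ h1 h2 => exact h1.union h2
  | compl _ h1 => exact h1.compl

/-- outside the zero set of a suitable nonzero polynomial the membership in a semialgebraic set is
locally constant -/
lemma IsSemialgebraic.exists_poly {B : Set (Fin n → ℝ)} (hB : IsSemialgebraic B) :
    ∃ P : MvPolynomial (Fin n) ℝ, P ≠ 0 ∧ ∀ x, eval x P ≠ 0 → B ∈ 𝓝 x ∨ Bᶜ ∈ 𝓝 x := by
  induction hB with
  | basic p =>
    by_cases hp : p = 0
    · refine ⟨1, one_ne_zero, fun x _ => Or.inr ?_⟩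
      rw [hp]
      simp
    · refine ⟨p, hp, fun x hx => ?_⟩
      have hcont : Continuous fun x : Fin n → ℝ => eval x p := MvPolynomial.continuous_eval p
      rcases lt_or_gt_of_ne hx with h | h
      · right
        filter_upwards [hcont.continuousAt.eventually (gt_mem_nhds h)] with y hy
        simp only [Set.mem_compl_iff, Set.mem_ofPred_eq, not_lt]
        exact le_of_lt hy
      · left
        exact hcont.continuousAt.eventually (lt_mem_nhds h)
  | union _ _ h1 h2 =>
    obtain ⟨P, hP, h1⟩ := h1
    obtain ⟨Q, hQ, h2⟩ := h2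
    refine ⟨P * Q, mul_ne_zero hP hQ, fun x hx => ?_⟩
    rw [map_mul] at hx
    rcases h1 x (left_ne_zero_of_mul hx) with h3 | h3
    · left; exact mem_of_superset h3 Set.subset_union_left
    · rcases h2 x (right_ne_zero_of_mul hx) with h4 | h4
      · left; exact mem_of_superset h4 Set.subset_union_right
      · right
        rw [Set.compl_union]
        exact inter_mem h3 h4
  | compl _ h1 =>
    obtain ⟨P, hP, h1⟩ := h1
    refine ⟨P, hP, fun x hx => ?_⟩
    rw [compl_compl]
    exact (h1 x hx).symm

/-- a function of one variable with semialgebraic graph satisfies a polynomial equation -/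
lemma exists_equation {φ : ℝ → ℝ} (h : IsSemialgebraic {z : Fin 2 → ℝ | z 1 = φ (z 0)}) :
    ∃ P : MvPolynomial (Fin 2) ℝ, P ≠ 0 ∧ ∀ t, eval ![t, φ t] P = 0 := by
  obtain ⟨P, hP, h1⟩ := h.exists_poly
  refine ⟨P, hP, fun t => ?_⟩
  by_contra hne
  rcases h1 _ hne with h2 | h2
  · have hcont : ContinuousAt (fun s : ℝ => (![t, φ t + s] : Fin 2 → ℝ)) 0 := by
      apply Continuous.continuousAt
      apply continuous_pi
      intro i
      fin_cases i
      · exact continuous_const
      · exact continuous_const.add continuous_id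
    have h3 : ∀ᶠ s in 𝓝 (0 : ℝ), (![t, φ t + s] : Fin 2 → ℝ) ∈ {z : Fin 2 → ℝ | z 1 = φ (z 0)} := by
      apply hcont.preimage_mem_nhds
      have e0 : (![t, φ t + 0] : Fin 2 → ℝ) = ![t, φ t] := by rw [add_zero]
      rw [e0]
      exact h2
    have h4 : ∀ᶠ s in 𝓝 (0 : ℝ), s = 0 := by
      filter_upwards [h3] with s hs
      have : φ t + s = φ t := hs
      linarith
    rw [Metric.eventually_nhds_iff] at h4
    obtain ⟨ε, hε, h5⟩ := h4
    have := h5 (y := ε / 2) (by rw [Real.dist_eq, sub_zero, abs_of_pos (by positivity)]; linarith)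
    linarith
  · have := mem_of_mem_nhds h2
    exact this rfl

end Pool.Agent.R851.NashDefs
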