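import Mathlib
import Pool.Agent.R851.NashSA

set_option autoImplicit false

open Filter Topology MvPolynomial
open scoped ContDiff

namespace Pool.Agent.R851.NashDefs

lemma isSemialgebraic_quarticCone : IsSemialgebraic quarticCone := by
  have := (isSemialgebraic_le (X 2 : MvPolynomial (Fin 3) ℝ)).inter
    (isSemialgebraic_eq (X 2 ^ 2 - (X 0 ^ 4 + X 1 ^ 4) : MvPolynomial (Fin 3) ℝ))
  convert this using 1
  ext x
  simp only [quarticCone, Set.mem_ofPred_eq, Set.mem_inter_iff, eval_X, map_sub, map_add, map_pow,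
    sub_eq_zero]

/-- the map `(x, y) ↦ (x, y, sqrt (x ^ 4 + y ^ 4))` -/
noncomputable def quarticMap (x : Fin 2 → ℝ) : Fin 3 → ℝ :=
  ![x 0, x 1, Real.sqrt (x 0 ^ 4 + x 1 ^ 4)]

lemma quarticMap_mem (x : Fin 2 → ℝ) : quarticMap x ∈ quarticCone := by
  refine ⟨Real.sqrt_nonneg _, ?_⟩
  change Real.sqrt (x 0 ^ 4 + x 1 ^ 4) ^ 2 = x 0 ^ 4 + x 1 ^ 4
  exact Real.sq_sqrt (by positivity)

lemma continuous_quarticMap : Continuous quarticMap := by
  apply continuous_pi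
  intro i
  fin_cases i
  · exact continuous_apply 0
  · exact continuous_apply 1
  · change Continuous fun x : Fin 2 → ℝ => Real.sqrt (x 0 ^ 4 + x 1 ^ 4)
    fun_prop

lemma contSemialgebraic_quarticMap :
    IsContSemialgebraicMap Set.univ quarticCone quarticMap := by
  refine ⟨fun x _ => quarticMap_mem x, continuous_quarticMap.continuousOn, ?_⟩
  have := ((isSemialgebraic_eq (X 2 - X 0 : MvPolynomial (Fin (2 + 3)) ℝ)).inter
    (isSemialgebraic_eq (X 3 - X 1 : MvPolynomial (Fin (2 + 3)) ℝ))).inter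
    ((isSemialgebraic_le (X 4 : MvPolynomial (Fin (2 + 3)) ℝ)).inter
    (isSemialgebraic_eq (X 4 ^ 2 - (X 0 ^ 4 + X 1 ^ 4) : MvPolynomial (Fin (2 + 3)) ℝ)))
  unfold IsSemialgebraicMap
  convert this using 1
  ext z
  simp only [graph, Set.mem_univ, true_and, Set.mem_ofPred_eq, Set.mem_inter_iff, eval_X, map_sub,
    map_add, map_pow, sub_eq_zero]
  constructor
  · intro h
    have h0 := congrFun h 0
    have h1 := congrFun h 1
    have h2 := congrFun h 2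
    have h0' : z 2 = z 0 := h0
    have h1' : z 3 = z 1 := h1
    have h2' : z 4 = Real.sqrt (z 0 ^ 4 + z 1 ^ 4) := h2
    refine ⟨⟨h0', h1'⟩, ?_, ?_⟩
    · rw [h2']; exact Real.sqrt_nonneg _
    · rw [h2']; exact Real.sq_sqrt (by positivity)
  · rintro ⟨⟨h0, h1⟩, h2, h3⟩
    funext j
    fin_cases j
    · exact h0
    · exact h1
    · change z 4 = Real.sqrt (z 0 ^ 4 + z 1 ^ 4)
      rw [← h3, Real.sqrt_sq h2]

lemma positiveSemialgebraic_const {m : ℕ} {r : ℝ} (hr : 0 < r) :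
    IsPositiveSemialgebraic (Set.univ : Set (Fin m → ℝ)) (fun _ => r) := by
  refine ⟨fun _ _ => hr, continuousOn_const, ?_⟩
  have := isSemialgebraic_eq (X (Fin.natAdd m 0) - C r : MvPolynomial (Fin (m + 1)) ℝ)
  unfold IsSemialgebraicMap
  convert this using 1
  ext z
  simp only [graph, Set.mem_univ, true_and, Set.mem_ofPred_eq, eval_X, map_sub, eval_C, sub_eq_zero]
  constructor
  · intro h; exact congrFun h 0
  · intro h; funext j; fin_cases j; exact h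

/-- analytic curves in the quartic cone in polar coordinates -/
lemma analytic_polar {l θ : ℝ → ℝ} (hl : ContDiff ℝ ω l) (hθ : ContDiff ℝ ω θ) (s : Set ℝ) :
    AnalyticOnNhd ℝ (fun t => (![l t * Real.cos (θ t), l t * Real.sin (θ t),
      l t ^ 2 * Real.sqrt (Real.cos (θ t) ^ 4 + Real.sin (θ t) ^ 4)] : Fin 3 → ℝ)) s := by
  intro t _
  apply ContDiffAt.analyticAt
  rw [contDiffAt_pi]
  have hc : ContDiff ℝ ω fun t => Real.cos (θ t) := Real.contDiff_cos.comp hθ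
  have hs : ContDiff ℝ ω fun t => Real.sin (θ t) := Real.contDiff_sin.comp hθ
  have hpos : ∀ x : ℝ, Real.cos x ^ 4 + Real.sin x ^ 4 ≠ 0 := by
    intro x h
    have h1 := Real.cos_sq_add_sin_sq x
    nlinarith [sq_nonneg (Real.cos x ^ 2 - Real.sin x ^ 2)]
  intro i
  fin_cases i
  · exact (hl.mul hc).contDiffAt
  · exact (hl.mul hs).contDiffAt
  · change ContDiffAt ℝ ω
      (fun t => l t ^ 2 * Real.sqrt (Real.cos (θ t) ^ 4 + Real.sin (θ t) ^ 4)) t
    apply (hl.pow 2).contDiffAt.mul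
    exact ((hc.pow 4).add (hs.pow 4)).contDiffAt.sqrt (hpos _)

lemma exists_polar (a b : ℝ) : ∃ l θ : ℝ, 0 ≤ l ∧ a = l * Real.cos θ ∧ b = l * Real.sin θ := by
  refine ⟨‖(⟨a, b⟩ : ℂ)‖, Complex.arg ⟨a, b⟩, norm_nonneg _, ?_, ?_⟩
  · exact (Complex.norm_mul_cos_arg ⟨a, b⟩).symm
  · exact (Complex.norm_mul_sin_arg ⟨a, b⟩).symm

lemma z_eq {x : Fin 3 → ℝ} (hx : x ∈ quarticCone) : x 2 = Real.sqrt (x 0 ^ 4 + x 1 ^ 4) := by
  rw [← hx.2, Real.sqrt_sq hx.1]

lemma sqrt_polar (l θ : ℝ) : Real.sqrt ((l * Real.cos θ) ^ 4 + (l * Real.sin θ) ^ 4) =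
    l ^ 2 * Real.sqrt (Real.cos θ ^ 4 + Real.sin θ ^ 4) := by
  have : (l * Real.cos θ) ^ 4 + (l * Real.sin θ) ^ 4 =
      (l ^ 2) ^ 2 * (Real.cos θ ^ 4 + Real.sin θ ^ 4) := by ring
  rw [this, Real.sqrt_mul (by positivity), Real.sqrt_sq (by positivity)]

/-- near the origin -/
lemma connected_origin (δ η : ℝ) (hη : δ ^ 2 ≤ η) :
    ConnectedByAnalyticPaths (quarticCone ∩
      {x : Fin 3 → ℝ | x 0 ^ 2 + x 1 ^ 2 < δ ^ 2 ∧ x 2 ^ 2 < η ^ 2}) := by
  intro x hx y hy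
  obtain ⟨lx, θx, hlx, hx0, hx1⟩ := exists_polar (x 0) (x 1)
  obtain ⟨ly, θy, hly, hy0, hy1⟩ := exists_polar (y 0) (y 1)
  have hxl : lx ^ 2 < δ ^ 2 := by
    have h1 := hx.2.1
    rw [hx0, hx1] at h1
    have h2 := Real.cos_sq_add_sin_sq θx
    nlinarith
  have hyl : ly ^ 2 < δ ^ 2 := by
    have h1 := hy.2.1
    rw [hy0, hy1] at h1
    have h2 := Real.cos_sq_add_sin_sq θy
    nlinarith
  refine ⟨1, fun t => ![((1 - t) * lx + t * ly) * Real.cos ((1 - t) * θx + t * θy),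
    ((1 - t) * lx + t * ly) * Real.sin ((1 - t) * θx + t * θy),
    ((1 - t) * lx + t * ly) ^ 2 * Real.sqrt (Real.cos ((1 - t) * θx + t * θy) ^ 4 +
      Real.sin ((1 - t) * θx + t * θy) ^ 4)], one_pos, ?_, ?_, ?_, ?_⟩
  · apply analytic_polar
    · fun_prop
    · fun_prop
  · intro t ht
    set l := (1 - t) * lx + t * ly with hl
    set θ := (1 - t) * θx + t * θy with hθ
    have hl0 : 0 ≤ l := by
      have := ht.1; have := ht.2
      have h1 : 0 ≤ 1 - t := by linarith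
      positivity
    have hlδ : l ^ 2 < δ ^ 2 := by
      have hd : 0 ≤ |δ| := abs_nonneg δ
      have h1 : lx < |δ| := by
        rw [← abs_of_nonneg hlx]; exact sq_lt_sq.1 hxl
      have h2 : ly < |δ| := by
        rw [← abs_of_nonneg hly]; exact sq_lt_sq.1 hyl
      have h3 : l < |δ| := by
        rcases eq_or_lt_of_le ht.1 with h4 | h4
        · rw [hl, ← h4]; simpa using h1
        · have h5 : 0 ≤ 1 - t := by linarith [ht.2]
          calc l = (1 - t) * lx + t * ly := rfl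
            _ ≤ (1 - t) * |δ| + t * ly := by gcongr
            _ < (1 - t) * |δ| + t * |δ| := by gcongr
            _ = |δ| := by ring
      rw [← sq_abs δ]
      gcongr
    have hcs := Real.cos_sq_add_sin_sq θ
    have hq : Real.cos θ ^ 4 + Real.sin θ ^ 4 ≤ 1 := by
      nlinarith [sq_nonneg (Real.cos θ), sq_nonneg (Real.sin θ), mul_nonneg (sq_nonneg (Real.cos θ)) (sq_nonneg (Real.sin θ))]
    have hsq : Real.sqrt (Real.cos θ ^ 4 + Real.sin θ ^ 4) ≤ 1 := by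
      calc Real.sqrt (Real.cos θ ^ 4 + Real.sin θ ^ 4) ≤ Real.sqrt 1 := Real.sqrt_le_sqrt hq
        _ = 1 := Real.sqrt_one
    have hs0 := Real.sqrt_nonneg (Real.cos θ ^ 4 + Real.sin θ ^ 4)
    refine ⟨⟨?_, ?_⟩, ?_, ?_⟩
    · change 0 ≤ l ^ 2 * Real.sqrt (Real.cos θ ^ 4 + Real.sin θ ^ 4)
      positivity
    · change (l ^ 2 * Real.sqrt (Real.cos θ ^ 4 + Real.sin θ ^ 4)) ^ 2 =
        (l * Real.cos θ) ^ 4 + (l * Real.sin θ) ^ 4
      rw [mul_pow, Real.sq_sqrt (by positivity)]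
      ring
    · change (l * Real.cos θ) ^ 2 + (l * Real.sin θ) ^ 2 < δ ^ 2
      nlinarith
    · change (l ^ 2 * Real.sqrt (Real.cos θ ^ 4 + Real.sin θ ^ 4)) ^ 2 < η ^ 2
      have h1 : l ^ 2 * Real.sqrt (Real.cos θ ^ 4 + Real.sin θ ^ 4) ≤ l ^ 2 := by
        calc l ^ 2 * Real.sqrt (Real.cos θ ^ 4 + Real.sin θ ^ 4) ≤ l ^ 2 * 1 := by gcongr
          _ = l ^ 2 := mul_one _
      have h2 : l ^ 2 * Real.sqrt (Real.cos θ ^ 4 + Real.sin θ ^ 4) < η := by linarith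
      have h3 : 0 ≤ l ^ 2 * Real.sqrt (Real.cos θ ^ 4 + Real.sin θ ^ 4) := by positivity
      gcongr
  · funext i
    fin_cases i
    · simp [hx0]
    · simp [hx1]
    · change ((1 - 0) * lx + 0 * ly) ^ 2 * Real.sqrt (Real.cos ((1 - 0) * θx + 0 * θy) ^ 4 +
        Real.sin ((1 - 0) * θx + 0 * θy) ^ 4) = x 2
      rw [z_eq hx.1, hx0, hx1, sqrt_polar]
      simp
  · funext i
    fin_cases i
    · simp [hy0]
    · simp [hy1]
    · change ((1 - 1) * lx + 1 * ly) ^ 2 * Real.sqrt (Real.cos ((1 - 1) * θx + 1 * θy) ^ 4 +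
        Real.sin ((1 - 1) * θx + 1 * θy) ^ 4) = y 2
      rw [z_eq hy.1, hy0, hy1, sqrt_polar]
      simp

/-- near a point different from the origin -/
lemma connected_other {a b c δ η : ℝ}
    (h0 : ∀ u v : ℝ, (u - a) ^ 2 + (v - b) ^ 2 < δ ^ 2 → u ^ 4 + v ^ 4 ≠ 0)
    (h1 : ∀ u v : ℝ, (u - a) ^ 2 + (v - b) ^ 2 < δ ^ 2 →
      (Real.sqrt (u ^ 4 + v ^ 4) - c) ^ 2 < η ^ 2) :
    ConnectedByAnalyticPaths (quarticCone ∩
      {x : Fin 3 → ℝ | (x 0 - a) ^ 2 + (x 1 - b) ^ 2 < δ ^ 2 ∧ (x 2 - c) ^ 2 < η ^ 2}) := by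
  intro x hx y hy
  -- the segment
  let u : ℝ → ℝ := fun t => x 0 + t * (y 0 - x 0)
  let v : ℝ → ℝ := fun t => x 1 + t * (y 1 - x 1)
  have hdisc : ∀ t ∈ Set.Icc (0 : ℝ) 1, (u t - a) ^ 2 + (v t - b) ^ 2 < δ ^ 2 := by
    intro t ht
    have h2 := hx.2.1
    have h3 := hy.2.1
    have h4 := ht.1
    have h5 := ht.2
    have e : (u t - a) ^ 2 + (v t - b) ^ 2 = (1 - t) * ((x 0 - a) ^ 2 + (x 1 - b) ^ 2) +
        t * ((y 0 - a) ^ 2 + (y 1 - b) ^ 2) - t * (1 - t) * ((x 0 - y 0) ^ 2 + (x 1 - y 1) ^ 2) := by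
      simp only [u, v]; ring
    have h6 : 0 ≤ t * (1 - t) * ((x 0 - y 0) ^ 2 + (x 1 - y 1) ^ 2) := by
      have : 0 ≤ 1 - t := by linarith
      positivity
    rw [e]
    rcases eq_or_lt_of_le h4 with h7 | h7
    · rw [← h7] at h6 ⊢; linarith
    · have h8 : t * ((y 0 - a) ^ 2 + (y 1 - b) ^ 2) < t * δ ^ 2 := by gcongr
      have h9 : (1 - t) * ((x 0 - a) ^ 2 + (x 1 - b) ^ 2) ≤ (1 - t) * δ ^ 2 := by
        have : 0 ≤ 1 - t := by linarith
        gcongr
      nlinarith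
  -- it stays in the disc slightly longer
  have hucont : Continuous fun t : ℝ => (u t - a) ^ 2 + (v t - b) ^ 2 := by
    simp only [u, v]; fun_prop
  have hopen : IsOpen {t : ℝ | (u t - a) ^ 2 + (v t - b) ^ 2 < δ ^ 2} :=
    isOpen_lt hucont continuous_const
  obtain ⟨r, hr, hr2⟩ : ∃ r : ℝ, 0 < r ∧ ∀ t ∈ Set.Ioo (-r) (1 + r),
      (u t - a) ^ 2 + (v t - b) ^ 2 < δ ^ 2 := by
    obtain ⟨r1, hr1, h2⟩ := Metric.isOpen_iff.1 hopen 0 (hdisc 0 ⟨le_rfl, zero_le_one⟩)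
    obtain ⟨r2, hr2, h3⟩ := Metric.isOpen_iff.1 hopen 1 (hdisc 1 ⟨zero_le_one, le_rfl⟩)
    refine ⟨min r1 r2, lt_min hr1 hr2, fun t ht => ?_⟩
    by_cases h4 : t < 0
    · apply h2
      rw [Metric.mem_ball, Real.dist_eq, sub_zero, abs_of_neg h4]
      have := ht.1
      have := min_le_left r1 r2
      linarith
    · by_cases h5 : t ≤ 1
      · exact hdisc t ⟨not_lt.1 h4, h5⟩
      · apply h3
        rw [Metric.mem_ball, Real.dist_eq, abs_of_pos (by linarith)]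
        have := ht.2
        have := min_le_right r1 r2
        linarith
  have hu : ContDiff ℝ ω u := by simp only [u]; fun_prop
  have hv : ContDiff ℝ ω v := by simp only [v]; fun_prop
  refine ⟨r, fun t => ![u t, v t, Real.sqrt (u t ^ 4 + v t ^ 4)], hr, ?_, ?_, ?_, ?_⟩
  · intro t ht
    apply ContDiffAt.analyticAt
    rw [contDiffAt_pi]
    intro i
    fin_cases i
    · exact hu.contDiffAt
    · exact hv.contDiffAt
    · change ContDiffAt ℝ ω (fun t => Real.sqrt (u t ^ 4 + v t ^ 4)) t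
      exact ((hu.pow 4).add (hv.pow 4)).contDiffAt.sqrt (h0 _ _ (hr2 t ht))
  · intro t ht
    refine ⟨⟨Real.sqrt_nonneg _, ?_⟩, ?_, ?_⟩
    · change Real.sqrt (u t ^ 4 + v t ^ 4) ^ 2 = u t ^ 4 + v t ^ 4
      exact Real.sq_sqrt (by positivity)
    · exact hdisc t ht
    · exact h1 _ _ (hdisc t ht)
  · funext i
    fin_cases i
    · simp [u]
    · simp [v]
    · change Real.sqrt (u 0 ^ 4 + v 0 ^ 4) = x 2
      rw [z_eq hx.1]; simp [u, v]
  · funext i
    fin_cases i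
    · simp [u]
    · simp [v]
    · change Real.sqrt (u 1 ^ 4 + v 1 ^ 4) = y 2
      rw [z_eq hy.1]; simp [u, v]

theorem locallyConnected_quarticCone : LocallyConnectedByAnalyticPaths quarticCone := by
  intro x hx U hU hxU
  obtain ⟨ε, hε, hball⟩ := Metric.isOpen_iff.1 hU x hxU
  have hsub : ∀ w : Fin 3 → ℝ, (w 0 - x 0) ^ 2 < ε ^ 2 → (w 1 - x 1) ^ 2 < ε ^ 2 →
      (w 2 - x 2) ^ 2 < ε ^ 2 → w ∈ U := by
    intro w h0 h1 h2
    apply hball
    rw [Metric.mem_ball, dist_pi_lt_iff hε]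
    intro i
    rw [Real.dist_eq]
    have e : |ε| = ε := abs_of_pos hε
    fin_cases i
    · have := sq_lt_sq.1 h0; rwa [e] at this
    · have := sq_lt_sq.1 h1; rwa [e] at this
    · have := sq_lt_sq.1 h2; rwa [e] at this
  by_cases hxy : x 0 ^ 4 + x 1 ^ 4 = 0
  · -- the origin
    have hx0 : x 0 = 0 := by
      have h1 : 0 ≤ x 1 ^ 4 := by positivity
      have h2 : 0 ≤ x 0 ^ 4 := by positivity
      exact pow_eq_zero_iff (n := 4) (by norm_num) |>.1 (by linarith)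
    have hx1 : x 1 = 0 := by
      have h1 : 0 ≤ x 1 ^ 4 := by positivity
      have h2 : 0 ≤ x 0 ^ 4 := by positivity
      exact pow_eq_zero_iff (n := 4) (by norm_num) |>.1 (by linarith)
    have hx2 : x 2 = 0 := by rw [z_eq hx, hxy, Real.sqrt_zero]
    obtain ⟨δ, hδ, hδε, hδ2⟩ : ∃ δ : ℝ, 0 < δ ∧ δ ≤ ε ∧ δ ^ 2 ≤ ε := by
      refine ⟨min (min ε 1) (min ε 1), by positivity, ?_, ?_⟩
      · simp
      · have h1 : min (min ε 1) (min ε 1) = min ε 1 := min_self _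
        rw [h1]
        have h2 : 0 < min ε 1 := by positivity
        have h3 : min ε 1 ≤ 1 := min_le_right _ _
        have h4 : min ε 1 ≤ ε := min_le_left _ _
        nlinarith
    refine ⟨{w | w 0 ^ 2 + w 1 ^ 2 < δ ^ 2 ∧ w 2 ^ 2 < ε ^ 2}, ?_, ?_, ?_, ?_, ?_⟩
    · have c1 : Continuous fun w : Fin 3 → ℝ => w 0 ^ 2 + w 1 ^ 2 := by fun_prop
      have c2 : Continuous fun w : Fin 3 → ℝ => w 2 ^ 2 := by fun_prop
      exact (isOpen_lt c1 continuous_const).inter (isOpen_lt c2 continuous_const)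
    · have := (IsSemialgebraic.basic (C (δ ^ 2) - (X 0 ^ 2 + X 1 ^ 2) :
        MvPolynomial (Fin 3) ℝ)).inter
        (IsSemialgebraic.basic (C (ε ^ 2) - X 2 ^ 2 : MvPolynomial (Fin 3) ℝ))
      convert this using 1
      ext w
      simp only [Set.mem_ofPred_eq, Set.mem_inter_iff, eval_X, map_sub, map_add, map_pow, eval_C,
        sub_pos]
    · change x 0 ^ 2 + x 1 ^ 2 < δ ^ 2 ∧ x 2 ^ 2 < ε ^ 2
      rw [hx0, hx1, hx2]
      constructor
      · have : 0 < δ ^ 2 := by positivity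
        simpa using this
      · have : 0 < ε ^ 2 := by positivity
        simpa using this
    · rintro w ⟨h1, h2⟩
      have h3 : δ ^ 2 ≤ ε ^ 2 := by gcongr
      apply hsub
      · rw [hx0, sub_zero]; nlinarith [sq_nonneg (w 1)]
      · rw [hx1, sub_zero]; nlinarith [sq_nonneg (w 0)]
      · rw [hx2, sub_zero]; exact h2
    · exact connected_origin δ ε hδ2
  · -- other points
    have hg : Continuous fun p : ℝ × ℝ => p.1 ^ 4 + p.2 ^ 4 := by fun_prop
    have hs : Continuous fun p : ℝ × ℝ => (Real.sqrt (p.1 ^ 4 + p.2 ^ 4) - x 2) ^ 2 := by fun_prop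
    have e1 : ∀ᶠ p in 𝓝 ((x 0, x 1) : ℝ × ℝ), p.1 ^ 4 + p.2 ^ 4 ≠ 0 :=
      hg.continuousAt.eventually_ne hxy
    have e2 : ∀ᶠ p in 𝓝 ((x 0, x 1) : ℝ × ℝ),
        (Real.sqrt (p.1 ^ 4 + p.2 ^ 4) - x 2) ^ 2 < ε ^ 2 := by
      apply hs.continuousAt.eventually (gt_mem_nhds _)
      simp only
      rw [← z_eq hx, sub_self]
      have he2 : 0 < ε ^ 2 := by positivity
      simpa using he2
    obtain ⟨r, hr, hr2⟩ := Metric.eventually_nhds_iff.1 (e1.and e2)
    set δ := min r ε with hδ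
    have hδpos : 0 < δ := lt_min hr hε
    have hin : ∀ u v : ℝ, (u - x 0) ^ 2 + (v - x 1) ^ 2 < δ ^ 2 →
        dist ((u, v) : ℝ × ℝ) (x 0, x 1) < r := by
      intro u v huv
      rw [Prod.dist_eq, Real.dist_eq, Real.dist_eq]
      have h3 : δ ≤ r := min_le_left _ _
      apply lt_of_lt_of_le _ h3
      apply max_lt
      · have : (u - x 0) ^ 2 < δ ^ 2 := by nlinarith [sq_nonneg (v - x 1)]
        have := sq_lt_sq.1 this
        rwa [abs_of_pos hδpos] at this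
      · have : (v - x 1) ^ 2 < δ ^ 2 := by nlinarith [sq_nonneg (u - x 0)]
        have := sq_lt_sq.1 this
        rwa [abs_of_pos hδpos] at this
    refine ⟨{w | (w 0 - x 0) ^ 2 + (w 1 - x 1) ^ 2 < δ ^ 2 ∧ (w 2 - x 2) ^ 2 < ε ^ 2},
      ?_, ?_, ?_, ?_, ?_⟩
    · have c1 : Continuous fun w : Fin 3 → ℝ => (w 0 - x 0) ^ 2 + (w 1 - x 1) ^ 2 := by fun_prop
      have c2 : Continuous fun w : Fin 3 → ℝ => (w 2 - x 2) ^ 2 := by fun_prop
      exact (isOpen_lt c1 continuous_const).inter (isOpen_lt c2 continuous_const)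
    · have := (IsSemialgebraic.basic (C (δ ^ 2) - ((X 0 - C (x 0)) ^ 2 + (X 1 - C (x 1)) ^ 2) :
        MvPolynomial (Fin 3) ℝ)).inter
        (IsSemialgebraic.basic (C (ε ^ 2) - (X 2 - C (x 2)) ^ 2 : MvPolynomial (Fin 3) ℝ))
      convert this using 1
      ext w
      simp only [Set.mem_ofPred_eq, Set.mem_inter_iff, eval_X, map_sub, map_add, map_pow, eval_C,
        sub_pos]
    · have hd2 : 0 < δ ^ 2 := by positivity
      have he2 : 0 < ε ^ 2 := by positivity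
      constructor
      · simpa using hd2
      · simpa using he2
    · rintro w ⟨h1, h2⟩
      have h3 : δ ^ 2 ≤ ε ^ 2 := by
        have : δ ≤ ε := min_le_right _ _
        gcongr
      apply hsub
      · nlinarith [sq_nonneg (w 1 - x 1)]
      · nlinarith [sq_nonneg (w 0 - x 0)]
      · exact h2
    · apply connected_other
      · intro u v huv; exact (hr2 (hin u v huv)).1
      · intro u v huv; exact (hr2 (hin u v huv)).2

end Pool.Agent.R851.NashDefs
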