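import Mathlib

set_option autoImplicit false

open Polynomial

namespace Pool.Agent.R851.Nash

/-- Real polynomials `A`, `B` such that `A ^ 4 + B ^ 4` is a square are proportional. -/
theorem parallel_of_sq {A B R : ℝ[X]} {s : ℝ} (hs : s ≠ 0)
    (h : R ^ 2 = C (s ^ 2) * (A ^ 4 + B ^ 4)) (i j : ℕ) :
    A.coeff i * B.coeff j = A.coeff j * B.coeff i := by
  classical
  by_cases hA : A = 0
  · simp [hA]
  by_cases hB : B = 0
  · simp [hB]
  set g := EuclideanDomain.gcd A B with hg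
  have hg0 : g ≠ 0 := fun h0 => hA (EuclideanDomain.gcd_eq_zero_iff.1 h0).1
  obtain ⟨A', hA'⟩ : g ∣ A := EuclideanDomain.gcd_dvd_left A B
  obtain ⟨B', hB'⟩ : g ∣ B := EuclideanDomain.gcd_dvd_right A B
  have hcop : IsCoprime A' B' := by
    have hbez := EuclideanDomain.gcd_eq_gcd_ab A B
    refine ⟨EuclideanDomain.gcdA A B, EuclideanDomain.gcdB A B, ?_⟩
    apply mul_left_cancel₀ hg0
    calc g * (EuclideanDomain.gcdA A B * A' + EuclideanDomain.gcdB A B * B')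
        = (g * A') * EuclideanDomain.gcdA A B + (g * B') * EuclideanDomain.gcdB A B := by ring
      _ = A * EuclideanDomain.gcdA A B + B * EuclideanDomain.gcdB A B := by rw [← hA', ← hB']
      _ = g * 1 := by rw [mul_one, hg]; exact hbez.symm
  have hA'0 : A' ≠ 0 := by rintro rfl; exact hA (by rw [hA', mul_zero])
  have hB'0 : B' ≠ 0 := by rintro rfl; exact hB (by rw [hB', mul_zero])
  have h1 : R ^ 2 = (g ^ 2) ^ 2 * (C (s ^ 2) * (A' ^ 4 + B' ^ 4)) := by
    rw [h, hA', hB']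
    ring
  have h2 : g ^ 2 ∣ R := by
    have : (g ^ 2) ^ 2 ∣ R ^ 2 := ⟨_, h1⟩
    exact (UniqueFactorizationMonoid.pow_dvd_pow_iff_dvd two_ne_zero).1 this
  obtain ⟨E, hE⟩ := h2
  have h3 : E ^ 2 = C (s ^ 2) * (A' ^ 4 + B' ^ 4) := by
    have h4 : (g ^ 2) ^ 2 * E ^ 2 = (g ^ 2) ^ 2 * (C (s ^ 2) * (A' ^ 4 + B' ^ 4)) := by
      rw [← h1, hE]; ring
    exact mul_left_cancel₀ (pow_ne_zero _ (pow_ne_zero _ hg0)) h4
  have hE0 : E ≠ 0 := by
    rintro rfl
    have h5 : A' ^ 4 + B' ^ 4 = 0 := by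
      have : C (s ^ 2) * (A' ^ 4 + B' ^ 4) = 0 := by rw [← h3]; ring
      rcases mul_eq_zero.1 this with h6 | h6
      · exact absurd (C_eq_zero.1 h6) (pow_ne_zero _ hs)
      · exact h6
    apply hA'0
    apply Polynomial.funext
    intro x
    have h7 := congrArg (eval x) h5
    simp only [eval_add, eval_pow, eval_zero] at h7
    rw [eval_zero]
    have h8 : 0 ≤ (eval x B') ^ 4 := by positivity
    have h9 : 0 ≤ (eval x A') ^ 4 := by positivity
    exact pow_eq_zero_iff (n := 4) (by norm_num) |>.1 (by linarith)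
  have hs2 : s ^ 2 ≠ 0 := pow_ne_zero _ hs
  obtain ⟨d1, d2, -⟩ := Polynomial.flt_catalan (p := 4) (q := 4) (r := 2) (by norm_num)
    (by norm_num) (by norm_num) (by norm_num) (by norm_num) (by norm_num) (by norm_num)
    hA'0 hB'0 hE0 hcop hs2 hs2 (w := -1) (by norm_num) (by rw [h3]; simp; ring)
  obtain ⟨α, hα⟩ : ∃ α, A' = C α := ⟨_, eq_C_of_natDegree_eq_zero d1⟩
  obtain ⟨β, hβ⟩ : ∃ β, B' = C β := ⟨_, eq_C_of_natDegree_eq_zero d2⟩
  have hAc : ∀ i, A.coeff i = g.coeff i * α := fun i => by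
    conv_lhs => rw [hA', hα]
    rw [coeff_mul_C]
  have hBc : ∀ i, B.coeff i = g.coeff i * β := fun i => by
    conv_lhs => rw [hB', hβ]
    rw [coeff_mul_C]
  rw [hAc, hAc, hBc, hBc]
  ring

end Pool.Agent.R851.Nash
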