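import Mathlib
import Pool.Agent.R851.NashPoly

set_option autoImplicit false

open Filter Topology

namespace Pool.Agent.R851.Nash

variable {ι : Type*}

/-- coefficientwise convergence of power series along a filter -/
def CT (U : Filter ι) (f : ι → PowerSeries ℝ) (g : PowerSeries ℝ) : Prop :=
  ∀ n, Tendsto (fun i => PowerSeries.coeff n (f i)) U (𝓝 (PowerSeries.coeff n g))

lemma CT.mul {U : Filter ι} {f f' : ι → PowerSeries ℝ} {g g' : PowerSeries ℝ}
    (h : CT U f g) (h' : CT U f' g') : CT U (fun i => f i * f' i) (g * g') := by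
  intro n
  simp only [PowerSeries.coeff_mul]
  exact tendsto_finsetSum _ fun p _ => (h p.1).mul (h' p.2)

lemma CT.add {U : Filter ι} {f f' : ι → PowerSeries ℝ} {g g' : PowerSeries ℝ}
    (h : CT U f g) (h' : CT U f' g') : CT U (fun i => f i + f' i) (g + g') := by
  intro n
  simp only [map_add]
  exact (h n).add (h' n)

lemma CT.pow {U : Filter ι} {f : ι → PowerSeries ℝ} {g : PowerSeries ℝ}
    (h : CT U f g) (k : ℕ) : CT U (fun i => f i ^ k) (g ^ k) := by
  induction k with
  | zero => intro n; simp only [pow_zero]; exact tendsto_const_nhds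
  | succ k ih => simp only [pow_succ]; exact ih.mul h

lemma CT.Cmul {U : Filter ι} {f : ι → PowerSeries ℝ} {g : PowerSeries ℝ} {s : ι → ℝ} {t : ℝ}
    (hs : Tendsto s U (𝓝 t)) (h : CT U f g) :
    CT U (fun i => PowerSeries.C (s i) * f i) (PowerSeries.C t * g) := by
  intro n
  simp only [PowerSeries.coeff_C_mul]
  exact hs.mul (h n)

lemma CT.unique {U : Filter ι} [U.NeBot] {f : ι → PowerSeries ℝ} {g g' : PowerSeries ℝ}
    (h : CT U f g) (h' : CT U f g') : g = g' := by
  ext n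
  exact tendsto_nhds_unique (h n) (h' n)

lemma CT.congr {U : Filter ι} {f f' : ι → PowerSeries ℝ} {g : PowerSeries ℝ}
    (h : CT U f g) (hff : ∀ᶠ i in U, f i = f' i) : CT U f' g := by
  intro n
  refine (h n).congr' ?_
  filter_upwards [hff] with i hi
  rw [hi]

/-- bounded functions converge along an ultrafilter -/
lemma exists_limit {E : Type*} [NormedAddCommGroup E] [ProperSpace E] (U : Ultrafilter ι)
    {f : ι → E} (h : ∀ᶠ i in U, ‖f i‖ ≤ 1) : ∃ l : E, Tendsto f U (𝓝 l) := by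
  have hc : IsCompact (Metric.closedBall (0 : E) 1) := isCompact_closedBall _ _
  obtain ⟨l, -, hl⟩ := hc.ultrafilter_le_nhds (U.map f) (by
    rw [le_principal_iff]
    change f ⁻¹' _ ∈ (U : Filter ι)
    filter_upwards [h] with i hi
    simpa using hi)
  exact ⟨l, hl⟩

/-- the (doubled) direction of a nonzero complex number -/
noncomputable def dir (c : ℂ) : ℂ := c ^ 2 / ((‖c‖ : ℂ) ^ 2)

lemma dir_smul {r : ℝ} (hr : r ≠ 0) (c : ℂ) : dir ((r : ℂ) * c) = dir c := by
  unfold dir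
  have hr' : (r : ℂ) ≠ 0 := by exact_mod_cast hr
  have h1 : ((‖(r : ℂ) * c‖ : ℝ) : ℂ) ^ 2 = (r : ℂ) ^ 2 * (‖c‖ : ℂ) ^ 2 := by
    rw [norm_mul, Complex.norm_real]
    push_cast
    rw [mul_pow]
    congr 1
    have : (‖r‖ : ℝ) ^ 2 = r ^ 2 := by rw [Real.norm_eq_abs, sq_abs]
    exact_mod_cast this
  rw [h1, mul_pow, mul_div_mul_left _ _ (pow_ne_zero 2 hr')]

lemma norm_dir {c : ℂ} (hc : c ≠ 0) : ‖dir c‖ = 1 := by
  unfold dir
  rw [norm_div, norm_pow, norm_pow, Complex.norm_real, norm_norm]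
  exact div_self (pow_ne_zero _ (norm_ne_zero_iff.2 hc))

lemma continuousAt_dir {c : ℂ} (hc : c ≠ 0) : ContinuousAt dir c := by
  unfold dir
  apply ContinuousAt.div
  · fun_prop
  · fun_prop
  · exact pow_ne_zero _ (by exact_mod_cast norm_ne_zero_iff.2 hc)

lemma dir_eq_of_parallel {c d : ℂ} (hc : c ≠ 0) (hd : d ≠ 0)
    (h : c.re * d.im = d.re * c.im) : dir c = dir d := by
  -- `d = r c` with `r` real
  obtain ⟨r, hr⟩ : ∃ r : ℝ, d = (r : ℂ) * c := by
    have hn : c.re ^ 2 + c.im ^ 2 ≠ 0 := by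
      intro h0
      apply hc
      have h1 : c.re = 0 := by nlinarith [sq_nonneg c.re, sq_nonneg c.im]
      have h2 : c.im = 0 := by nlinarith [sq_nonneg c.re, sq_nonneg c.im]
      exact Complex.ext h1 h2
    refine ⟨(c.re * d.re + c.im * d.im) / (c.re ^ 2 + c.im ^ 2), ?_⟩
    apply Complex.ext
    · rw [Complex.re_ofReal_mul]
      field_simp
      linear_combination (-c.im) * h
    · rw [Complex.im_ofReal_mul]
      field_simp
      linear_combination (c.re) * h
  have hr0 : r ≠ 0 := by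
    rintro rfl
    apply hd
    rw [hr]; simp
  rw [hr, dir_smul hr0]

theorem limit_dir (U : Ultrafilter ι) (c : ℕ → ι → ℂ) (h : ℕ → ι → ℝ) (c' : ℕ → ℂ) (h' : ℕ → ℝ)
    (hid : ∀ i, (PowerSeries.mk fun n => h n i) ^ 2 =
      (PowerSeries.mk fun n => (c n i).re) ^ 4 + (PowerSeries.mk fun n => (c n i).im) ^ 4)
    (hc : ∀ n, Tendsto (c n) U (𝓝 (c' n))) (hh : ∀ n, Tendsto (h n) U (𝓝 (h' n)))
    (K : ℕ) (hK : c' K ≠ 0) (hlt : ∀ j < K, c' j = 0) (h0 : ∀ᶠ i in U, c 0 i ≠ 0) :
    Tendsto (fun i => dir (c 0 i)) U (𝓝 (dir (c' K))) := by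
  classical
  let P : ℕ → Prop := fun j => Tendsto (fun i => dir (c j i)) U (𝓝 (dir (c' K)))
  have hPK : P K := (continuousAt_dir hK).tendsto.comp (hc K)
  by_contra hP0
  change ¬ P 0 at hP0
  set R := Finset.range (K + 1) with hR
  set J := R.filter P with hJ
  set I := R.filter (fun j => ¬ P j) with hI
  have hKJ : K ∈ J := by simp [hJ, hR, hPK]
  have h0I : 0 ∈ I := by simp [hI, hR, hP0]
  have h0J : 0 ∉ J := by simp [hJ, hP0]
  have hIlt : ∀ j ∈ I, j < K := by
    intro j hj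
    simp only [hI, hR, Finset.mem_filter, Finset.mem_range] at hj
    rcases Nat.lt_or_ge j K with h1 | h1
    · exact h1
    · have : j = K := by omega
      subst this
      exact absurd hPK hj.2
  let A : ι → ℝ → ℝ := fun i ρ => ∑ j ∈ I, ‖c j i‖ * ρ ^ j
  let B : ι → ℝ → ℝ := fun i ρ => ∑ j ∈ J, ‖c j i‖ * ρ ^ j
  have hAcont : ∀ i, Continuous (A i) := fun i => by
    simp only [A]; fun_prop
  have hBcont : ∀ i, Continuous (B i) := fun i => by
    simp only [B]; fun_prop
  have hA0 : ∀ i, A i 0 = ‖c 0 i‖ := by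
    intro i
    simp only [A]
    rw [Finset.sum_eq_single_of_mem 0 h0I]
    · simp
    · intro j _ hj; simp [hj]
  have hB0 : ∀ i, B i 0 = 0 := by
    intro i
    simp only [B]
    apply Finset.sum_eq_zero
    intro j hj
    have : j ≠ 0 := by rintro rfl; exact h0J hj
    simp [this]
  let Z : ι → Set ℝ := fun i => {ρ | 0 ≤ ρ ∧ A i ρ = B i ρ}
  have hZclosed : ∀ i, IsClosed (Z i) := fun i =>
    (isClosed_le continuous_const continuous_id).inter (isClosed_eq (hAcont i) (hBcont i))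
  have hZbdd : ∀ i, BddBelow (Z i) := fun i => ⟨0, fun ρ hρ => hρ.1⟩
  let ρ : ι → ℝ := fun i => sInf (Z i)
  -- for fixed `δ`, eventually `A i δ < B i δ`
  have hAB : ∀ δ : ℝ, 0 < δ → ∀ᶠ i in U, A i δ < B i δ := by
    intro δ hδ
    have h1 : Tendsto (fun i => A i δ) U (𝓝 (∑ j ∈ I, ‖c' j‖ * δ ^ j)) :=
      tendsto_finsetSum _ fun j _ => ((hc j).norm).mul_const _
    have h2 : Tendsto (fun i => B i δ) U (𝓝 (∑ j ∈ J, ‖c' j‖ * δ ^ j)) :=
      tendsto_finsetSum _ fun j _ => ((hc j).norm).mul_const _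
    have h3 : ∑ j ∈ I, ‖c' j‖ * δ ^ j = 0 := by
      apply Finset.sum_eq_zero
      intro j hj
      rw [hlt j (hIlt j hj)]; simp
    have h4 : 0 < ∑ j ∈ J, ‖c' j‖ * δ ^ j := by
      apply Finset.sum_pos' (fun j _ => by positivity)
      exact ⟨K, hKJ, by positivity⟩
    rw [h3] at h1
    have h5 := h2.sub h1
    rw [sub_zero] at h5
    filter_upwards [h5.eventually (lt_mem_nhds h4)] with i hi
    linarith
  have hmem : ∀ δ : ℝ, 0 < δ → ∀ᶠ i in U, ∃ r ∈ Z i, r ≤ δ := by
    intro δ hδ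
    filter_upwards [hAB δ hδ, h0] with i hi h0i
    have hcont : ContinuousOn (fun r => A i r - B i r) (Set.Icc 0 δ) :=
      ((hAcont i).sub (hBcont i)).continuousOn
    have hivt := intermediate_value_Icc' hδ.le hcont
    have hz : (0 : ℝ) ∈ Set.Icc (A i δ - B i δ) (A i 0 - B i 0) := by
      constructor
      · linarith
      · rw [hA0, hB0, sub_zero]; exact norm_nonneg _
    obtain ⟨r, hr, hr2⟩ := hivt hz
    exact ⟨r, ⟨hr.1, by have : A i r - B i r = 0 := hr2; linarith⟩, hr.2⟩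
  have hρZ : ∀ᶠ i in U, ρ i ∈ Z i := by
    filter_upwards [hmem 1 one_pos] with i hi
    obtain ⟨r, hr, -⟩ := hi
    exact (hZclosed i).csInf_mem ⟨r, hr⟩ (hZbdd i)
  have hρpos : ∀ᶠ i in U, 0 < ρ i := by
    filter_upwards [hρZ, h0] with i hi h0i
    rcases hi.1.lt_or_eq with h1 | h1
    · exact h1
    · exfalso
      have h2 := hi.2
      rw [← h1, hA0, hB0] at h2
      exact h0i (norm_eq_zero.1 h2)
  have hρ0 : Tendsto ρ U (𝓝 0) := by
    rw [Metric.tendsto_nhds]
    intro ε hε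
    filter_upwards [hmem (ε / 2) (by positivity), hρpos] with i hi hpos
    obtain ⟨r, hr, hr2⟩ := hi
    have h1 : ρ i ≤ r := csInf_le (hZbdd i) hr
    rw [Real.dist_eq, sub_zero, abs_of_pos hpos]
    linarith
  -- normalisation
  let M : ι → ℝ := fun i => B i (ρ i)
  obtain ⟨κ, hκ, hcK⟩ : ∃ κ : ℝ, 0 < κ ∧ ∀ᶠ i in U, κ ≤ ‖c K i‖ := by
    refine ⟨‖c' K‖ / 2, by positivity, ?_⟩
    have h1 := (hc K).norm
    have h2 : ‖c' K‖ / 2 < ‖c' K‖ := by
      have := norm_pos_iff.2 hK
      linarith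
    filter_upwards [h1.eventually (lt_mem_nhds h2)] with i hi
    exact hi.le
  have hMK : ∀ᶠ i in U, κ * ρ i ^ K ≤ M i := by
    filter_upwards [hcK, hρpos] with i hi hpos
    calc κ * ρ i ^ K ≤ ‖c K i‖ * ρ i ^ K := by gcongr
      _ ≤ M i := Finset.single_le_sum (f := fun j => ‖c j i‖ * ρ i ^ j)
          (fun j _ => by positivity) hKJ
  have hMpos : ∀ᶠ i in U, 0 < M i := by
    filter_upwards [hMK, hρpos] with i hi hpos
    exact lt_of_lt_of_le (by positivity) hi
  have hMA : ∀ᶠ i in U, A i (ρ i) = M i := by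
    filter_upwards [hρZ] with i hi
    exact hi.2
  let qc : ℕ → ι → ℂ := fun j i => ((ρ i ^ j / M i : ℝ) : ℂ) * c j i
  have hqnorm : ∀ j, ∀ᶠ i in U, ‖qc j i‖ = ‖c j i‖ * ρ i ^ j / M i := by
    intro j
    filter_upwards [hρpos, hMpos] with i h1 h2
    simp only [qc]
    rw [norm_mul, Complex.norm_real, Real.norm_eq_abs, abs_of_nonneg (by positivity)]
    ring
  have hqle : ∀ j ∈ R, ∀ᶠ i in U, ‖qc j i‖ ≤ 1 := by
    intro j hj
    filter_upwards [hqnorm j, hMA, hMpos, hρpos] with i h1 h2 h3 h4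
    rw [h1, div_le_one h3]
    by_cases hPj : P j
    · have : j ∈ J := by rw [hJ, Finset.mem_filter]; exact ⟨hj, hPj⟩
      exact Finset.single_le_sum (f := fun j => ‖c j i‖ * ρ i ^ j) (fun j _ => by positivity) this
    · have : j ∈ I := by rw [hI, Finset.mem_filter]; exact ⟨hj, hPj⟩
      rw [← h2]
      exact Finset.single_le_sum (f := fun j => ‖c j i‖ * ρ i ^ j) (fun j _ => by positivity) this
  have hq0 : ∀ j, K < j → Tendsto (qc j) U (𝓝 0) := by
    intro j hj
    rw [tendsto_zero_iff_norm_tendsto_zero]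
    have h1 : Tendsto (fun i => ‖c j i‖ * ρ i ^ (j - K) / κ) U (𝓝 0) := by
      have h2 : Tendsto (fun i => ‖c j i‖ * ρ i ^ (j - K) / κ) U
          (𝓝 (‖c' j‖ * 0 ^ (j - K) / κ)) :=
        (((hc j).norm).mul (hρ0.pow _)).div_const _
      rwa [zero_pow (by omega), mul_zero, zero_div] at h2
    refine squeeze_zero' (Eventually.of_forall fun i => norm_nonneg _) ?_ h1
    filter_upwards [hqnorm j, hMK, hMpos, hρpos] with i h2 h3 h4 h5
    rw [h2, div_le_div_iff₀ h4 hκ]
    have h6 : ρ i ^ j = ρ i ^ (j - K) * ρ i ^ K := by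
      rw [← pow_add]; congr 1; omega
    rw [h6]
    calc ‖c j i‖ * (ρ i ^ (j - K) * ρ i ^ K) * κ
        = (‖c j i‖ * ρ i ^ (j - K)) * (κ * ρ i ^ K) := by ring
      _ ≤ (‖c j i‖ * ρ i ^ (j - K)) * M i := by gcongr
  obtain ⟨q, hq, hqz⟩ : ∃ q : ℕ → ℂ, (∀ j, Tendsto (qc j) U (𝓝 (q j))) ∧ ∀ j, K < j → q j = 0 := by
    have : ∀ j, ∃ l, Tendsto (qc j) U (𝓝 l) ∧ (K < j → l = 0) := by
      intro j
      by_cases hj : K < j
      · exact ⟨0, hq0 j hj, fun _ => rfl⟩
      · obtain ⟨l, hl⟩ := exists_limit U (hqle j (by rw [hR, Finset.mem_range]; omega))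
        exact ⟨l, hl, fun h => absurd h hj⟩
    choose q hq using this
    exact ⟨q, fun j => (hq j).1, fun j => (hq j).2⟩
  have hsumJ : ∑ j ∈ J, ‖q j‖ = 1 := by
    have h1 : Tendsto (fun i => ∑ j ∈ J, ‖qc j i‖) U (𝓝 (∑ j ∈ J, ‖q j‖)) :=
      tendsto_finsetSum _ fun j _ => (hq j).norm
    have h2 : Tendsto (fun i => ∑ j ∈ J, ‖qc j i‖) U (𝓝 1) := by
      refine tendsto_const_nhds.congr' ?_
      have h3 : ∀ᶠ i in U, ∀ j ∈ J, ‖qc j i‖ = ‖c j i‖ * ρ i ^ j / M i := by
        rw [eventually_all_finset]; exact fun j _ => hqnorm j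
      filter_upwards [h3, hMpos] with i h4 h5
      rw [Finset.sum_congr rfl h4, ← Finset.sum_div]
      exact (div_self h5.ne').symm
    exact tendsto_nhds_unique h1 h2
  have hsumI : ∑ j ∈ I, ‖q j‖ = 1 := by
    have h1 : Tendsto (fun i => ∑ j ∈ I, ‖qc j i‖) U (𝓝 (∑ j ∈ I, ‖q j‖)) :=
      tendsto_finsetSum _ fun j _ => (hq j).norm
    have h2 : Tendsto (fun i => ∑ j ∈ I, ‖qc j i‖) U (𝓝 1) := by
      refine tendsto_const_nhds.congr' ?_
      have h3 : ∀ᶠ i in U, ∀ j ∈ I, ‖qc j i‖ = ‖c j i‖ * ρ i ^ j / M i := by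
        rw [eventually_all_finset]; exact fun j _ => hqnorm j
      filter_upwards [h3, hMpos, hMA] with i h4 h5 h6
      rw [Finset.sum_congr rfl h4, ← Finset.sum_div]
      change 1 = A i (ρ i) / M i
      rw [h6]
      exact (div_self h5.ne').symm
    exact tendsto_nhds_unique h1 h2
  obtain ⟨j, hjJ, hj0⟩ : ∃ j ∈ J, q j ≠ 0 := by
    by_contra hcon
    push Not at hcon
    rw [Finset.sum_eq_zero (fun j hj => by rw [hcon j hj, norm_zero])] at hsumJ
    exact zero_ne_one hsumJ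
  obtain ⟨k, hkI, hk0⟩ : ∃ j ∈ I, q j ≠ 0 := by
    by_contra hcon
    push Not at hcon
    rw [Finset.sum_eq_zero (fun j hj => by rw [hcon j hj, norm_zero])] at hsumI
    exact zero_ne_one hsumI
  -- the square root
  let W : ι → ℝ := fun i => M i ^ 2 + ∑ j ∈ Finset.range (2 * K + 1), |h j i| * ρ i ^ j
  have hWpos : ∀ᶠ i in U, 0 < W i := by
    filter_upwards [hMpos, hρpos] with i h1 h2
    positivity
  have hWM : ∀ᶠ i in U, M i ^ 2 ≤ W i := by
    filter_upwards [hρpos] with i h2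
    have : 0 ≤ ∑ j ∈ Finset.range (2 * K + 1), |h j i| * ρ i ^ j :=
      Finset.sum_nonneg fun j _ => by positivity
    simp only [W]; linarith
  let hr : ℕ → ι → ℝ := fun j i => (1 / W i) * (ρ i ^ j * h j i)
  let sc : ι → ℝ := fun i => M i ^ 2 / W i
  have hrabs : ∀ j, ∀ᶠ i in U, |hr j i| = |h j i| * ρ i ^ j / W i := by
    intro j
    filter_upwards [hρpos, hWpos] with i h1 h2
    simp only [hr]
    rw [abs_mul, abs_mul, abs_of_pos (by positivity : 0 < 1 / W i),
      abs_of_pos (by positivity : 0 < ρ i ^ j)]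
    ring
  have hrle : ∀ j, j ∈ Finset.range (2 * K + 1) → ∀ᶠ i in U, ‖hr j i‖ ≤ 1 := by
    intro j hj
    filter_upwards [hrabs j, hWpos, hρpos] with i h1 h2 h3
    rw [Real.norm_eq_abs, h1, div_le_one h2]
    have h4 := Finset.single_le_sum (f := fun j => |h j i| * ρ i ^ j)
      (fun j _ => by positivity) hj
    simp only [W]
    have : 0 ≤ M i ^ 2 := sq_nonneg _
    linarith
  have hr0 : ∀ j, 2 * K < j → Tendsto (hr j) U (𝓝 0) := by
    intro j hj
    rw [tendsto_zero_iff_norm_tendsto_zero]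
    have h1 : Tendsto (fun i => |h j i| * ρ i ^ (j - 2 * K) / κ ^ 2) U (𝓝 0) := by
      have h2 : Tendsto (fun i => |h j i| * ρ i ^ (j - 2 * K) / κ ^ 2) U
          (𝓝 (|h' j| * 0 ^ (j - 2 * K) / κ ^ 2)) :=
        (((hh j).abs).mul (hρ0.pow _)).div_const _
      rwa [zero_pow (by omega), mul_zero, zero_div] at h2
    refine squeeze_zero' (Eventually.of_forall fun i => norm_nonneg _) ?_ h1
    filter_upwards [hrabs j, hMK, hWM, hWpos, hρpos] with i h2 h3 h4 h5 h6
    rw [Real.norm_eq_abs, h2, div_le_div_iff₀ h5 (by positivity)]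
    have h7 : ρ i ^ j = ρ i ^ (j - 2 * K) * (ρ i ^ K) ^ 2 := by
      rw [← pow_mul, ← pow_add]; congr 1; omega
    rw [h7]
    calc |h j i| * (ρ i ^ (j - 2 * K) * (ρ i ^ K) ^ 2) * κ ^ 2
        = (|h j i| * ρ i ^ (j - 2 * K)) * (κ * ρ i ^ K) ^ 2 := by ring
      _ ≤ (|h j i| * ρ i ^ (j - 2 * K)) * M i ^ 2 := by gcongr
      _ ≤ (|h j i| * ρ i ^ (j - 2 * K)) * W i := by gcongr
  obtain ⟨r, hrt, hrz⟩ : ∃ r : ℕ → ℝ, (∀ j, Tendsto (hr j) U (𝓝 (r j))) ∧
      ∀ j, 2 * K < j → r j = 0 := by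
    have : ∀ j, ∃ l, Tendsto (hr j) U (𝓝 l) ∧ (2 * K < j → l = 0) := by
      intro j
      by_cases hj : 2 * K < j
      · exact ⟨0, hr0 j hj, fun _ => rfl⟩
      · obtain ⟨l, hl⟩ := exists_limit U (hrle j (by rw [Finset.mem_range]; omega))
        exact ⟨l, hl, fun h => absurd h hj⟩
    choose q hq using this
    exact ⟨q, fun j => (hq j).1, fun j => (hq j).2⟩
  obtain ⟨s, hs⟩ : ∃ s, Tendsto sc U (𝓝 s) := by
    apply exists_limit U
    filter_upwards [hWM, hWpos] with i h1 h2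
    simp only [sc]
    rw [Real.norm_eq_abs, abs_of_nonneg (by positivity), div_le_one h2]
    exact h1
  have hsr : s + ∑ j ∈ Finset.range (2 * K + 1), |r j| = 1 := by
    have h1 : Tendsto (fun i => sc i + ∑ j ∈ Finset.range (2 * K + 1), |hr j i|) U
        (𝓝 (s + ∑ j ∈ Finset.range (2 * K + 1), |r j|)) :=
      hs.add (tendsto_finsetSum _ fun j _ => (hrt j).abs)
    have h2 : Tendsto (fun i => sc i + ∑ j ∈ Finset.range (2 * K + 1), |hr j i|) U (𝓝 1) := by
      refine tendsto_const_nhds.congr' ?_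
      have h3 : ∀ᶠ i in U, ∀ j ∈ Finset.range (2 * K + 1), |hr j i| = |h j i| * ρ i ^ j / W i := by
        rw [eventually_all_finset]; exact fun j _ => hrabs j
      filter_upwards [h3, hWpos] with i h4 h5
      rw [Finset.sum_congr rfl h4, ← Finset.sum_div, ← add_div]
      exact (div_self h5.ne').symm
    exact tendsto_nhds_unique h1 h2
  -- the scaled identity
  have hqre : CT U (fun i => PowerSeries.mk fun n => (qc n i).re)
      (PowerSeries.mk fun n => (q n).re) := by
    intro n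
    simp only [PowerSeries.coeff_mk]
    exact (Complex.continuous_re.tendsto _).comp (hq n)
  have hqim : CT U (fun i => PowerSeries.mk fun n => (qc n i).im)
      (PowerSeries.mk fun n => (q n).im) := by
    intro n
    simp only [PowerSeries.coeff_mk]
    exact (Complex.continuous_im.tendsto _).comp (hq n)
  have hrCT : CT U (fun i => PowerSeries.mk fun n => hr n i) (PowerSeries.mk fun n => r n) := by
    intro n
    simp only [PowerSeries.coeff_mk]
    exact hrt n
  have hscaled : ∀ᶠ i in U, PowerSeries.C (sc i ^ 2) *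
      ((PowerSeries.mk fun n => (qc n i).re) ^ 4 + (PowerSeries.mk fun n => (qc n i).im) ^ 4) =
      (PowerSeries.mk fun n => hr n i) ^ 2 := by
    filter_upwards [hMpos, hWpos] with i h1 h2
    have e1 : (PowerSeries.mk fun n => hr n i) =
        PowerSeries.C (1 / W i) * PowerSeries.rescale (ρ i) (PowerSeries.mk fun n => h n i) := by
      ext n
      simp only [PowerSeries.coeff_C_mul, PowerSeries.coeff_rescale, PowerSeries.coeff_mk, hr]
    have e2 : (PowerSeries.mk fun n => (qc n i).re) =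
        PowerSeries.C (1 / M i) *
          PowerSeries.rescale (ρ i) (PowerSeries.mk fun n => (c n i).re) := by
      ext n
      simp only [PowerSeries.coeff_C_mul, PowerSeries.coeff_rescale, PowerSeries.coeff_mk, qc,
        Complex.re_ofReal_mul]
      ring
    have e3 : (PowerSeries.mk fun n => (qc n i).im) =
        PowerSeries.C (1 / M i) *
          PowerSeries.rescale (ρ i) (PowerSeries.mk fun n => (c n i).im) := by
      ext n
      simp only [PowerSeries.coeff_C_mul, PowerSeries.coeff_rescale, PowerSeries.coeff_mk, qc,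
        Complex.im_ofReal_mul]
      ring
    rw [e1, e2, e3]
    have e4 := congrArg (PowerSeries.rescale (ρ i)) (hid i)
    rw [map_add, map_pow, map_pow, map_pow] at e4
    have e5 : sc i ^ 2 * (1 / M i) ^ 4 = (1 / W i) ^ 2 := by
      simp only [sc]
      field_simp
    calc PowerSeries.C (sc i ^ 2) *
        ((PowerSeries.C (1 / M i) *
          PowerSeries.rescale (ρ i) (PowerSeries.mk fun n => (c n i).re)) ^ 4 +
        (PowerSeries.C (1 / M i) *
          PowerSeries.rescale (ρ i) (PowerSeries.mk fun n => (c n i).im)) ^ 4)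
        = PowerSeries.C (sc i ^ 2) * (PowerSeries.C (1 / M i)) ^ 4 *
          (PowerSeries.rescale (ρ i) (PowerSeries.mk fun n => (c n i).re) ^ 4 +
          PowerSeries.rescale (ρ i) (PowerSeries.mk fun n => (c n i).im) ^ 4) := by ring
      _ = PowerSeries.C (sc i ^ 2 * (1 / M i) ^ 4) *
          (PowerSeries.rescale (ρ i) (PowerSeries.mk fun n => h n i) ^ 2) := by
          rw [← e4, map_mul, map_pow (PowerSeries.C (R := ℝ)) (1 / M i) 4]
      _ = _ := by rw [e5, map_pow]; ring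
  have hlim : PowerSeries.C (s ^ 2) *
      ((PowerSeries.mk fun n => (q n).re) ^ 4 + (PowerSeries.mk fun n => (q n).im) ^ 4) =
      (PowerSeries.mk fun n => r n) ^ 2 := by
    refine CT.unique (U := (U : Filter ι)) ?_ (hrCT.pow 2)
    exact ((CT.Cmul (hs.pow 2) ((hqre.pow 4).add (hqim.pow 4))).congr hscaled)
  have hs0 : s ≠ 0 := by
    rintro rfl
    have h1 : (PowerSeries.mk fun n => r n) ^ 2 = 0 := by rw [← hlim]; simp
    have h2 : (PowerSeries.mk fun n => r n) = 0 := pow_eq_zero_iff (n := 2) (by norm_num) |>.1 h1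
    have h3 : ∀ n, r n = 0 := fun n => by
      have := congrArg (PowerSeries.coeff n) h2
      simpa using this
    rw [Finset.sum_eq_zero (fun j _ => by rw [h3 j, abs_zero])] at hsr
    norm_num at hsr
  -- pass to polynomials
  have hpoly : ∀ (N : ℕ) (u : ℕ → ℝ), (∀ j, N < j → u j = 0) →
      ((PowerSeries.trunc (N + 1) (PowerSeries.mk u) : Polynomial ℝ) : PowerSeries ℝ) =
        PowerSeries.mk u := by
    intro N u hu
    ext n
    rw [Polynomial.coeff_coe, PowerSeries.coeff_trunc, PowerSeries.coeff_mk]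
    split_ifs with h1
    · rfl
    · exact (hu n (by omega)).symm
  set QA := PowerSeries.trunc (K + 1) (PowerSeries.mk fun n => (q n).re) with hQA
  set QB := PowerSeries.trunc (K + 1) (PowerSeries.mk fun n => (q n).im) with hQB
  set QR := PowerSeries.trunc (2 * K + 1) (PowerSeries.mk fun n => r n) with hQR
  have eA : (QA : PowerSeries ℝ) = PowerSeries.mk fun n => (q n).re :=
    hpoly K _ (fun j hj => by rw [hqz j hj]; rfl)
  have eB : (QB : PowerSeries ℝ) = PowerSeries.mk fun n => (q n).im :=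
    hpoly K _ (fun j hj => by rw [hqz j hj]; rfl)
  have eR : (QR : PowerSeries ℝ) = PowerSeries.mk fun n => r n :=
    hpoly (2 * K) _ (fun j hj => hrz j hj)
  have hpid : QR ^ 2 = Polynomial.C (s ^ 2) * (QA ^ 4 + QB ^ 4) := by
    apply Polynomial.coe_injective
    push_cast
    rw [eA, eB, eR, ← hlim]
  have hpar := parallel_of_sq hs0 hpid
  have cA : ∀ n, QA.coeff n = (q n).re := fun n => by
    rw [← Polynomial.coeff_coe, eA, PowerSeries.coeff_mk]
  have cB : ∀ n, QB.coeff n = (q n).im := fun n => by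
    rw [← Polynomial.coeff_coe, eB, PowerSeries.coeff_mk]
  have hdir : dir (q k) = dir (q j) := by
    apply dir_eq_of_parallel hk0 hj0
    have := hpar k j
    rw [cA, cB, cA, cB] at this
    linarith
  -- conclusion: `k` belongs to `J`
  have hdq : ∀ n, ∀ᶠ i in U, dir (qc n i) = dir (c n i) := by
    intro n
    filter_upwards [hρpos, hMpos] with i h1 h2
    exact dir_smul (by positivity) _
  have hk1 : Tendsto (fun i => dir (c k i)) U (𝓝 (dir (q k))) :=
    ((continuousAt_dir hk0).tendsto.comp (hq k)).congr' (hdq k)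
  have hj1 : Tendsto (fun i => dir (c j i)) U (𝓝 (dir (q j))) :=
    ((continuousAt_dir hj0).tendsto.comp (hq j)).congr' (hdq j)
  have hj2 : P j := (Finset.mem_filter.1 hjJ).2
  have hj3 : dir (q j) = dir (c' K) := tendsto_nhds_unique hj1 hj2
  have hk2 : P k := by
    change Tendsto (fun i => dir (c k i)) U (𝓝 (dir (c' K)))
    rw [← hj3, ← hdir]
    exact hk1
  exact (Finset.mem_filter.1 hkI).2 hk2

end Pool.Agent.R851.Nash
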