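import Mathlib
import Pool.Agent.R851.NashLim

set_option autoImplicit false

open Filter Topology
open scoped ContDiff

namespace Pool.Agent.R851.Nash

/-- the derivative in the real direction -/
noncomputable def dx (u : ℂ → ℝ) : ℂ → ℝ := fun z => fderiv ℝ u z 1

lemma contDiff_dx {u : ℂ → ℝ} (hu : ContDiff ℝ ∞ u) : ContDiff ℝ ∞ (dx u) := by
  unfold dx
  exact (hu.fderiv_right (m := ∞) (by simp)).clm_apply contDiff_const

lemma contDiff_dx_iter {u : ℂ → ℝ} (hu : ContDiff ℝ ∞ u) (n : ℕ) : ContDiff ℝ ∞ (dx^[n] u) := by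
  induction n with
  | zero => exact hu
  | succ n ih => rw [Function.iterate_succ_apply']; exact contDiff_dx ih

lemma dx_add {a b : ℂ → ℝ} (ha : ContDiff ℝ ∞ a) (hb : ContDiff ℝ ∞ b) (z : ℂ) :
    dx (fun z => a z + b z) z = dx a z + dx b z := by
  unfold dx
  rw [fderiv_fun_add (ha.differentiable (by simp)).differentiableAt
    (hb.differentiable (by simp)).differentiableAt]
  rfl

lemma dx_zero {a : ℂ → ℝ} {x : ℂ} (h : a =ᶠ[𝓝 x] fun _ => 0) : dx a x = 0 := by
  unfold dx
  rw [h.fderiv_eq]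
  simp

lemma hasDerivAt_line {u : ℂ → ℝ} (hu : ContDiff ℝ ∞ u) (z : ℂ) (t : ℝ) :
    HasDerivAt (fun t : ℝ => u (z + t)) (dx u (z + t)) t := by
  have h1 : HasFDerivAt u (fderiv ℝ u (z + t)) (z + t) :=
    (hu.differentiable (by simp)).differentiableAt.hasFDerivAt
  have h2 : HasDerivAt (fun t : ℝ => z + (t : ℂ)) 1 t := by
    have := (Complex.ofRealCLM.hasDerivAt (x := t)).const_add z
    simpa using this
  exact h1.comp_hasDerivAt t h2

lemma iteratedDeriv_line {u : ℂ → ℝ} (hu : ContDiff ℝ ∞ u) (z : ℂ) (n : ℕ) (t : ℝ) :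
    iteratedDeriv n (fun t : ℝ => u (z + t)) t = (dx^[n] u) (z + t) := by
  induction n generalizing t with
  | zero => simp
  | succ n ih =>
    rw [iteratedDeriv_succ, Function.iterate_succ_apply']
    have : iteratedDeriv n (fun t : ℝ => u (z + t)) = fun t : ℝ => (dx^[n] u) (z + t) := by
      funext t; exact ih t
    rw [this]
    exact (hasDerivAt_line (contDiff_dx_iter hu n) z t).deriv

/-- the Taylor series in the real direction -/
noncomputable def tay (u : ℂ → ℝ) (z : ℂ) : PowerSeries ℝ :=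
  PowerSeries.mk fun n => (dx^[n] u) z / (n.factorial : ℝ)

lemma contDiff_line {u : ℂ → ℝ} (hu : ContDiff ℝ ∞ u) (z : ℂ) :
    ContDiff ℝ ∞ (fun t : ℝ => u (z + t)) := by
  apply hu.comp
  exact contDiff_const.add Complex.ofRealCLM.contDiff

lemma tay_mul {u v : ℂ → ℝ} (hu : ContDiff ℝ ∞ u) (hv : ContDiff ℝ ∞ v) (z : ℂ) :
    tay (fun z => u z * v z) z = tay u z * tay v z := by
  ext n
  rw [PowerSeries.coeff_mul]
  simp only [tay, PowerSeries.coeff_mk]
  have h1 : (dx^[n] (fun z => u z * v z)) z =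
      iteratedDeriv n (fun t : ℝ => u (z + t) * v (z + t)) 0 := by
    have := iteratedDeriv_line (hu.mul hv) z n 0
    simp only [Complex.ofReal_zero, add_zero] at this
    exact this.symm
  rw [h1]
  have hcu := (contDiff_line hu z).contDiffAt (x := (0 : ℝ)) |>.of_le
    (show ((n : ℕ∞) : WithTop ℕ∞) ≤ ∞ by exact_mod_cast le_top)
  have hcv := (contDiff_line hv z).contDiffAt (x := (0 : ℝ)) |>.of_le
    (show ((n : ℕ∞) : WithTop ℕ∞) ≤ ∞ by exact_mod_cast le_top)
  have h2 := iteratedDeriv_fun_mul (n := n) hcu hcv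
  rw [h2, Finset.Nat.sum_antidiagonal_eq_sum_range_succ
    (fun i j => (dx^[i] u) z / (i.factorial : ℝ) * ((dx^[j] v) z / (j.factorial : ℝ))),
    Finset.sum_div]
  apply Finset.sum_congr rfl
  intro i hi
  rw [Finset.mem_range] at hi
  have hi' : i ≤ n := by omega
  rw [iteratedDeriv_line hu, iteratedDeriv_line hv]
  simp only [Complex.ofReal_zero, add_zero]
  rw [Nat.cast_choose ℝ hi']
  have f1 : (n.factorial : ℝ) ≠ 0 := by positivity
  have f2 : (i.factorial : ℝ) ≠ 0 := by positivity
  have f3 : ((n - i).factorial : ℝ) ≠ 0 := by positivity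
  field_simp

lemma tay_add {u v : ℂ → ℝ} (hu : ContDiff ℝ ∞ u) (hv : ContDiff ℝ ∞ v) (z : ℂ) :
    tay (fun z => u z + v z) z = tay u z + tay v z := by
  have key : ∀ n, dx^[n] (fun z => u z + v z) = fun z => (dx^[n] u) z + (dx^[n] v) z := by
    intro n
    induction n with
    | zero => rfl
    | succ n ih =>
      rw [Function.iterate_succ_apply', ih]
      funext z
      rw [Function.iterate_succ_apply', Function.iterate_succ_apply',
        dx_add (contDiff_dx_iter hu n) (contDiff_dx_iter hv n)]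
  ext n
  simp only [tay, PowerSeries.coeff_mk, map_add]
  rw [key n, add_div]

lemma tay_pow4 {u : ℂ → ℝ} (hu : ContDiff ℝ ∞ u) (z : ℂ) :
    tay (fun z => u z ^ 4) z = tay u z ^ 4 := by
  have h2 : ContDiff ℝ ∞ (fun z => u z * u z) := hu.mul hu
  have e : (fun z => u z ^ 4) = fun z => (u z * u z) * (u z * u z) := by
    funext z; ring
  rw [e, tay_mul h2 h2, tay_mul hu hu]
  ring

/-- There is no smooth map `(u, v)` of the plane, close to the identity on the unit circle, not
flat in the real direction, such that `sqrt (u ^ 4 + v ^ 4)` is smooth. -/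
theorem no_smooth_root {u v w : ℂ → ℝ} (hu : ContDiff ℝ ∞ u) (hv : ContDiff ℝ ∞ v)
    (hw : ContDiff ℝ ∞ w) (hid : ∀ z, w z ^ 2 = u z ^ 4 + v z ^ 4)
    (hflat : ∀ z, ∃ n, (dx^[n] u) z ≠ 0)
    (hclose : ∀ z : ℂ, ‖z‖ = 1 → ‖((u z : ℂ) + v z * Complex.I) - z‖ < 1 / 5) : False := by
  -- Taylor coefficients
  let c : ℕ → ℂ → ℂ := fun n z =>
    (((dx^[n] u) z / (n.factorial : ℝ) : ℝ) : ℂ) +
      (((dx^[n] v) z / (n.factorial : ℝ) : ℝ) : ℂ) * Complex.I
  let h : ℕ → ℂ → ℝ := fun n z => (dx^[n] w) z / (n.factorial : ℝ)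
  let G : ℂ → ℂ := fun z => (u z : ℂ) + v z * Complex.I
  have hcre : ∀ n z, (c n z).re = (dx^[n] u) z / (n.factorial : ℝ) := fun n z => by simp [c]
  have hcim : ∀ n z, (c n z).im = (dx^[n] v) z / (n.factorial : ℝ) := fun n z => by simp [c]
  have hc0 : ∀ z, c 0 z = G z := fun z => by simp [c, G]
  have hccont : ∀ n, Continuous (c n) := by
    intro n
    have h1 := (contDiff_dx_iter hu n).continuous
    have h2 := (contDiff_dx_iter hv n).continuous
    simp only [c]
    fun_prop
  have hhcont : ∀ n, Continuous (h n) := by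
    intro n
    have h1 := (contDiff_dx_iter hw n).continuous
    simp only [h]
    fun_prop
  have hGcont : Continuous G := by
    have h1 := hu.continuous
    have h2 := hv.continuous
    simp only [G]
    fun_prop
  have hseries : ∀ z, (PowerSeries.mk fun n => h n z) ^ 2 =
      (PowerSeries.mk fun n => (c n z).re) ^ 4 + (PowerSeries.mk fun n => (c n z).im) ^ 4 := by
    intro z
    have e1 : (PowerSeries.mk fun n => h n z) = tay w z := rfl
    have e2 : (PowerSeries.mk fun n => (c n z).re) = tay u z := by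
      simp only [hcre]; rfl
    have e3 : (PowerSeries.mk fun n => (c n z).im) = tay v z := by
      simp only [hcim]; rfl
    rw [e1, e2, e3, ← tay_pow4 hu, ← tay_pow4 hv, pow_two, ← tay_mul hw hw,
      ← tay_add (hu.pow 4) (hv.pow 4)]
    congr 1
    funext z
    rw [← hid z]; ring
  have hex : ∀ z, ∃ n, c n z ≠ 0 := by
    intro z
    obtain ⟨n, hn⟩ := hflat z
    refine ⟨n, fun h0 => hn ?_⟩
    have h1 := congrArg Complex.re h0
    rw [hcre, Complex.zero_re] at h1
    have f1 : (n.factorial : ℝ) ≠ 0 := by positivity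
    exact (div_eq_zero_iff.1 h1).resolve_right f1
  -- the limit
  set A : Set ℂ := {z | G z ≠ 0} with hA
  have hlim : ∀ z, ∃ y, Tendsto (fun z => dir (G z)) (𝓝[A] z) (𝓝 y) := by
    intro z
    classical
    let K := Nat.find (hex z)
    have hK : c K z ≠ 0 := Nat.find_spec (hex z)
    have hlt : ∀ j < K, c j z = 0 := fun j hj => by
      have := Nat.find_min (hex z) hj
      simpa using this
    refine ⟨dir (c K z), ?_⟩
    rw [tendsto_iff_ultrafilter]
    intro U hU
    have hUz : (U : Filter ℂ) ≤ 𝓝 z := hU.trans nhdsWithin_le_nhds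
    have hUA : ∀ᶠ x in (U : Filter ℂ), x ∈ A := hU self_mem_nhdsWithin
    have := limit_dir U c h (fun n => c n z) (fun n => h n z) hseries
      (fun n => ((hccont n).tendsto z).mono_left hUz)
      (fun n => ((hhcont n).tendsto z).mono_left hUz) K hK hlt (by
        filter_upwards [hUA] with x hx
        rw [hc0]; exact hx)
    simpa only [hc0] using this
  have hdense : Dense A := by
    intro z
    rw [mem_closure_iff_nhdsWithin_neBot, ← mem_closure_iff_nhdsWithin_neBot]
    by_contra hcon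
    have h1 : (closure A)ᶜ ∈ 𝓝 z := isClosed_closure.isOpen_compl.mem_nhds hcon
    have h2 : ∀ᶠ x in 𝓝 z, u x = 0 := by
      filter_upwards [h1] with x hx
      have h3 : x ∉ A := fun h => hx (subset_closure h)
      have h4 : G x = 0 := by
        by_contra h5; exact h3 h5
      have := congrArg Complex.re h4
      simpa [G] using this
    have h3 : ∀ n, ∀ᶠ x in 𝓝 z, (dx^[n] u) x = 0 := by
      intro n
      induction n with
      | zero => exact h2
      | succ n ih =>
        rw [Function.iterate_succ_apply']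
        filter_upwards [ih.eventually_nhds] with x hx
        exact dx_zero hx
    obtain ⟨n, hn⟩ := hflat z
    exact hn (h3 n).self_of_nhds
  let V : ℂ → ℂ := extendFrom A (fun z => dir (G z))
  have hVcont : Continuous V := continuous_extendFrom hdense hlim
  have hVlim : ∀ z, Tendsto (fun z => dir (G z)) (𝓝[A] z) (𝓝 (V z)) := fun z =>
    tendsto_extendFrom (hlim z)
  have hVnorm : ∀ z, ‖V z‖ = 1 := by
    intro z
    have : (𝓝[A] z).NeBot := mem_closure_iff_nhdsWithin_neBot.1 (hdense z)
    refine tendsto_nhds_unique (hVlim z).norm ?_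
    refine tendsto_const_nhds.congr' ?_
    filter_upwards [self_mem_nhdsWithin] with x hx
    exact (norm_dir hx).symm
  have hVA : ∀ z, G z ≠ 0 → V z = dir (G z) := by
    intro z hz
    have : (𝓝[A] z).NeBot := mem_closure_iff_nhdsWithin_neBot.1 (hdense z)
    refine tendsto_nhds_unique (hVlim z) ?_
    exact ((continuousAt_dir hz).comp hGcont.continuousAt).tendsto.mono_left nhdsWithin_le_nhds
  -- the logarithm
  obtain ⟨f, hfc, hf⟩ : ∃ f : ℂ → ℂ, ContinuousOn f Set.univ ∧
      Set.EqOn (Complex.exp ∘ f) V Set.univ := by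
    apply Complex.exists_continuousOn_eqOn_exp_comp
    · have : ContractibleSpace (Set.univ : Set ℂ) :=
        (convex_univ (𝕜 := ℝ) (E := ℂ)).contractibleSpace ⟨0, trivial⟩
      exact (inferInstance : SimplyConnectedSpace (Set.univ : Set ℂ))
    · exact isOpen_univ
    · exact hVcont.continuousOn
    · rintro ⟨z, -, hz⟩
      have := hVnorm z
      rw [hz, norm_zero] at this
      exact zero_ne_one this
  rw [continuousOn_univ] at hfc
  let k : ℝ → ℝ := fun θ => (f (Complex.exp (θ * Complex.I))).im - 2 * θ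
  have hkcont : Continuous k := by
    simp only [k]
    have h1 : Continuous fun θ : ℝ => Complex.exp (θ * Complex.I) := by fun_prop
    exact (Complex.continuous_im.comp (hfc.comp h1)).sub (continuous_const.mul continuous_id)
  have hkcos : ∀ θ, 0 < Real.cos (k θ) := by
    intro θ
    set z := Complex.exp (θ * Complex.I) with hz
    have hz1 : ‖z‖ = 1 := Complex.norm_exp_ofReal_mul_I θ
    have hz0 : z ≠ 0 := Complex.exp_ne_zero _
    have hcl := hclose z hz1
    set ζ := G z / z with hζ
    have hζ1 : ‖ζ - 1‖ < 1 / 5 := by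
      have : ζ - 1 = (G z - z) / z := by
        rw [hζ]; field_simp
      rw [this, norm_div, hz1, div_one]
      exact hcl
    have hζ0 : ζ ≠ 0 := by
      intro h0
      rw [h0] at hζ1
      norm_num at hζ1
    have hG0 : G z ≠ 0 := by
      intro h0
      apply hζ0
      rw [hζ, h0, zero_div]
    have hGz : G z = z * ζ := by rw [hζ]; field_simp
    have hV1 : V z = z ^ 2 * (ζ ^ 2 / (‖ζ‖ : ℂ) ^ 2) := by
      rw [hVA z hG0, hGz]
      unfold dir
      rw [norm_mul, hz1, one_mul, mul_pow, mul_div_assoc]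
    have hz2 : z ^ 2 = Complex.exp ((2 * θ : ℝ) * Complex.I) := by
      rw [hz, ← Complex.exp_nat_mul]
      congr 1
      push_cast
      ring
    have hexp : Complex.exp (f z - (2 * θ : ℝ) * Complex.I) = ζ ^ 2 / (‖ζ‖ : ℂ) ^ 2 := by
      rw [Complex.exp_sub, ← hz2]
      have : Complex.exp (f z) = V z := hf (Set.mem_univ z)
      rw [this, hV1]
      field_simp
    have hre : 0 < (ζ ^ 2 / (‖ζ‖ : ℂ) ^ 2).re := by
      have h1 : (ζ ^ 2 / (‖ζ‖ : ℂ) ^ 2).re = (ζ ^ 2).re / ‖ζ‖ ^ 2 := by
        rw [← Complex.ofReal_pow, Complex.div_ofReal_re]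
      rw [h1]
      apply div_pos _ (by positivity)
      set η := ζ - 1 with hη
      have h2 : ζ ^ 2 = 1 + (2 * η + η ^ 2) := by rw [hη]; ring
      have h3 : ‖2 * η + η ^ 2‖ ≤ 2 * (1 / 5) + (1 / 5) ^ 2 := by
        calc ‖2 * η + η ^ 2‖ ≤ ‖2 * η‖ + ‖η ^ 2‖ := norm_add_le _ _
          _ = 2 * ‖η‖ + ‖η‖ ^ 2 := by rw [norm_mul, norm_pow]; norm_num
          _ ≤ 2 * (1 / 5) + (1 / 5) ^ 2 := by gcongr
      have h4 := Complex.abs_re_le_norm (2 * η + η ^ 2)
      rw [h2, Complex.add_re, Complex.one_re]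
      have h5 := (abs_le.1 (h4.trans h3)).1
      norm_num at h5 ⊢
      linarith
    rw [← hexp, Complex.exp_re] at hre
    have him : (f z - (2 * θ : ℝ) * Complex.I).im = k θ := by
      simp [k, hz]
    rw [him] at hre
    exact (pos_iff_pos_of_mul_pos hre).1 (Real.exp_pos _)
  have hk2 : k (2 * Real.pi) = k 0 - 4 * Real.pi := by
    simp only [k]
    have h1 : Complex.exp (((2 * Real.pi : ℝ) : ℂ) * Complex.I) = 1 := by
      push_cast
      exact Complex.exp_two_pi_mul_I
    have h2 : Complex.exp (((0 : ℝ) : ℂ) * Complex.I) = 1 := by simp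
    rw [h1, h2]
    ring
  have hpi := Real.pi_pos
  obtain ⟨θ, -, hθ⟩ := intermediate_value_Icc' (show (0 : ℝ) ≤ 2 * Real.pi by positivity)
    hkcont.continuousOn (show k 0 - Real.pi ∈ Set.Icc (k (2 * Real.pi)) (k 0) by
      rw [hk2]; constructor <;> linarith)
  have h1 := hkcos θ
  have h2 := hkcos 0
  rw [hθ, Real.cos_sub_pi] at h1
  linarith

end Pool.Agent.R851.Nash
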