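import Mathlib

/-!
# Generic generators of a finite-dimensional algebra

Let `A` be a finite-dimensional commutative `ℂ`-algebra generated by `n` elements.  Then there are
`a₁, …, a_n ∈ A` such that every element of `A` is a polynomial of degree `≤ 2 k - 1` in the `a_i`,
where the polynomials of degree `< k` in the `a_i` are linearly independent.
-/

set_option autoImplicit false

open MvPolynomial Filter Topology

namespace Pool.Agent.R851.PolyDeg

variable {n : ℕ} {A : Type} [CommRing A] [Algebra ℂ A]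

/-- the polynomials of degree `≤ d` in the elements `a i` -/
noncomputable def W (a : Fin n → A) (d : ℕ) : Submodule ℂ A :=
  (restrictTotalDegree (Fin n) ℂ d).map (aeval a).toLinearMap

lemma mem_W {a : Fin n → A} {d : ℕ} {x : A} :
    x ∈ W a d ↔ ∃ p : MvPolynomial (Fin n) ℂ, p.totalDegree ≤ d ∧ aeval a p = x := by
  simp only [W, Submodule.mem_map, mem_restrictTotalDegree]
  rfl

lemma aeval_mem_W (a : Fin n → A) {d : ℕ} {p : MvPolynomial (Fin n) ℂ} (h : p.totalDegree ≤ d) :
    aeval a p ∈ W a d := mem_W.2 ⟨p, h, rfl⟩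

lemma W_mono (a : Fin n → A) {d e : ℕ} (h : d ≤ e) : W a d ≤ W a e := by
  intro x hx
  obtain ⟨p, hp, rfl⟩ := mem_W.1 hx
  exact aeval_mem_W a (hp.trans h)

/-! ### Perturbation -/

/-- the polynomial `p (a + T b)` in `T` -/
noncomputable def pert (a b : Fin n → A) (p : MvPolynomial (Fin n) ℂ) : Polynomial A :=
  aeval (fun i => Polynomial.C (a i) + Polynomial.X * Polynomial.C (b i)) p

lemma eval_pert (a b : Fin n → A) (p : MvPolynomial (Fin n) ℂ) (c : ℂ) :
    (pert a b p).eval (algebraMap ℂ A c) = aeval (fun i => a i + c • b i) p := by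
  unfold pert
  induction p using MvPolynomial.induction_on with
  | C r => simp
  | add p q hp hq => rw [map_add, Polynomial.eval_add, hp, hq, map_add]
  | mul_X p i hp =>
    rw [map_mul, map_mul, Polynomial.eval_mul, hp, aeval_X, aeval_X, Polynomial.eval_add,
      Polynomial.eval_mul, Polynomial.eval_X, Polynomial.eval_C, Polynomial.eval_C,
      Algebra.smul_def]

lemma coeff_zero_pert (a b : Fin n → A) (p : MvPolynomial (Fin n) ℂ) :
    (pert a b p).coeff 0 = aeval a p := by
  have := eval_pert a b p 0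
  simpa [Polynomial.coeff_zero_eq_eval_zero] using this

lemma coeff_one_pert (a b : Fin n → A) (p : MvPolynomial (Fin n) ℂ) :
    (pert a b p).coeff 1 = ∑ i, b i * aeval a (pderiv i p) := by
  induction p using MvPolynomial.induction_on with
  | C r => simp [pert, Polynomial.algebraMap_apply]
  | add p q hp hq =>
    have : pert a b (p + q) = pert a b p + pert a b q := by simp [pert]
    rw [this, Polynomial.coeff_add, hp, hq, ← Finset.sum_add_distrib]
    refine Finset.sum_congr rfl fun i _ => ?_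
    simp [mul_add]
  | mul_X p i hp =>
    have h1 : pert a b (p * X i) =
        pert a b p * (Polynomial.C (a i) + Polynomial.X * Polynomial.C (b i)) := by
      simp [pert]
    have h2 : (pert a b (p * X i)).coeff 1 = (pert a b p).coeff 1 * a i +
        (pert a b p).coeff 0 * b i := by
      rw [h1, mul_add, Polynomial.coeff_add, Polynomial.coeff_mul_C, ← mul_assoc,
        Polynomial.coeff_mul_C]
      congr 2
      exact Polynomial.coeff_mul_X _ 0
    rw [h2, hp, coeff_zero_pert, Finset.sum_mul]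
    have h3 : ∀ j, b j * aeval a (pderiv j (p * X i)) =
        b j * aeval a (pderiv j p) * a i + (if i = j then aeval a p * b j else 0) := by
      intro j
      rw [pderiv_mul, map_add, map_mul, map_mul, aeval_X]
      by_cases hij : i = j
      · subst hij
        rw [pderiv_X_self, map_one, if_pos rfl]; ring
      · rw [pderiv_X_of_ne hij, map_zero, if_neg hij]; ring
    rw [Finset.sum_congr rfl fun j _ => h3 j, Finset.sum_add_distrib]
    simp

lemma continuous_eval {N : ℕ} (e : A ≃ₗ[ℂ] (Fin N → ℂ)) (Q : Polynomial A) :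
    Continuous fun c : ℂ => e (Q.eval (algebraMap ℂ A c)) := by
  have : (fun c : ℂ => e (Q.eval (algebraMap ℂ A c))) = fun c : ℂ =>
      ∑ i ∈ Finset.range (Q.natDegree + 1), c ^ i • e (Q.coeff i) := by
    funext c
    rw [Polynomial.eval_eq_sum_range, map_sum]
    refine Finset.sum_congr rfl fun i _ => ?_
    rw [← map_pow, mul_comm, ← Algebra.smul_def, map_smul]
  rw [this]
  fun_prop

variable [FiniteDimensional ℂ A]

lemma eventually_li {ι : Type} [Finite ι] (Q : ι → Polynomial A)
    (h : LinearIndependent ℂ fun j => (Q j).eval 0) :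
    ∀ᶠ c in 𝓝 (0 : ℂ), LinearIndependent ℂ fun j => (Q j).eval (algebraMap ℂ A c) := by
  set e := (Module.finBasis ℂ A).equivFun with he
  have hcont : Continuous fun c : ℂ => fun j => e ((Q j).eval (algebraMap ℂ A c)) :=
    continuous_pi fun j => continuous_eval e (Q j)
  have h0 : LinearIndependent ℂ fun j => e ((Q j).eval (algebraMap ℂ A 0)) := by
    rw [map_zero]
    exact h.map' e.toLinearMap (LinearMap.ker_eq_bot.2 e.injective)
  have hev := hcont.continuousAt.eventually
    ((isOpen_setOfPred_linearIndependent (𝕜 := ℂ) (E := Fin (Module.finrank ℂ A) → ℂ)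
      (ι := ι)).mem_nhds h0)
  filter_upwards [hev] with c hc
  exact LinearIndependent.of_comp e.toLinearMap hc

lemma finrank_le_of_li {r d : ℕ} {a : Fin n → A} {v : Fin r → A} (hv : ∀ j, v j ∈ W a d)
    (h : LinearIndependent ℂ v) : r ≤ Module.finrank ℂ (W a d) := by
  have h1 : LinearIndependent ℂ fun j => (⟨v j, hv j⟩ : W a d) :=
    LinearIndependent.of_comp (W a d).subtype h
  simpa using h1.fintype_card_le_finrank

lemma exists_basis (a : Fin n → A) (d : ℕ) :
    ∃ p : Fin (Module.finrank ℂ (W a d)) → MvPolynomial (Fin n) ℂ,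
      (∀ j, (p j).totalDegree ≤ d) ∧ LinearIndependent ℂ (fun j => aeval a (p j)) ∧
      Submodule.span ℂ (Set.range fun j => aeval a (p j)) = W a d := by
  set B := Module.finBasis ℂ (W a d)
  have hB : ∀ j, ∃ p : MvPolynomial (Fin n) ℂ, p.totalDegree ≤ d ∧ aeval a p = (B j : A) :=
    fun j => mem_W.1 (B j).2
  choose p hp hpB using hB
  have h1 : (fun j => aeval a (p j)) = fun j => ((B j : W a d) : A) := funext hpB
  refine ⟨p, hp, ?_, ?_⟩
  · rw [h1]
    exact B.linearIndependent.map' (W a d).subtype (Submodule.ker_subtype _)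
  · rw [h1]
    have h2 : (Set.range fun j => ((B j : W a d) : A)) = (W a d).subtype '' Set.range B := by
      rw [← Set.range_comp]; rfl
    rw [h2, Submodule.span_image, B.span_eq, Submodule.map_top, Submodule.range_subtype]

lemma eventually_finrank_le (a b : Fin n → A) (d : ℕ) :
    ∀ᶠ c in 𝓝 (0 : ℂ), Module.finrank ℂ (W a d) ≤
      Module.finrank ℂ (W (fun i => a i + c • b i) d) := by
  obtain ⟨p, hp, hli, -⟩ := exists_basis a d
  have h0 : LinearIndependent ℂ fun j => (pert a b (p j)).eval 0 := by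
    have : (fun j => (pert a b (p j)).eval 0) = fun j => aeval a (p j) := by
      funext j
      rw [← Polynomial.coeff_zero_eq_eval_zero, coeff_zero_pert]
    rw [this]; exact hli
  filter_upwards [eventually_li _ h0] with c hc
  refine finrank_le_of_li (fun j => ?_) hc
  rw [eval_pert]
  exact aeval_mem_W _ (hp j)

/-- the tangent condition at a tuple of maximal rank -/
lemma tangent {a b : Fin n → A} {d : ℕ}
    (hmax : ∀ᶠ c in 𝓝 (0 : ℂ), Module.finrank ℂ (W (fun i => a i + c • b i) d) ≤
      Module.finrank ℂ (W a d)) {p : MvPolynomial (Fin n) ℂ} (hp : p.totalDegree ≤ d)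
    (hpa : aeval a p = 0) : ∑ i, b i * aeval a (pderiv i p) ∈ W a d := by
  by_contra hw
  obtain ⟨q, hq, hli, hspan⟩ := exists_basis a d
  set P := pert a b p with hP
  have hP0 : P.coeff 0 = 0 := by rw [hP, coeff_zero_pert, hpa]
  have hdiv : P.divX * Polynomial.X = P := by
    have := Polynomial.divX_mul_X_add P
    rwa [hP0, map_zero, add_zero] at this
  set Q : Fin (Module.finrank ℂ (W a d) + 1) → Polynomial A :=
    Fin.cons P.divX fun j => pert a b (q j) with hQ
  have h0 : LinearIndependent ℂ fun j => (Q j).eval 0 := by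
    have : (fun j => (Q j).eval 0) = Fin.cons (∑ i, b i * aeval a (pderiv i p))
        fun j => aeval a (q j) := by
      funext j
      refine Fin.cases ?_ (fun j => ?_) j
      · simp only [hQ, Fin.cons_zero]
        rw [← Polynomial.coeff_zero_eq_eval_zero, Polynomial.coeff_divX, ← coeff_one_pert]
      · simp only [hQ, Fin.cons_succ]
        rw [← Polynomial.coeff_zero_eq_eval_zero, coeff_zero_pert]
    rw [this, linearIndependent_finCons]
    refine ⟨hli, ?_⟩
    rw [hspan]; exact hw
  have hev := ((eventually_li _ h0).and hmax).filter_mono (nhdsWithin_le_nhds (s := {0}ᶜ))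
  obtain ⟨c, ⟨hc1, hc2⟩, hc0⟩ := (hev.and self_mem_nhdsWithin).exists
  have hc0' : c ≠ 0 := hc0
  have hmem : ∀ j, (Q j).eval (algebraMap ℂ A c) ∈ W (fun i => a i + c • b i) d := by
    intro j
    refine Fin.cases ?_ (fun j => ?_) j
    · simp only [hQ, Fin.cons_zero]
      have h1 : P.divX.eval (algebraMap ℂ A c) = c⁻¹ • P.eval (algebraMap ℂ A c) := by
        conv_rhs => rw [← hdiv]
        rw [Polynomial.eval_mul, Polynomial.eval_X, mul_comm, ← Algebra.smul_def, smul_smul,
          inv_mul_cancel₀ hc0', one_smul]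
      rw [h1, hP, eval_pert]
      exact Submodule.smul_mem _ _ (aeval_mem_W _ hp)
    · simp only [hQ, Fin.cons_succ]
      rw [eval_pert]
      exact aeval_mem_W _ (hq j)
  have := finrank_le_of_li hmem hc1
  omega

/-! ### A tuple of maximal rank -/

/-- There is a tuple `a` which generates `A` and satisfies the tangent condition in every degree. -/
lemma exists_star (x : Fin n → A) (hx : Function.Surjective (aeval x : MvPolynomial (Fin n) ℂ →ₐ[ℂ] A)) :
    ∃ a : Fin n → A, (∃ M, W a M = ⊤) ∧ ∀ (d : ℕ) (p : MvPolynomial (Fin n) ℂ),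
      p.totalDegree ≤ d → aeval a p = 0 → ∀ b : Fin n → A,
      ∑ i, b i * aeval a (pderiv i p) ∈ W a d := by
  obtain ⟨M, hM⟩ : ∃ M, W x M = ⊤ := by
    set B := Module.finBasis ℂ A
    have hB : ∀ j, ∃ p : MvPolynomial (Fin n) ℂ, aeval x p = B j := fun j => hx (B j)
    choose p hp using hB
    refine ⟨Finset.univ.sup fun j => (p j).totalDegree, ?_⟩
    rw [eq_top_iff, ← B.span_eq, Submodule.span_le]
    rintro _ ⟨j, rfl⟩
    rw [← hp j]
    exact aeval_mem_W x (Finset.le_sup (f := fun j => (p j).totalDegree) (Finset.mem_univ j))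
  set G : Set (Fin n → A) := {a | W a M = ⊤} with hG
  set Fr : (Fin n → A) → ℕ := fun a => ∑ d ∈ Finset.range M, Module.finrank ℂ (W a d) with hFr
  have hbdd : BddAbove (Fr '' G) := by
    refine ⟨M * Module.finrank ℂ A, ?_⟩
    rintro _ ⟨a, -, rfl⟩
    calc Fr a ≤ ∑ d ∈ Finset.range M, Module.finrank ℂ A :=
          Finset.sum_le_sum fun d _ => Submodule.finrank_le _
      _ = M * Module.finrank ℂ A := by simp
  have hne : (Fr '' G).Nonempty := ⟨Fr x, x, hM, rfl⟩
  obtain ⟨a, haG, ha⟩ := Nat.sSup_mem hne hbdd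
  have hmaxF : ∀ a' ∈ G, Fr a' ≤ Fr a := fun a' ha' => by
    rw [ha]; exact le_csSup hbdd ⟨a', ha', rfl⟩
  refine ⟨a, ⟨M, haG⟩, fun d p hp hpa b => ?_⟩
  by_cases hd : M ≤ d
  · have : W a d = ⊤ := by
      rw [eq_top_iff, ← show W a M = ⊤ from haG]
      exact W_mono a hd
    rw [this]; trivial
  push Not at hd
  refine tangent ?_ hp hpa
  have h1 : ∀ᶠ c in 𝓝 (0 : ℂ), ∀ d' ∈ Finset.range (M + 1), Module.finrank ℂ (W a d') ≤
      Module.finrank ℂ (W (fun i => a i + c • b i) d') := by
    rw [Filter.eventually_all_finset]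
    intro d' _
    exact eventually_finrank_le a b d'
  filter_upwards [h1] with c hc
  have hcG : (fun i => a i + c • b i) ∈ G := by
    change W _ M = ⊤
    have h2 := hc M (by simp)
    rw [show W a M = ⊤ from haG, finrank_top] at h2
    exact Submodule.eq_top_of_finrank_eq (le_antisymm (Submodule.finrank_le _) h2)
  by_contra hlt
  push Not at hlt
  have h3 : Fr a < Fr (fun i => a i + c • b i) :=
    Finset.sum_lt_sum (fun d' hd' => hc d' (by
      rw [Finset.mem_range] at hd' ⊢; omega)) ⟨d, Finset.mem_range.2 hd, hlt⟩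
  exact absurd (hmaxF _ hcG) (not_le.2 h3)

/-! ### The degree argument -/

omit [FiniteDimensional ℂ A] in
lemma totalDegree_le_iff {p : MvPolynomial (Fin n) ℂ} {d : ℕ} :
    p.totalDegree ≤ d ↔ ∀ m : Fin n →₀ ℕ, coeff m p ≠ 0 → m.degree ≤ d := by
  unfold totalDegree
  rw [Finset.sup_le_iff]
  constructor
  · intro h m hm
    exact h m (mem_support_iff.2 hm)
  · intro h m hm
    exact h m (mem_support_iff.1 hm)

lemma totalDegree_pderiv {p : MvPolynomial (Fin n) ℂ} {d : ℕ} (i : Fin n)
    (h : p.totalDegree ≤ d + 1) : (pderiv i p).totalDegree ≤ d := by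
  rw [totalDegree_le_iff] at h ⊢
  intro m hm
  rw [coeff_pderiv] at hm
  have := h _ (left_ne_zero_of_mul hm)
  rw [map_add, Finsupp.degree_single] at this
  omega

lemma pderiv_eq_zero {p : MvPolynomial (Fin n) ℂ} (i : Fin n)
    (h : p.totalDegree ≤ 0) : pderiv i p = 0 := by
  rw [totalDegree_eq_zero_iff_eq_C.1 (Nat.le_zero.1 h), pderiv_C]

/-- the values at `a` of the polynomials of degree `< e` -/
noncomputable def Wlt (a : Fin n → A) : ℕ → Submodule ℂ A
  | 0 => ⊥
  | e + 1 => W a e

/-- the property used in the descent -/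
def Prp (a : Fin n → A) (g : MvPolynomial (Fin n) ℂ) (d s : ℕ) : Prop :=
  g.totalDegree ≤ d ∧ ∀ (e : ℕ), 2 * s ≤ e → ∀ q : MvPolynomial (Fin n) ℂ, q.totalDegree ≤ e →
    aeval a (q * g) ∈ Wlt a (d + e)

omit [FiniteDimensional ℂ A] in
lemma step {a : Fin n → A} (hstar : ∀ (d : ℕ) (p : MvPolynomial (Fin n) ℂ),
      p.totalDegree ≤ d → aeval a p = 0 → ∀ b : Fin n → A,
      ∑ i, b i * aeval a (pderiv i p) ∈ W a d) {g : MvPolynomial (Fin n) ℂ} {d s : ℕ}
    (hg : Prp a g (d + 1) s) (i : Fin n) : Prp a (pderiv i g) d (s + 1) := by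
  refine ⟨totalDegree_pderiv i hg.1, fun e he q hq => ?_⟩
  obtain ⟨e', rfl⟩ : ∃ e', e = e' + 2 := ⟨e - 2, by omega⟩
  have he' : 2 * s ≤ e' := by omega
  -- reduction to monomials
  rw [q.as_sum, Finset.sum_mul, map_sum]
  refine Submodule.sum_mem _ fun θ hθ => ?_
  have hθd : θ.degree ≤ e' + 2 := totalDegree_le_iff.1 hq θ (mem_support_iff.1 hθ)
  have hmon : (monomial θ (coeff θ q) : MvPolynomial (Fin n) ℂ) =
      coeff θ q • monomial θ (1 : ℂ) := by rw [smul_monomial, smul_eq_mul, mul_one]
  rw [hmon, smul_mul_assoc, map_smul]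
  refine Submodule.smul_mem _ _ ?_
  have hW : Wlt a (d + (e' + 2)) = W a (d + e' + 1) := rfl
  rw [hW]
  rcases Nat.lt_or_ge θ.degree (e' + 2) with hlt | hge
  · apply aeval_mem_W
    have h1 := totalDegree_mul (monomial θ (1 : ℂ)) (pderiv i g)
    have h2 := totalDegree_monomial θ (one_ne_zero (α := ℂ))
    have h3 := totalDegree_pderiv i hg.1
    have h4 : (θ.sum fun _ e => e) = θ.degree := rfl
    omega
  -- `θ = single j 1 + single l 1 + δ`
  have hdec : ∀ (θ : Fin n →₀ ℕ) (m : ℕ), θ.degree = m + 1 →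
      ∃ (j : Fin n) (δ : Fin n →₀ ℕ), θ = Finsupp.single j 1 + δ ∧ δ.degree = m := by
    intro θ m hm
    have hne : θ ≠ 0 := by rintro rfl; simp at hm
    obtain ⟨j, hj⟩ := Finsupp.ne_iff.1 hne
    have hj1 : Finsupp.single j 1 ≤ θ := by
      rw [Finsupp.single_le_iff]
      have : θ j ≠ 0 := hj
      omega
    refine ⟨j, θ - Finsupp.single j 1, (add_tsub_cancel_of_le hj1).symm, ?_⟩
    have h1 : Finsupp.single j 1 + (θ - Finsupp.single j 1) = θ := add_tsub_cancel_of_le hj1
    have h2 := congrArg Finsupp.degree h1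
    rw [map_add, Finsupp.degree_single] at h2
    omega
  obtain ⟨j, θ', hθ', hθd'⟩ := hdec θ (e' + 1) (by omega)
  obtain ⟨l, δ, hδ, hδd⟩ := hdec θ' e' hθd'
  set mδ : MvPolynomial (Fin n) ℂ := monomial δ 1 with hmδ
  have hθm : (monomial θ (1 : ℂ) : MvPolynomial (Fin n) ℂ) = X j * X l * mδ := by
    rw [hθ', hδ, hmδ, X, X, monomial_mul, monomial_mul]
    simp [add_assoc]
  have hmδd : mδ.totalDegree ≤ e' := by
    rw [hmδ, totalDegree_monomial δ (one_ne_zero (α := ℂ))]
    exact hδd.le
  have hXX : ((X j * X l : MvPolynomial (Fin n) ℂ)).totalDegree ≤ 2 := by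
    refine (totalDegree_mul _ _).trans ?_
    rw [totalDegree_X, totalDegree_X]
  -- the element `mδ * g`
  have h1 : aeval a (mδ * g) ∈ Wlt a (d + 1 + e') := hg.2 e' he' mδ hmδd
  have hW1 : Wlt a (d + 1 + e') = W a (d + e') := by
    rw [show d + 1 + e' = (d + e') + 1 by ring]; rfl
  rw [hW1] at h1
  obtain ⟨r, hr, hra⟩ := mem_W.1 h1
  set g' := mδ * g - r with hg'
  have hg'0 : aeval a g' = 0 := by rw [hg', map_sub, hra, sub_self]
  have hg'd : g'.totalDegree ≤ d + e' + 1 := by
    refine (totalDegree_sub _ _).trans (max_le ?_ (by omega))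
    refine (totalDegree_mul _ _).trans ?_
    have := hg.1
    omega
  have h2 := hstar (d + e' + 1) g' hg'd hg'0
    (Pi.single i (aeval a (X j * X l : MvPolynomial (Fin n) ℂ)))
  have h3 : ∑ i', (Pi.single i (aeval a (X j * X l : MvPolynomial (Fin n) ℂ)) : Fin n → A) i' *
      aeval a (pderiv i' g') =
      aeval a (X j * X l * pderiv i g') := by
    rw [Finset.sum_eq_single i]
    · rw [Pi.single_eq_same, ← map_mul]
    · intro i' _ hne
      rw [Pi.single_eq_of_ne hne, zero_mul]
    · intro h; exact absurd (Finset.mem_univ i) h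
  rw [h3] at h2
  -- the correction by `r`
  have h4 : aeval a (X j * X l * pderiv i r) ∈ W a (d + e' + 1) := by
    rcases Nat.eq_zero_or_pos (d + e') with h0 | h0
    · rw [pderiv_eq_zero (p := r) i (by omega), mul_zero, map_zero]
      exact Submodule.zero_mem _
    · apply aeval_mem_W
      refine (totalDegree_mul _ _).trans ?_
      have := totalDegree_pderiv (d := d + e' - 1) i (p := r) (by omega)
      omega
  -- the correction by the derivative of `mδ`
  have h5 : aeval a (X j * X l * pderiv i mδ * g) ∈ W a (d + e' + 1) := by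
    have h6 : (X j * X l * pderiv i mδ : MvPolynomial (Fin n) ℂ).totalDegree ≤ e' + 1 := by
      rcases Nat.eq_zero_or_pos e' with h0 | h0
      · rw [pderiv_eq_zero (p := mδ) i (by omega), mul_zero, totalDegree_zero]
        omega
      · refine (totalDegree_mul _ _).trans ?_
        have := totalDegree_pderiv (d := e' - 1) i (p := mδ) (by omega)
        omega
    have h7 := hg.2 (e' + 1) (by omega) _ h6
    rw [show d + 1 + (e' + 1) = (d + e' + 1) + 1 by ring] at h7
    exact h7
  have h8 : (monomial θ (1 : ℂ) * pderiv i g : MvPolynomial (Fin n) ℂ) =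
      X j * X l * pderiv i g' + X j * X l * pderiv i r - X j * X l * pderiv i mδ * g := by
    rw [hθm, hg', map_sub, pderiv_mul]
    ring
  rw [h8, map_sub, map_add]
  exact Submodule.sub_mem _ (Submodule.add_mem _ h2 h4) h5

omit [FiniteDimensional ℂ A] in
lemma descent {a : Fin n → A} (hstar : ∀ (d : ℕ) (p : MvPolynomial (Fin n) ℂ),
      p.totalDegree ≤ d → aeval a p = 0 → ∀ b : Fin n → A,
      ∑ i, b i * aeval a (pderiv i p) ∈ W a d) :
    ∀ (d : ℕ) (g : MvPolynomial (Fin n) ℂ) (s : ℕ) (β : Fin n →₀ ℕ), Prp a g d s →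
      coeff β g ≠ 0 → β.degree = d → ∃ c : ℂ, c ≠ 0 ∧ Prp a (C c) 0 (s + d) := by
  intro d
  induction d with
  | zero =>
    intro g s β hg hβ hβd
    have h1 := totalDegree_eq_zero_iff_eq_C.1 (Nat.le_zero.1 hg.1)
    have h2 : β = 0 := by
      rwa [Finsupp.degree_eq_zero_iff] at hβd
    subst h2
    exact ⟨coeff 0 g, hβ, by rw [← h1]; exact hg⟩
  | succ d ih =>
    intro g s β hg hβ hβd
    have hne : β ≠ 0 := by rintro rfl; simp at hβd
    obtain ⟨j, hj⟩ := Finsupp.ne_iff.1 hne
    have hj0 : β j ≠ 0 := hj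
    have hj1 : Finsupp.single j 1 ≤ β := by
      rw [Finsupp.single_le_iff]; omega
    have h1 : β - Finsupp.single j 1 + Finsupp.single j 1 = β := tsub_add_cancel_of_le hj1
    have h2 := congrArg Finsupp.degree h1
    rw [map_add, Finsupp.degree_single] at h2
    obtain ⟨c, hc, hc2⟩ := ih (pderiv j g) (s + 1) (β - Finsupp.single j 1)
      (step hstar hg j) (by
        rw [coeff_pderiv, h1]
        exact mul_ne_zero hβ (Nat.cast_add_one_ne_zero _)) (by omega)
    refine ⟨c, hc, ?_⟩
    rwa [show s + (d + 1) = s + 1 + d by ring]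

omit [FiniteDimensional ℂ A] in
lemma W_eq_top {a : Fin n → A} {k : ℕ} (hk : 1 ≤ k) {c : ℂ} (hc : c ≠ 0)
    (h : Prp a (C c) 0 k) (ha : Function.Surjective (aeval a : MvPolynomial (Fin n) ℂ →ₐ[ℂ] A)) :
    W a (2 * k - 1) = ⊤ := by
  have key : ∀ e : ℕ, ∀ q : MvPolynomial (Fin n) ℂ, q.totalDegree ≤ e →
      aeval a q ∈ W a (2 * k - 1) := by
    intro e
    induction e with
    | zero =>
      intro q hq
      exact aeval_mem_W a (by omega)
    | succ e ih =>
      intro q hq
      rcases Nat.lt_or_ge e (2 * k - 1) with h1 | h1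
      · exact aeval_mem_W a (by omega)
      · have h2 := h.2 (e + 1) (by omega) q hq
        rw [zero_add] at h2
        have h3 : aeval a (q * C c) ∈ W a e := h2
        have h4 : aeval a q ∈ W a e := by
          have h5 : aeval a q = c⁻¹ • aeval a (q * C c) := by
            rw [mul_comm, ← smul_eq_C_mul, map_smul, smul_smul, inv_mul_cancel₀ hc, one_smul]
          rw [h5]
          exact Submodule.smul_mem _ _ h3
        obtain ⟨q', hq', hq'a⟩ := mem_W.1 h4
        rw [← hq'a]
        exact ih q' hq'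
  rw [eq_top_iff]
  intro x _
  obtain ⟨q, rfl⟩ := ha x
  exact key _ q le_rfl

lemma dim_bound (hn : 1 ≤ n) {a : Fin n → A} {k : ℕ} (hk : 1 ≤ k)
    (h : ∀ p : MvPolynomial (Fin n) ℂ, p.totalDegree < k → aeval a p = 0 → p = 0) :
    k ^ n ≤ n ^ n * Module.finrank ℂ A := by
  set m := (k - 1) / n with hm
  have hmn : m * n ≤ k - 1 := Nat.div_mul_le_self _ _
  have hkm : k ≤ n * (m + 1) := by
    have := Nat.lt_div_mul_add (a := k - 1) (b := n) (by omega)
    rw [← hm] at this
    have h2 : n * (m + 1) = m * n + n := by ring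
    omega
  set v : (Fin n → Fin (m + 1)) → MvPolynomial (Fin n) ℂ := fun α =>
    monomial (Finsupp.equivFunOnFinite.symm fun i => (α i : ℕ)) 1 with hv
  have hinj : Function.Injective fun α : Fin n → Fin (m + 1) =>
      (Finsupp.equivFunOnFinite.symm fun i => (α i : ℕ) : Fin n →₀ ℕ) := by
    intro α β hαβ
    have := Finsupp.equivFunOnFinite.symm.injective hαβ
    funext i
    exact Fin.ext (congrFun this i)
  have hli : LinearIndependent ℂ v := by
    have h1 := ((basisMonomials (Fin n) ℂ).linearIndependent).comp _ hinj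
    have h2 : v = (basisMonomials (Fin n) ℂ) ∘ fun α : Fin n → Fin (m + 1) =>
      (Finsupp.equivFunOnFinite.symm fun i => (α i : ℕ) : Fin n →₀ ℕ) := by
      funext α
      simp [hv]
    rw [h2]; exact h1
  have hdeg : ∀ α, (v α).totalDegree ≤ k - 1 := by
    intro α
    rw [hv, totalDegree_monomial _ (one_ne_zero (α := ℂ))]
    refine le_trans ?_ hmn
    have : ((Finsupp.equivFunOnFinite.symm fun i => (α i : ℕ) : Fin n →₀ ℕ).sum fun _ e => e) =
        ∑ i, (α i : ℕ) := by
      rw [Finsupp.sum_fintype _ _ (fun _ => rfl)]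
      rfl
    rw [this]
    calc ∑ i, (α i : ℕ) ≤ ∑ _i : Fin n, m := Finset.sum_le_sum fun i _ => by
          have := (α i).2; omega
      _ = m * n := by simp [mul_comm]
  have hli2 : LinearIndependent ℂ fun α => aeval a (v α) := by
    refine hli.map (f := (aeval a : MvPolynomial (Fin n) ℂ →ₐ[ℂ] A).toLinearMap) ?_
    rw [Submodule.disjoint_def]
    intro p hp hp0
    have hp1 : p ∈ restrictTotalDegree (Fin n) ℂ (k - 1) := by
      refine Submodule.span_le.2 ?_ hp
      rintro _ ⟨α, rfl⟩
      exact (mem_restrictTotalDegree _ _ _).2 (hdeg α)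
    rw [mem_restrictTotalDegree] at hp1
    exact h p (by omega) hp0
  have hcard := hli2.fintype_card_le_finrank
  rw [Fintype.card_fun, Fintype.card_fin, Fintype.card_fin] at hcard
  calc k ^ n ≤ (n * (m + 1)) ^ n := Nat.pow_le_pow_left hkm n
    _ = n ^ n * (m + 1) ^ n := mul_pow _ _ _
    _ ≤ n ^ n * Module.finrank ℂ A := Nat.mul_le_mul_left _ hcard

/-- **Main algebraic theorem.** A finite-dimensional algebra generated by `n` elements has `n`
elements `a i` such that every element is a polynomial of degree `≤ 2 k - 1` in the `a i`, where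
`k ^ n ≤ n ^ n dim A`. -/
theorem exists_good_tuple [Nontrivial A] (hn : 1 ≤ n) (x : Fin n → A)
    (hx : Function.Surjective (aeval x : MvPolynomial (Fin n) ℂ →ₐ[ℂ] A)) :
    ∃ (a : Fin n → A) (k : ℕ), 1 ≤ k ∧ k ^ n ≤ n ^ n * Module.finrank ℂ A ∧
      W a (2 * k - 1) = ⊤ := by
  obtain ⟨a, ⟨M, hM⟩, hstar⟩ := exists_star x hx
  have hsurj : Function.Surjective (aeval a : MvPolynomial (Fin n) ℂ →ₐ[ℂ] A) := by
    intro y
    have : y ∈ W a M := by rw [hM]; trivial
    obtain ⟨p, -, hp⟩ := mem_W.1 this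
    exact ⟨p, hp⟩
  -- a nonzero polynomial relation of minimal degree
  have hex : ∃ k, ∃ p : MvPolynomial (Fin n) ℂ, p ≠ 0 ∧ aeval a p = 0 ∧ p.totalDegree = k := by
    by_contra hcon
    push Not at hcon
    have hinj : Function.Injective (aeval a : MvPolynomial (Fin n) ℂ →ₐ[ℂ] A) := by
      rw [injective_iff_map_eq_zero]
      intro p hp
      by_contra hp0
      exact hcon _ p hp0 hp rfl
    have hfin : FiniteDimensional ℂ (MvPolynomial (Fin n) ℂ) :=
      FiniteDimensional.of_injective (aeval a : MvPolynomial (Fin n) ℂ →ₐ[ℂ] A).toLinearMap hinj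
    have : Finite (Fin n →₀ ℕ) := by
      have := (basisMonomials (Fin n) ℂ).linearIndependent.finite
      exact this
    have h0 : Function.Injective fun m : ℕ => (Finsupp.single (⟨0, hn⟩ : Fin n) m : Fin n →₀ ℕ) :=
      Finsupp.single_injective _
    exact not_injective_infinite_finite _ h0
  classical
  obtain ⟨p, hp0, hpa, hpk⟩ := Nat.find_spec hex
  set k := Nat.find hex with hk
  have hmin : ∀ q : MvPolynomial (Fin n) ℂ, q.totalDegree < k → aeval a q = 0 → q = 0 := by
    intro q hq hqa
    by_contra hq0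
    exact Nat.find_min hex hq ⟨q, hq0, hqa, rfl⟩
  have hk1 : 1 ≤ k := by
    by_contra hlt
    have h0 : p.totalDegree = 0 := by omega
    have h1 := totalDegree_eq_zero_iff_eq_C.1 h0
    rw [h1, aeval_C] at hpa
    have h2 : coeff 0 p = 0 := by
      by_contra hne
      have h3 := (algebraMap ℂ A).injective
      exact hne (h3 (by rw [hpa, map_zero]))
    rw [h2, map_zero] at h1
    exact hp0 h1
  -- a monomial of top degree
  obtain ⟨β, hβ, hβd⟩ : ∃ β : Fin n →₀ ℕ, coeff β p ≠ 0 ∧ β.degree = k := by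
    by_contra hcon
    push Not at hcon
    have : p.totalDegree ≤ k - 1 := by
      rw [totalDegree_le_iff]
      intro m hm
      have h1 := totalDegree_le_iff.1 hpk.le m hm
      have h2 := hcon m hm
      omega
    omega
  have hPrp : Prp a p k 0 := by
    refine ⟨hpk.le, fun e _ q _ => ?_⟩
    rw [map_mul, hpa, mul_zero]
    exact Submodule.zero_mem _
  obtain ⟨c, hc, hc2⟩ := descent hstar k p 0 β hPrp hβ hβd
  rw [zero_add] at hc2
  exact ⟨a, k, hk1, dim_bound hn hk1 hmin, W_eq_top hk1 hc hc2 hsurj⟩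

end Pool.Agent.R851.PolyDeg
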