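import Pool.Agent.R851.PolyDegMain

/-!
# Comparison of the two descriptions of the Milnor algebra
-/

set_option autoImplicit false

open MvPolynomial Filter Topology

namespace Pool.Agent.R851.PolyDeg

variable {n : ℕ}

/-- the homomorphism from functions to germs -/
noncomputable def toGerm (n : ℕ) : anFun n →ₐ[ℂ] Germs n := Ideal.Quotient.mkₐ ℂ (nearZero n)

lemma toGerm_surjective : Function.Surjective (toGerm n) :=
  Ideal.Quotient.mk_surjective

lemma ker_toGerm (g : anFun n) : toGerm n g = 0 ↔ g ∈ nearZero n :=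
  Ideal.Quotient.eq_zero_iff_mem

lemma comap_jac (f : (Fin n → ℂ) → ℂ) :
    (jac f).comap (toGerm n) = milnorIdeal f := by
  have h1 : jac f = (Ideal.span {g : anFun n | ∃ i : Fin n,
      (g : (Fin n → ℂ) → ℂ) = pd i f}).map (toGerm n) := by
    unfold jac
    rw [Ideal.map_span]
    congr 1
    ext g
    constructor
    · rintro ⟨i, h, rfl⟩
      exact ⟨⟨pd i f, h⟩, ⟨i, rfl⟩, rfl⟩
    · rintro ⟨g, ⟨i, hi⟩, rfl⟩
      have h : AnalyticAt ℂ (pd i f) 0 := by rw [← hi]; exact g.2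
      refine ⟨i, h, ?_⟩
      have : g = ⟨pd i f, h⟩ := Subtype.ext hi
      rw [this]
      rfl
  rw [h1, Ideal.comap_map_of_surjective _ toGerm_surjective]
  have h2 : milnorIdeal f = nearZero n ⊔
      Ideal.span {g | ∃ i : Fin n, (g : (Fin n → ℂ) → ℂ) = pd i f} := by
    unfold milnorIdeal
    have h3 : {g : anFun n | VanishNear g ∨ ∃ i : Fin n, (g : (Fin n → ℂ) → ℂ) = pd i f} =
        (nearZero n : Set (anFun n)) ∪ {g | ∃ i : Fin n, (g : (Fin n → ℂ) → ℂ) = pd i f} := rfl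
    rw [h3, Ideal.span_union, Ideal.span_eq]
  rw [h2, sup_comm]
  congr 1
  ext g
  rw [Ideal.mem_comap, Ideal.mem_bot]
  exact ker_toGerm g

/-- the two descriptions of the Milnor algebra agree -/
noncomputable def milnorEquiv (f : (Fin n → ℂ) → ℂ) :
    MilnorAlgebra f ≃ₐ[ℂ] (Germs n ⧸ jac f) :=
  (Ideal.quotientEquivAlgOfEq ℂ (show milnorIdeal f =
      RingHom.ker ((Ideal.Quotient.mkₐ ℂ (jac f)).comp (toGerm n)) by
    rw [← comap_jac]
    ext g
    rw [Ideal.mem_comap, RingHom.mem_ker]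
    exact Ideal.Quotient.eq_zero_iff_mem.symm)).trans
  (Ideal.quotientKerAlgEquivOfSurjective
    ((Ideal.Quotient.mkₐ_surjective ℂ (jac f)).comp toGerm_surjective))

lemma milnor_eq (f : (Fin n → ℂ) → ℂ) : milnor f = milnorG f :=
  (milnorEquiv f).toLinearEquiv.finrank_eq

lemma IsolatedCritical.isoCrit {f : (Fin n → ℂ) → ℂ} (hf : IsolatedCritical f) : IsoCrit f := by
  obtain ⟨h1, h2, h3, h4⟩ := hf
  exact ⟨h1, h2, h3, Module.Finite.equiv (milnorEquiv f).toLinearEquiv⟩

end Pool.Agent.R851.PolyDeg
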