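import Mathlib

/-!
# Germs of holomorphic functions, Milnor number, right equivalence
-/

set_option autoImplicit false

open MvPolynomial Filter Topology

namespace Pool.Agent.R851.PolyDeg

/-- the algebra of the functions `ℂⁿ → ℂ` which are holomorphic near `0` -/
def anFun (n : ℕ) : Subalgebra ℂ ((Fin n → ℂ) → ℂ) where
  carrier := {f | AnalyticAt ℂ f 0}
  mul_mem' := fun hf hg => AnalyticAt.mul hf hg
  add_mem' := fun hf hg => AnalyticAt.add hf hg
  algebraMap_mem' := fun _ => analyticAt_const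

/-- the partial derivative `∂f/∂x_i` -/
noncomputable def pd {n : ℕ} (i : Fin n) (f : (Fin n → ℂ) → ℂ) (x : Fin n → ℂ) : ℂ :=
  fderiv ℂ f x (Pi.single i 1)

/-- `g` vanishes in a neighbourhood of `0`, i.e. its germ at `0` is zero -/
def VanishNear {n : ℕ} (g : anFun n) : Prop :=
  ∀ᶠ x in 𝓝 (0 : Fin n → ℂ), (g : (Fin n → ℂ) → ℂ) x = 0

/-- the ideal of `anFun n` generated by the functions which vanish near `0` and the partial
derivatives of `f` -/
def milnorIdeal {n : ℕ} (f : (Fin n → ℂ) → ℂ) : Ideal (anFun n) :=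
  Ideal.span {g | VanishNear g ∨ ∃ i : Fin n, (g : (Fin n → ℂ) → ℂ) = pd i f}

/-- the algebra `𝒪 / (∂f/∂x₁, …, ∂f/∂x_n)`, where `𝒪` is the ring of germs at `0` of holomorphic
functions, i.e. the quotient of `anFun n` by the functions which vanish near `0` -/
def MilnorAlgebra {n : ℕ} (f : (Fin n → ℂ) → ℂ) : Type := anFun n ⧸ milnorIdeal f

noncomputable instance {n : ℕ} (f : (Fin n → ℂ) → ℂ) : CommRing (MilnorAlgebra f) :=
  Ideal.Quotient.commRing (milnorIdeal f)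

noncomputable instance {n : ℕ} (f : (Fin n → ℂ) → ℂ) : Algebra ℂ (MilnorAlgebra f) :=
  Ideal.Quotient.algebra ℂ

/-- the Milnor number `μ(f) = dim 𝒪 / (∂f/∂x₁, …, ∂f/∂x_n)` -/
noncomputable def milnor {n : ℕ} (f : (Fin n → ℂ) → ℂ) : ℕ :=
  Module.finrank ℂ (MilnorAlgebra f)

/-- `f` is a holomorphic germ `(ℂⁿ, 0) → (ℂ, 0)` with an isolated critical point at the origin:
the origin is critical and the Milnor number is finite -/
def IsolatedCritical {n : ℕ} (f : (Fin n → ℂ) → ℂ) : Prop :=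
  AnalyticAt ℂ f 0 ∧ f 0 = 0 ∧ (∀ i, pd i f 0 = 0) ∧ Module.Finite ℂ (MilnorAlgebra f)

/-- the germs at `0` of `f` and `g` are right equivalent: `g = f ∘ φ` near `0` for a local
biholomorphism `φ` of `(ℂⁿ, 0)`, with inverse `ψ` -/
def RightEquiv {n : ℕ} (f g : (Fin n → ℂ) → ℂ) : Prop :=
  ∃ φ ψ : (Fin n → ℂ) → (Fin n → ℂ), AnalyticAt ℂ φ 0 ∧ AnalyticAt ℂ ψ 0 ∧ φ 0 = 0 ∧ ψ 0 = 0 ∧
    (∀ᶠ x in 𝓝 0, ψ (φ x) = x) ∧ (∀ᶠ x in 𝓝 0, φ (ψ x) = x) ∧ ∀ᶠ x in 𝓝 0, g x = f (φ x)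

/-- the degrees of the polynomials whose germ at `0` is right equivalent to `f` -/
def polyDegrees {n : ℕ} (f : (Fin n → ℂ) → ℂ) : Set ℕ :=
  {d | ∃ p : MvPolynomial (Fin n) ℂ, p.totalDegree = d ∧ RightEquiv f fun x => eval x p}

/-- the analytic order `d(f)`: the least degree of a polynomial whose germ is right equivalent
to `f` -/
noncomputable def analyticOrder {n : ℕ} (f : (Fin n → ℂ) → ℂ) : ℕ := sInf (polyDegrees f)

end Pool.Agent.R851.PolyDeg
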