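import Pool.Agent.R851.PolyDegDefs

/-!
# The local ring of germs of holomorphic functions
-/

set_option autoImplicit false

open MvPolynomial Filter Topology

namespace Pool.Agent.R851.PolyDeg

/-- the ideal of the functions which vanish near `0` -/
def nearZero (n : ℕ) : Ideal (anFun n) where
  carrier := {f | ∀ᶠ x in 𝓝 (0 : Fin n → ℂ), (f : (Fin n → ℂ) → ℂ) x = 0}
  add_mem' := fun {f g} hf hg => by
    filter_upwards [hf, hg] with x h1 h2
    change (f : (Fin n → ℂ) → ℂ) x + (g : (Fin n → ℂ) → ℂ) x = 0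
    rw [h1, h2, add_zero]
  zero_mem' := Eventually.of_forall fun _ => rfl
  smul_mem' := fun c f hf => by
    filter_upwards [hf] with x h1
    change (c : (Fin n → ℂ) → ℂ) x * (f : (Fin n → ℂ) → ℂ) x = 0
    rw [h1, mul_zero]

/-- the local ring `𝒪` of the germs at `0` of holomorphic functions on `ℂⁿ` -/
def Germs (n : ℕ) : Type := anFun n ⧸ nearZero n

noncomputable instance (n : ℕ) : CommRing (Germs n) :=
  inferInstanceAs (CommRing (anFun n ⧸ nearZero n))

noncomputable instance (n : ℕ) : Algebra ℂ (Germs n) :=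
  inferInstanceAs (Algebra ℂ (anFun n ⧸ nearZero n))

/-- the germ at `0` of a function which is holomorphic near `0` -/
noncomputable def germ {n : ℕ} (f : (Fin n → ℂ) → ℂ) (hf : AnalyticAt ℂ f 0) : Germs n :=
  Ideal.Quotient.mk (nearZero n) ⟨f, hf⟩

/-- the ideal of `𝒪` generated by the germs of the partial derivatives of `f` -/
noncomputable def jac {n : ℕ} (f : (Fin n → ℂ) → ℂ) : Ideal (Germs n) :=
  Ideal.span {g | ∃ (i : Fin n) (h : AnalyticAt ℂ (pd i f) 0), g = germ (pd i f) h}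

/-- the Milnor number `μ(f) = dim 𝒪 / (∂f/∂x₁, …, ∂f/∂x_n)` -/
noncomputable def milnorG {n : ℕ} (f : (Fin n → ℂ) → ℂ) : ℕ :=
  Module.finrank ℂ (Germs n ⧸ jac f)

/-- `f` is a holomorphic germ `(ℂⁿ, 0) → (ℂ, 0)` with an isolated critical point at the origin:
the origin is critical and the Milnor number is finite -/
def IsoCrit {n : ℕ} (f : (Fin n → ℂ) → ℂ) : Prop :=
  AnalyticAt ℂ f 0 ∧ f 0 = 0 ∧ (∀ i, pd i f 0 = 0) ∧ Module.Finite ℂ (Germs n ⧸ jac f)

variable {n : ℕ}

/-! ### Germs -/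

lemma germ_eq_iff {f g : (Fin n → ℂ) → ℂ} (hf : AnalyticAt ℂ f 0) (hg : AnalyticAt ℂ g 0) :
    germ f hf = germ g hg ↔ ∀ᶠ x in 𝓝 0, f x = g x := by
  have h1 : germ f hf = germ g hg ↔ (⟨f, hf⟩ : anFun n) - ⟨g, hg⟩ ∈ nearZero n :=
    Ideal.Quotient.eq
  rw [h1]
  change (∀ᶠ x in 𝓝 (0 : Fin n → ℂ), f x - g x = 0) ↔ _
  simp only [sub_eq_zero]

lemma exists_germ (g : Germs n) : ∃ (f : (Fin n → ℂ) → ℂ) (hf : AnalyticAt ℂ f 0), germ f hf = g := by
  obtain ⟨⟨f, hf⟩, rfl⟩ := Ideal.Quotient.mk_surjective (I := nearZero n) g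
  exact ⟨f, hf, rfl⟩

lemma germ_add {f g : (Fin n → ℂ) → ℂ} (hf : AnalyticAt ℂ f 0) (hg : AnalyticAt ℂ g 0) :
    germ f hf + germ g hg = germ (fun x => f x + g x) (hf.add hg) := rfl

lemma germ_mul {f g : (Fin n → ℂ) → ℂ} (hf : AnalyticAt ℂ f 0) (hg : AnalyticAt ℂ g 0) :
    germ f hf * germ g hg = germ (fun x => f x * g x) (hf.mul hg) := rfl

lemma germ_sub {f g : (Fin n → ℂ) → ℂ} (hf : AnalyticAt ℂ f 0) (hg : AnalyticAt ℂ g 0) :
    germ f hf - germ g hg = germ (fun x => f x - g x) (hf.sub hg) := rfl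

lemma germ_const (c : ℂ) : algebraMap ℂ (Germs n) c = germ (fun _ => c) analyticAt_const := rfl

lemma germ_sum {ι : Type} (s : Finset ι) {f : ι → (Fin n → ℂ) → ℂ}
    (hf : ∀ i, AnalyticAt ℂ (f i) 0) (h : AnalyticAt ℂ (fun x => ∑ i ∈ s, f i x) 0) :
    ∑ i ∈ s, germ (f i) (hf i) = germ (fun x => ∑ i ∈ s, f i x) h := by
  classical
  induction s using Finset.induction_on with
  | empty =>
    simp only [Finset.sum_empty]
    rfl
  | insert a s ha ih =>
    have h' : AnalyticAt ℂ (fun x => ∑ i ∈ s, f i x) 0 := by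
      have := Finset.analyticAt_fun_sum s (f := f) (c := (0 : Fin n → ℂ)) (fun i _ => hf i)
      exact this
    rw [Finset.sum_insert ha, ih h', germ_add]
    rw [germ_eq_iff]
    exact Eventually.of_forall fun x => by rw [Finset.sum_insert ha]

/-- evaluation at the origin -/
noncomputable def ev0 : Germs n →ₐ[ℂ] ℂ :=
  Ideal.Quotient.liftₐ (nearZero n)
    ((Pi.evalAlgHom ℂ (fun _ : Fin n → ℂ => ℂ) 0).comp (anFun n).val) (fun f hf => by
      have h : ∀ᶠ x in 𝓝 (0 : Fin n → ℂ), (f : (Fin n → ℂ) → ℂ) x = 0 := hf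
      exact h.self_of_nhds)

@[simp] lemma ev0_germ {f : (Fin n → ℂ) → ℂ} (hf : AnalyticAt ℂ f 0) :
    ev0 (germ f hf) = f 0 := rfl

/-- the maximal ideal -/
noncomputable def mm (n : ℕ) : Ideal (Germs n) := RingHom.ker (ev0 : Germs n →ₐ[ℂ] ℂ)

lemma germ_mem_mm {f : (Fin n → ℂ) → ℂ} (hf : AnalyticAt ℂ f 0) : germ f hf ∈ mm n ↔ f 0 = 0 :=
  Iff.rfl

lemma isUnit_of_ev0 {g : Germs n} (h : ev0 g ≠ 0) : IsUnit g := by
  obtain ⟨f, hf, rfl⟩ := exists_germ g
  rw [ev0_germ] at h
  have hinv : AnalyticAt ℂ (fun x => (f x)⁻¹) 0 := hf.inv h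
  refine IsUnit.of_mul_eq_one (germ _ hinv) ?_
  rw [germ_mul]
  have h1 : (1 : Germs n) = germ (fun _ => 1) analyticAt_const := rfl
  rw [h1, germ_eq_iff]
  filter_upwards [hf.continuousAt.eventually_ne h] with x hx
  exact mul_inv_cancel₀ hx

noncomputable instance : Nontrivial (Germs n) :=
  (ev0 : Germs n →ₐ[ℂ] ℂ).toRingHom.domain_nontrivial

instance : IsLocalRing (Germs n) := by
  refine IsLocalRing.of_isUnit_or_isUnit_one_sub_self fun a => ?_
  by_cases h : ev0 a = 0
  · right
    apply isUnit_of_ev0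
    rw [map_sub, map_one, h, sub_zero]
    exact one_ne_zero
  · left; exact isUnit_of_ev0 h

lemma maximalIdeal_eq : IsLocalRing.maximalIdeal (Germs n) = mm n := by
  ext g
  rw [IsLocalRing.mem_maximalIdeal, mem_nonunits_iff]
  constructor
  · intro h
    by_contra hne
    exact h (isUnit_of_ev0 hne)
  · intro h hu
    have h1 : IsUnit (ev0 g) := hu.map ev0
    have h2 : ev0 g = 0 := h
    rw [h2] at h1
    exact not_isUnit_zero h1

lemma mm_le_jacobson : mm n ≤ Ideal.jacobson ⊥ := by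
  rw [IsLocalRing.jacobson_eq_maximalIdeal _ bot_ne_top, maximalIdeal_eq]

/-! ### Hadamard's lemma -/

lemma hadamard {E F : Type} [NormedAddCommGroup E] [NormedSpace ℂ E] [NormedAddCommGroup F]
    [NormedSpace ℂ F] [CompleteSpace F] {f : E → F} (hf : AnalyticAt ℂ f 0) :
    ∃ g : E → (E →L[ℂ] F), AnalyticAt ℂ g 0 ∧ ∀ᶠ x in 𝓝 0, f x = f 0 + g x x := by
  obtain ⟨p, r, hp⟩ := hf
  have hrad : 0 < p.shift.radius := by
    rw [FormalMultilinearSeries.radius_shift]
    exact hp.r_pos.trans_le hp.r_le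
  have hq := p.shift.hasFPowerSeriesOnBall hrad
  refine ⟨p.shift.sum, hq.analyticAt, ?_⟩
  have hq2 := hq.unshift (z := f 0)
  filter_upwards [Metric.eball_mem_nhds (0 : E) hp.r_pos,
    Metric.eball_mem_nhds (0 : E) hrad] with x hx1 hx2
  have h1 := hp.hasSum hx1
  have h2 := hq2.hasSum hx2
  simp only [zero_add, sub_zero] at h1 h2
  have h3 : ∀ k, (p.shift.unshift (f 0)) k (fun _ => x) = p k fun _ => x := by
    intro k
    cases k with
    | zero =>
      simp only [FormalMultilinearSeries.unshift]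
      rw [hp.coeff_zero]
      rfl
    | succ k =>
      simp only [FormalMultilinearSeries.unshift, FormalMultilinearSeries.shift]
      rw [continuousMultilinearCurryRightEquiv_symm_apply',
        ContinuousMultilinearMap.curryRight_apply]
      exact congrArg (p (k + 1)) (Fin.snoc_init_self (fun _ : Fin (k + 1) => x))
  simp_rw [h3] at h2
  exact h1.unique h2

/-! ### Coordinates and polynomials -/

lemma analyticAt_coord (i : Fin n) (y : Fin n → ℂ) : AnalyticAt ℂ (fun x : Fin n → ℂ => x i) y :=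
  (ContinuousLinearMap.proj (R := ℂ) (φ := fun _ : Fin n => ℂ) i).analyticAt y

/-- the germ of a coordinate function -/
noncomputable def xg (i : Fin n) : Germs n := germ (fun x => x i) (analyticAt_coord i 0)

lemma analyticAt_eval (p : MvPolynomial (Fin n) ℂ) {E : Type} [NormedAddCommGroup E]
    [NormedSpace ℂ E] {ψ : E → Fin n → ℂ} {y : E} (hψ : AnalyticAt ℂ ψ y) :
    AnalyticAt ℂ (fun x => eval (ψ x) p) y := by
  induction p using MvPolynomial.induction_on with
  | C r => simp only [eval_C]; exact analyticAt_const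
  | add p q hp hq => simp only [map_add]; exact hp.add hq
  | mul_X p i hp =>
    simp only [map_mul, eval_X]
    refine hp.mul ?_
    exact ((ContinuousLinearMap.proj (R := ℂ) (φ := fun _ : Fin n => ℂ) i).analyticAt _).comp hψ

lemma aeval_germ (p : MvPolynomial (Fin n) ℂ) {ψ : (Fin n → ℂ) → Fin n → ℂ}
    (hψ : AnalyticAt ℂ ψ 0) (hi : ∀ i, AnalyticAt ℂ (fun x => ψ x i) 0) :
    aeval (fun i => germ (fun x => ψ x i) (hi i)) p =
      germ (fun x => eval (ψ x) p) (analyticAt_eval p hψ) := by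
  induction p using MvPolynomial.induction_on with
  | C r =>
    rw [aeval_C, germ_const, germ_eq_iff]
    exact Eventually.of_forall fun x => by rw [eval_C]
  | add p q hp hq =>
    rw [map_add, hp, hq, germ_add, germ_eq_iff]
    exact Eventually.of_forall fun x => by rw [map_add]
  | mul_X p i hp =>
    rw [map_mul, hp, aeval_X, germ_mul, germ_eq_iff]
    exact Eventually.of_forall fun x => by rw [map_mul, eval_X]

lemma aeval_xg (p : MvPolynomial (Fin n) ℂ) :
    aeval (xg : Fin n → Germs n) p = germ (fun x => eval x p) (analyticAt_eval p analyticAt_id) :=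
  aeval_germ p analyticAt_id (fun i => analyticAt_coord i 0)

/-- Hadamard's lemma in coordinates -/
lemma hadamard_coord {f : (Fin n → ℂ) → ℂ} (hf : AnalyticAt ℂ f 0) :
    ∃ g : Fin n → (Fin n → ℂ) → ℂ, (∀ i, AnalyticAt ℂ (g i) 0) ∧
      ∀ᶠ x in 𝓝 0, f x = f 0 + ∑ i, x i * g i x := by
  obtain ⟨g, hg, h⟩ := hadamard hf
  refine ⟨fun i x => g x (Pi.single i 1), fun i => ?_, ?_⟩
  · exact ((ContinuousLinearMap.apply ℂ ℂ (Pi.single i 1 : Fin n → ℂ)).analyticAt _).comp hg
  · filter_upwards [h] with x hx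
    rw [hx]
    congr 1
    have h1 : g x x = g x (∑ i, Pi.single i (x i)) := by rw [Finset.univ_sum_single]
    rw [h1, map_sum]
    refine Finset.sum_congr rfl fun i _ => ?_
    have : (Pi.single i (x i) : Fin n → ℂ) = x i • Pi.single i 1 := by
      rw [← Pi.single_smul, smul_eq_mul, mul_one]
    rw [this, map_smul, smul_eq_mul]

lemma mem_mm_iff {g : Germs n} : g ∈ mm n ↔ ∃ c : Fin n → Germs n, ∑ i, c i * xg i = g := by
  constructor
  · intro h
    obtain ⟨f, hf, rfl⟩ := exists_germ g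
    rw [germ_mem_mm] at h
    obtain ⟨c, hc, hfc⟩ := hadamard_coord hf
    refine ⟨fun i => germ (c i) (hc i), ?_⟩
    have h1 : ∀ i, AnalyticAt ℂ (fun x => c i x * x i) 0 := fun i =>
      (hc i).mul (analyticAt_coord i 0)
    have h2 : ∀ i, germ (c i) (hc i) * xg i = germ (fun x => c i x * x i) (h1 i) := fun i => rfl
    simp_rw [h2]
    rw [germ_sum Finset.univ h1 (Finset.analyticAt_fun_sum _ fun i _ => h1 i), germ_eq_iff]
    filter_upwards [hfc] with x hx
    rw [hx, h, zero_add]
    exact Finset.sum_congr rfl fun i _ => mul_comm _ _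
  · rintro ⟨c, rfl⟩
    refine Ideal.sum_mem _ fun i _ => Ideal.mul_mem_left _ _ ?_
    exact (germ_mem_mm _).2 rfl

lemma mm_eq_span : mm n = Ideal.span (Set.range xg) := by
  ext g
  rw [mem_mm_iff, Ideal.mem_span_range_iff_exists_fun]

lemma mm_fg : (mm n).FG := by
  rw [mm_eq_span]
  exact Submodule.fg_span (Set.finite_range xg)

/-- every holomorphic function is a polynomial plus a function in `m^(K+1)` whose derivatives
are in `m^K` -/
lemma taylor (K : ℕ) : ∀ {f : (Fin n → ℂ) → ℂ}, AnalyticAt ℂ f 0 →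
    ∃ (p : MvPolynomial (Fin n) ℂ) (r : (Fin n → ℂ) → ℂ) (hr : AnalyticAt ℂ r 0),
      (∀ᶠ x in 𝓝 0, f x = eval x p + r x) ∧ germ r hr ∈ mm n ^ (K + 1) ∧
      ∀ (i : Fin n) (h : AnalyticAt ℂ (pd i r) 0), germ (pd i r) h ∈ mm n ^ K := by
  induction K with
  | zero =>
    intro f hf
    refine ⟨C (f 0), fun x => f x - f 0, hf.sub analyticAt_const,
      Eventually.of_forall fun x => by simp, ?_, fun i h => by simp⟩
    rw [zero_add, pow_one, germ_mem_mm]
    simp
  | succ K ih =>
    intro f hf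
    obtain ⟨g, hg, hfg⟩ := hadamard_coord hf
    choose p r hr h1 h2 h3 using fun i => ih (hg i)
    have hxr : ∀ i, AnalyticAt ℂ (fun x : Fin n → ℂ => x i * r i x) 0 := fun i =>
      (analyticAt_coord i 0).mul (hr i)
    have hR : AnalyticAt ℂ (fun x : Fin n → ℂ => ∑ i, x i * r i x) 0 :=
      Finset.analyticAt_fun_sum _ fun i _ => hxr i
    refine ⟨C (f 0) + ∑ i, X i * p i, fun x => ∑ i, x i * r i x, hR, ?_, ?_, ?_⟩
    · have : ∀ᶠ x in 𝓝 (0 : Fin n → ℂ), ∀ i, g i x = eval x (p i) + r i x :=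
        Filter.eventually_all.2 h1
      filter_upwards [hfg, this] with x hx hx2
      rw [hx]
      simp only [map_add, map_sum, map_mul, eval_C, eval_X]
      rw [add_assoc, ← Finset.sum_add_distrib]
      congr 1
      refine Finset.sum_congr rfl fun i _ => ?_
      rw [hx2 i]; ring
    · rw [← germ_sum Finset.univ hxr hR]
      refine Ideal.sum_mem _ fun i _ => ?_
      have : germ (fun x : Fin n → ℂ => x i * r i x) (hxr i) = xg i * germ (r i) (hr i) := rfl
      rw [this, pow_succ' (mm n) (K + 1)]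
      exact Ideal.mul_mem_mul ((germ_mem_mm _).2 rfl) (h2 i)
    · intro j hj
      have hpd : ∀ i, AnalyticAt ℂ (pd j (r i)) 0 := fun i =>
        ((ContinuousLinearMap.apply ℂ ℂ (Pi.single j 1 : Fin n → ℂ)).analyticAt _).comp
          (hr i).fderiv
      have h4 : ∀ i, AnalyticAt ℂ (fun x : Fin n → ℂ => x i * pd j (r i) x) 0 := fun i =>
        (analyticAt_coord i 0).mul (hpd i)
      have h5 : AnalyticAt ℂ (fun x : Fin n → ℂ => ∑ i, x i * pd j (r i) x) 0 :=
        Finset.analyticAt_fun_sum _ fun i _ => h4 i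
      have h6 : germ (pd j fun x => ∑ i, x i * r i x) hj =
          germ (r j) (hr j) + germ (fun x : Fin n → ℂ => ∑ i, x i * pd j (r i) x) h5 := by
        rw [germ_add, germ_eq_iff]
        have h7 : ∀ᶠ x in 𝓝 (0 : Fin n → ℂ), ∀ i, DifferentiableAt ℂ (r i) x :=
          Filter.eventually_all.2 fun i =>
            (hr i).eventually_analyticAt.mono fun x hx => hx.differentiableAt
        filter_upwards [h7] with x hx
        have h8 : HasFDerivAt (fun x : Fin n → ℂ => ∑ i, x i * r i x)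
            (∑ i, (x i • fderiv ℂ (r i) x + r i x •
              ContinuousLinearMap.proj (R := ℂ) (φ := fun _ : Fin n => ℂ) i)) x := by
          refine HasFDerivAt.fun_sum fun i _ => ?_
          exact ((ContinuousLinearMap.proj (R := ℂ) (φ := fun _ : Fin n => ℂ) i).hasFDerivAt
            (x := x)).mul (hx i).hasFDerivAt
        unfold pd
        rw [h8.fderiv]
        simp only [FunLike.coe_sum, Finset.sum_apply, add_apply,
          smul_apply, smul_eq_mul, ContinuousLinearMap.proj_apply]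
        rw [Finset.sum_add_distrib, add_comm]
        congr 1
        rw [Finset.sum_eq_single j]
        · simp
        · intro i _ hij
          simp [Pi.single_eq_of_ne hij]
        · intro h; exact absurd (Finset.mem_univ j) h
      rw [h6]
      refine Ideal.add_mem _ (h2 j) ?_
      rw [← germ_sum Finset.univ h4 h5]
      refine Ideal.sum_mem _ fun i _ => ?_
      have : germ (fun x : Fin n → ℂ => x i * pd j (r i) x) (h4 i) =
        xg i * germ (pd j (r i)) (hpd i) := rfl
      rw [this, pow_succ']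
      exact Ideal.mul_mem_mul ((germ_mem_mm _).2 rfl) (h3 i j (hpd i))

end Pool.Agent.R851.PolyDeg
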