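import Pool.Agent.R851.PolyDegQuot

/-!
# Right equivalence and Tougeron's lemma for polynomials
-/

set_option autoImplicit false

open MvPolynomial Filter Topology

namespace Pool.Agent.R851.PolyDeg

variable {n : ℕ}

/-! ### The analytic inverse function theorem -/

lemma exists_inverse {E F : Type} [NormedAddCommGroup E] [NormedSpace ℂ E] [CompleteSpace E]
    [NormedAddCommGroup F] [NormedSpace ℂ F] {f : E → F} {a : E} (hf : AnalyticAt ℂ f a)
    (i : E ≃L[ℂ] F) (hi : HasFDerivAt f (i : E →L[ℂ] F) a) :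
    ∃ g : F → E, AnalyticAt ℂ g (f a) ∧ g (f a) = a ∧ (∀ᶠ x in 𝓝 a, g (f x) = x) ∧
      ∀ᶠ y in 𝓝 (f a), f (g y) = y := by
  have hs : HasStrictFDerivAt f (i : E →L[ℂ] F) a := by
    have := hf.hasStrictFDerivAt
    rwa [hi.fderiv] at this
  refine ⟨hs.localInverse f i a, ?_, hs.localInverse_apply_image, hs.eventually_left_inverse,
    hs.eventually_right_inverse⟩
  exact (hs.toOpenPartialHomeomorph f).analyticAt_symm' (i := i)
    hs.mem_toOpenPartialHomeomorph_source hf hi.fderiv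

/-! ### Right equivalence -/

lemma RightEquiv.of_eventuallyEq {f g : (Fin n → ℂ) → ℂ} (h : ∀ᶠ x in 𝓝 0, g x = f x) :
    RightEquiv f g :=
  ⟨id, id, analyticAt_id, analyticAt_id, rfl, rfl, Eventually.of_forall fun _ => rfl,
    Eventually.of_forall fun _ => rfl, h⟩

lemma RightEquiv.symm {f g : (Fin n → ℂ) → ℂ} (h : RightEquiv f g) : RightEquiv g f := by
  obtain ⟨φ, ψ, hφ, hψ, hφ0, hψ0, h1, h2, h3⟩ := h
  refine ⟨ψ, φ, hψ, hφ, hψ0, hφ0, h2, h1, ?_⟩
  have ht : Tendsto ψ (𝓝 0) (𝓝 0) := by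
    have := hψ.continuousAt.tendsto
    rwa [hψ0] at this
  filter_upwards [h2, ht.eventually h3] with x h4 h5
  rw [h5, h4]

lemma RightEquiv.trans {f g h : (Fin n → ℂ) → ℂ} (h1 : RightEquiv f g) (h2 : RightEquiv g h) :
    RightEquiv f h := by
  obtain ⟨φ, ψ, hφ, hψ, hφ0, hψ0, a1, a2, a3⟩ := h1
  obtain ⟨φ', ψ', hφ', hψ', hφ0', hψ0', b1, b2, b3⟩ := h2
  have ht : Tendsto φ' (𝓝 0) (𝓝 0) := by
    have := hφ'.continuousAt.tendsto
    rwa [hφ0'] at this
  have hs : Tendsto ψ (𝓝 0) (𝓝 0) := by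
    have := hψ.continuousAt.tendsto
    rwa [hψ0] at this
  refine ⟨fun x => φ (φ' x), fun x => ψ' (ψ x), ?_, ?_, by change φ (φ' 0) = 0; rw [hφ0', hφ0],
    by change ψ' (ψ 0) = 0; rw [hψ0, hψ0'], ?_, ?_, ?_⟩
  · have : AnalyticAt ℂ φ (φ' 0) := by rw [hφ0']; exact hφ
    exact this.comp hφ'
  · have : AnalyticAt ℂ ψ' (ψ 0) := by rw [hψ0]; exact hψ'
    exact this.comp hψ
  · filter_upwards [b1, ht.eventually a1] with x h3 h4
    rw [h4, h3]
  · filter_upwards [a2, hs.eventually b2] with x h3 h4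
    rw [h4, h3]
  · filter_upwards [b3, ht.eventually a3] with x h3 h4
    rw [h3, h4]

lemma RightEquiv.of_comp {f : (Fin n → ℂ) → ℂ} {Ψ : (Fin n → ℂ) → (Fin n → ℂ)}
    (hΨ : AnalyticAt ℂ Ψ 0) (h0 : Ψ 0 = 0) (i : (Fin n → ℂ) ≃L[ℂ] (Fin n → ℂ))
    (hi : HasFDerivAt Ψ (i : (Fin n → ℂ) →L[ℂ] (Fin n → ℂ)) 0) :
    RightEquiv f fun x => f (Ψ x) := by
  obtain ⟨g, hg, hg0, h1, h2⟩ := exists_inverse hΨ i hi
  rw [h0] at hg hg0 h2
  exact ⟨Ψ, g, hΨ, hg, h0, hg0, h1, h2, Eventually.of_forall fun _ => rfl⟩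

/-! ### Taylor expansion of polynomials -/

lemma poly_taylor (p : MvPolynomial (Fin n) ℂ) :
    ∃ R : Fin n → Fin n → (Fin n → ℂ) × (Fin n → ℂ) → ℂ, (∀ i j z, AnalyticAt ℂ (R i j) z) ∧
      ∀ x u, eval (x + u) p = eval x p + ∑ i, u i * eval x (pderiv i p) +
        ∑ i, ∑ j, u i * u j * R i j (x, u) := by
  induction p using MvPolynomial.induction_on with
  | C r => exact ⟨fun _ _ _ => 0, fun _ _ _ => analyticAt_const, fun x u => by simp⟩
  | add p q hp hq =>
    obtain ⟨R, hR, h1⟩ := hp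
    obtain ⟨R', hR', h2⟩ := hq
    refine ⟨fun i j z => R i j z + R' i j z, fun i j z => (hR i j z).add (hR' i j z),
      fun x u => ?_⟩
    rw [map_add, h1, h2]
    simp only [map_add, mul_add, Finset.sum_add_distrib]
    ring
  | mul_X p k hp =>
    obtain ⟨R, hR, h1⟩ := hp
    refine ⟨fun i j z => R i j z * (z.1 k + z.2 k) + if j = k then eval z.1 (pderiv i p) else 0,
      fun i j z => ?_, fun x u => ?_⟩
    · refine AnalyticAt.add (AnalyticAt.mul (hR i j z) ?_) ?_
      · refine AnalyticAt.add ?_ ?_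
        · exact (analyticAt_coord k z.1).comp analyticAt_fst
        · exact (analyticAt_coord k z.2).comp analyticAt_snd
      · split_ifs
        · exact analyticAt_eval _ analyticAt_fst
        · exact analyticAt_const
    · rw [map_mul, h1, eval_X, map_mul, eval_X, Pi.add_apply]
      have h2 : ∀ i, eval x (pderiv i (p * X k)) =
          eval x (pderiv i p) * x k + if i = k then eval x p else 0 := by
        intro i
        rw [pderiv_mul, map_add, map_mul, map_mul, eval_X]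
        congr 1
        by_cases hik : i = k
        · subst hik; simp
        · rw [if_neg hik, pderiv_X_of_ne (Ne.symm hik)]; simp
      simp_rw [h2]
      simp only [mul_add, Finset.sum_add_distrib, mul_ite, mul_zero, Finset.sum_ite_eq',
        Finset.mem_univ, if_true, add_mul, Finset.sum_mul, ← mul_assoc]
      have h3 : ∀ i, u i * u k * eval x (pderiv i p) = u i * eval x (pderiv i p) * u k :=
        fun i => by ring
      simp_rw [h3]
      ring

/-- the coordinate functions as continuous linear maps -/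
noncomputable def pr (i : Fin n) : (Fin n → ℂ) →L[ℂ] ℂ :=
  ContinuousLinearMap.proj (R := ℂ) (φ := fun _ : Fin n => ℂ) i

@[simp] lemma pr_apply (i : Fin n) (x : Fin n → ℂ) : pr i x = x i := rfl

lemma sum_pr_apply (c : Fin n → ℂ) (v : Fin n → ℂ) : (∑ i, c i • pr i) v = ∑ i, c i * v i := by
  simp only [FunLike.coe_sum, Finset.sum_apply, smul_apply, smul_eq_mul, pr_apply]

lemma hasFDerivAt_eval (p : MvPolynomial (Fin n) ℂ) (x : Fin n → ℂ) :
    HasFDerivAt (fun x : Fin n → ℂ => eval x p) (∑ i, eval x (pderiv i p) • pr i) x := by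
  induction p using MvPolynomial.induction_on with
  | C r =>
    have h1 : (fun x : Fin n → ℂ => eval x (C r)) = fun _ => r := by funext x; simp
    rw [h1]
    refine (hasFDerivAt_const r x).congr_fderiv ?_
    ext v
    rw [sum_pr_apply]
    simp
  | add p q hp hq =>
    have h1 : (fun x : Fin n → ℂ => eval x (p + q)) = fun x => eval x p + eval x q := by
      funext x; simp
    rw [h1]
    refine (hp.add hq).congr_fderiv ?_
    ext v
    rw [add_apply, sum_pr_apply, sum_pr_apply, sum_pr_apply, ← Finset.sum_add_distrib]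
    refine Finset.sum_congr rfl fun i _ => ?_
    rw [map_add, map_add, add_mul]
  | mul_X p k hp =>
    have h1 := hp.mul ((pr k).hasFDerivAt (x := x))
    have h2 : (fun x : Fin n → ℂ => eval x (p * X k)) = fun x => eval x p * pr k x := by
      funext x; simp
    rw [h2]
    refine h1.congr_fderiv ?_
    have h3 : ∀ i, eval x (pderiv i (p * X k)) =
        x k * eval x (pderiv i p) + if i = k then eval x p else 0 := by
      intro i
      rw [pderiv_mul, map_add, map_mul, map_mul, eval_X]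
      by_cases hik : i = k
      · subst hik; simp; ring
      · rw [if_neg hik, pderiv_X_of_ne (Ne.symm hik)]; simp; ring
    ext v
    rw [add_apply, smul_apply, smul_apply, sum_pr_apply, sum_pr_apply]
    simp_rw [h3, add_mul, Finset.sum_add_distrib, ite_mul, zero_mul, Finset.sum_ite_eq',
      Finset.mem_univ, if_true, pr_apply, smul_eq_mul, Finset.mul_sum, mul_assoc]
    rw [add_comm]

lemma pd_eval (p : MvPolynomial (Fin n) ℂ) (i : Fin n) (x : Fin n → ℂ) :
    pd i (fun x => eval x p) x = eval x (pderiv i p) := by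
  unfold pd
  rw [(hasFDerivAt_eval p x).fderiv, sum_pr_apply, Finset.sum_eq_single i]
  · simp
  · intro j _ hij
    simp [Pi.single_eq_of_ne hij]
  · intro h; exact absurd (Finset.mem_univ i) h

/-! ### Coefficients of elements of `m J²` -/

lemma mem_II {d : Fin n → Germs n} {g : Germs n} (hg : g ∈ II (Ideal.span (Set.range d))) :
    ∃ c : Fin n → Fin n → Germs n, (∀ k l, c k l ∈ mm n) ∧
      g = ∑ k, ∑ l, c k l * (d k * d l) := by
  have h1 : ∀ b ∈ Ideal.span (Set.range d) * Ideal.span (Set.range d),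
      ∃ c : Fin n → Fin n → Germs n, b = ∑ k, ∑ l, c k l * (d k * d l) := by
    intro b hb
    refine Submodule.mul_induction_on hb (fun a ha b hb => ?_) ?_
    · rw [Ideal.mem_span_range_iff_exists_fun] at ha hb
      obtain ⟨c, rfl⟩ := ha
      obtain ⟨c', rfl⟩ := hb
      refine ⟨fun k l => c k * c' l, ?_⟩
      rw [Finset.sum_mul_sum]
      exact Finset.sum_congr rfl fun k _ => Finset.sum_congr rfl fun l _ => by ring
    · rintro x y ⟨c, rfl⟩ ⟨c', rfl⟩
      refine ⟨fun k l => c k l + c' k l, ?_⟩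
      simp only [add_mul, Finset.sum_add_distrib]
  refine Submodule.mul_induction_on hg (fun m hm b hb => ?_) ?_
  · obtain ⟨c, rfl⟩ := h1 b hb
    refine ⟨fun k l => m * c k l, fun k l => Ideal.mul_mem_right _ _ hm, ?_⟩
    rw [Finset.mul_sum]
    refine Finset.sum_congr rfl fun k _ => ?_
    rw [Finset.mul_sum]
    exact Finset.sum_congr rfl fun l _ => by ring
  · rintro x y ⟨c, hc, rfl⟩ ⟨c', hc', rfl⟩
    refine ⟨fun k l => c k l + c' k l, fun k l => Ideal.add_mem _ (hc k l) (hc' k l), ?_⟩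
    simp only [add_mul, Finset.sum_add_distrib]

/-! ### Tougeron's lemma -/

lemma hasFDerivAt_zero_of_mul {V : Type} [NormedAddCommGroup V] [NormedSpace ℂ V]
    {α β γ : V → ℂ} {z : V} (hα : DifferentiableAt ℂ α z) (hβ : DifferentiableAt ℂ β z)
    (hγ : DifferentiableAt ℂ γ z) (h1 : α z = 0) (h2 : β z = 0) :
    HasFDerivAt (fun y => α y * β y * γ y) (0 : V →L[ℂ] ℂ) z := by
  refine ((hα.hasFDerivAt.mul hβ.hasFDerivAt).mul hγ.hasFDerivAt).congr_fderiv ?_
  ext v
  simp [h1, h2]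

lemma sum4 (G : Fin n → Fin n → Fin n → Fin n → ℂ) :
    ∑ i, ∑ j, ∑ k, ∑ l, G i j k l = ∑ k, ∑ l, ∑ i, ∑ j, G i j k l := by
  calc ∑ i, ∑ j, ∑ k, ∑ l, G i j k l = ∑ i, ∑ k, ∑ j, ∑ l, G i j k l :=
        Finset.sum_congr rfl fun i _ => Finset.sum_comm
    _ = ∑ k, ∑ i, ∑ j, ∑ l, G i j k l := Finset.sum_comm
    _ = ∑ k, ∑ i, ∑ l, ∑ j, G i j k l :=
        Finset.sum_congr rfl fun k _ => Finset.sum_congr rfl fun i _ => Finset.sum_comm
    _ = ∑ k, ∑ l, ∑ i, ∑ j, G i j k l := Finset.sum_congr rfl fun k _ => Finset.sum_comm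

/-- the linear automorphism `(dx, dy) ↦ (dx, dy - L dx)` -/
noncomputable def shearEquiv {E Y : Type} [NormedAddCommGroup E] [NormedSpace ℂ E]
    [NormedAddCommGroup Y] [NormedSpace ℂ Y] (L : E →L[ℂ] Y) : (E × Y) ≃L[ℂ] (E × Y) :=
  ContinuousLinearEquiv.equivOfInverse
    ((ContinuousLinearMap.fst ℂ E Y).prod
      (ContinuousLinearMap.snd ℂ E Y - L.comp (ContinuousLinearMap.fst ℂ E Y)))
    ((ContinuousLinearMap.fst ℂ E Y).prod
      (ContinuousLinearMap.snd ℂ E Y + L.comp (ContinuousLinearMap.fst ℂ E Y)))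
    (fun z => by ext <;> simp) (fun z => by ext <;> simp)

lemma shearEquiv_coe {E Y : Type} [NormedAddCommGroup E] [NormedSpace ℂ E]
    [NormedAddCommGroup Y] [NormedSpace ℂ Y] (L : E →L[ℂ] Y) :
    (shearEquiv L : (E × Y) →L[ℂ] (E × Y)) = (ContinuousLinearMap.fst ℂ E Y).prod
      (ContinuousLinearMap.snd ℂ E Y - L.comp (ContinuousLinearMap.fst ℂ E Y)) := rfl

/-- solution of `y + Q (x, y) = a x` for a quadratic `Q` -/
lemma exists_solution {E Y : Type} [NormedAddCommGroup E] [NormedSpace ℂ E] [CompleteSpace E]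
    [NormedAddCommGroup Y] [NormedSpace ℂ Y] [CompleteSpace Y] {Q : E × Y → Y} {a : E → Y}
    (hQ : AnalyticAt ℂ Q 0) (hQ0 : Q 0 = 0) (hQ' : HasFDerivAt Q (0 : E × Y →L[ℂ] Y) 0)
    (ha : AnalyticAt ℂ a 0) (ha0 : a 0 = 0) :
    ∃ y : E → Y, AnalyticAt ℂ y 0 ∧ y 0 = 0 ∧ ∀ᶠ x in 𝓝 0, y x + Q (x, y x) = a x := by
  have ha1 : AnalyticAt ℂ (fun z : E × Y => a z.1) 0 := by
    have : AnalyticAt ℂ a ((0 : E × Y).1) := ha
    exact this.comp analyticAt_fst
  have hΦa : AnalyticAt ℂ (fun z : E × Y => (z.1, z.2 + Q z - a z.1)) 0 :=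
    analyticAt_fst.prod ((analyticAt_snd.add hQ).sub ha1)
  set L := fderiv ℂ a 0 with hL
  have hfst : HasFDerivAt (fun z : E × Y => z.1) (ContinuousLinearMap.fst ℂ E Y) 0 :=
    (ContinuousLinearMap.fst ℂ E Y).hasFDerivAt
  have hsnd : HasFDerivAt (fun z : E × Y => z.2) (ContinuousLinearMap.snd ℂ E Y) 0 :=
    (ContinuousLinearMap.snd ℂ E Y).hasFDerivAt
  have hda : HasFDerivAt (fun z : E × Y => a z.1) (L.comp (ContinuousLinearMap.fst ℂ E Y)) 0 := by
    have h1 : HasFDerivAt a L ((0 : E × Y).1) := ha.differentiableAt.hasFDerivAt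
    exact h1.comp (0 : E × Y) hfst
  have hΦd : HasFDerivAt (fun z : E × Y => (z.1, z.2 + Q z - a z.1))
      (shearEquiv L : (E × Y) →L[ℂ] (E × Y)) 0 := by
    rw [shearEquiv_coe]
    refine (hfst.prodMk ((hsnd.add hQ').sub hda)).congr_fderiv ?_
    rw [add_zero]
  obtain ⟨w, hw, hw0, -, hw2⟩ := exists_inverse hΦa (shearEquiv L) hΦd
  have hval : ((0 : E × Y).1, (0 : E × Y).2 + Q 0 - a (0 : E × Y).1) = (0 : E × Y) := by
    change ((0 : E), (0 : Y) + Q 0 - a (0 : E)) = 0
    rw [hQ0, ha0]; simp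
  rw [hval] at hw hw0 hw2
  have hin : AnalyticAt ℂ (fun x : E => (x, (0 : Y))) 0 := analyticAt_id.prod analyticAt_const
  have hcomp : AnalyticAt ℂ (fun x : E => w (x, 0)) 0 :=
    AnalyticAt.comp_of_eq (f := fun x : E => (x, (0 : Y))) hw hin rfl
  refine ⟨fun x => (w (x, 0)).2, analyticAt_snd.comp hcomp, ?_, ?_⟩
  · change (w 0).2 = 0
    rw [hw0]; rfl
  · have ht : Tendsto (fun x : E => (x, (0 : Y))) (𝓝 0) (𝓝 (0 : E × Y)) := hin.continuousAt.tendsto
    filter_upwards [ht.eventually hw2] with x hx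
    have h1 : (w (x, 0)).1 = x := congrArg Prod.fst hx
    have h2 : (w (x, 0)).2 + Q (w (x, 0)) - a (w (x, 0)).1 = 0 := congrArg Prod.snd hx
    rw [h1] at h2
    have h3 : (x, (w (x, 0)).2) = w (x, 0) := Prod.ext h1.symm rfl
    change (w (x, 0)).2 + Q (x, (w (x, 0)).2) = a x
    rw [h3]
    exact sub_eq_zero.1 h2

/-- **Tougeron's lemma** for a polynomial `p`: if `g - p ∈ m J(p)²` then `g` is right equivalent
to `p`. -/
theorem tougeron (p : MvPolynomial (Fin n) ℂ) (hcrit : ∀ i, eval 0 (pderiv i p) = 0)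
    {g : (Fin n → ℂ) → ℂ} (hg : AnalyticAt ℂ g 0)
    (h : germ g hg - germ (fun x => eval x p) (analyticAt_eval p analyticAt_id) ∈
      II (jac fun x => eval x p)) :
    RightEquiv (fun x => eval x p) g := by
  have hp : AnalyticAt ℂ (fun x => eval x p) (0 : Fin n → ℂ) := analyticAt_eval p analyticAt_id
  rw [jac_eq hp] at h
  obtain ⟨c, hc, hsum⟩ := mem_II h
  choose a ha hca using fun k l => exists_germ (c k l)
  have ha0 : ∀ k l, a k l 0 = 0 := fun k l => by
    have := hc k l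
    rwa [← hca, germ_mem_mm] at this
  -- the identity near `0`
  have hterm : ∀ k l, AnalyticAt ℂ (fun x => a k l x *
      (pd k (fun x => eval x p) x * pd l (fun x => eval x p) x)) 0 := fun k l =>
    (ha k l).mul ((analyticAt_pd hp k).mul (analyticAt_pd hp l))
  have hid : ∀ᶠ x in 𝓝 (0 : Fin n → ℂ), g x = eval x p +
      ∑ k, ∑ l, a k l x * (eval x (pderiv k p) * eval x (pderiv l p)) := by
    have h1 : germ g hg - germ (fun x => eval x p) hp =
        germ (fun x => ∑ k, ∑ l, a k l x *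
          (pd k (fun x => eval x p) x * pd l (fun x => eval x p) x))
          (Finset.analyticAt_fun_sum _ fun k _ => Finset.analyticAt_fun_sum _ fun l _ =>
            hterm k l) := by
      rw [hsum, ← germ_sum Finset.univ (f := fun k x => ∑ l, a k l x *
          (pd k (fun x => eval x p) x * pd l (fun x => eval x p) x))
          (fun k => Finset.analyticAt_fun_sum _ fun l _ => hterm k l)]
      refine Finset.sum_congr rfl fun k _ => ?_
      rw [← germ_sum Finset.univ (hterm k)]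
      refine Finset.sum_congr rfl fun l _ => ?_
      rw [← hca k l, germ_mul, germ_mul]
    rw [germ_sub, germ_eq_iff] at h1
    filter_upwards [h1] with x hx
    simp only [pd_eval] at hx
    rw [← hx]; ring
  obtain ⟨R, hR, hT⟩ := poly_taylor p
  -- the data of the implicit equation
  set u : (Fin n → ℂ) × (Fin n → Fin n → ℂ) → Fin n → ℂ := fun z i =>
    ∑ k, z.2 i k * eval z.1 (pderiv k p) with hu
  set Q : (Fin n → ℂ) × (Fin n → Fin n → ℂ) → Fin n → Fin n → ℂ := fun z k l =>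
    ∑ i, ∑ j, z.2 i k * z.2 j l * R i j (z.1, u z) with hQdef
  set A : (Fin n → ℂ) → Fin n → Fin n → ℂ := fun x k l => a k l x with hA
  have hcoord : ∀ (i k : Fin n) (z : (Fin n → ℂ) × (Fin n → Fin n → ℂ)),
      AnalyticAt ℂ (fun z : (Fin n → ℂ) × (Fin n → Fin n → ℂ) => z.2 i k) z := fun i k z =>
    (((ContinuousLinearMap.proj (R := ℂ) (φ := fun _ : Fin n => ℂ) k).comp
      (ContinuousLinearMap.proj (R := ℂ) (φ := fun _ : Fin n => Fin n → ℂ) i)).comp
      (ContinuousLinearMap.snd ℂ (Fin n → ℂ) (Fin n → Fin n → ℂ))).analyticAt z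
  have hua : ∀ z, AnalyticAt ℂ u z := fun z => by
    rw [analyticAt_pi_iff]
    intro i
    exact Finset.analyticAt_fun_sum _ fun k _ => (hcoord i k z).mul
      (analyticAt_eval _ analyticAt_fst)
  have hRa : ∀ i j, AnalyticAt ℂ (fun z => R i j (z.1, u z)) 0 := fun i j =>
    AnalyticAt.comp_of_eq (f := fun z : (Fin n → ℂ) × (Fin n → Fin n → ℂ) => (z.1, u z))
      (hR i j _) (analyticAt_fst.prod (hua 0)) rfl
  have hQa : AnalyticAt ℂ Q 0 := by
    rw [analyticAt_pi_iff]
    intro k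
    rw [analyticAt_pi_iff]
    intro l
    exact Finset.analyticAt_fun_sum _ fun i _ => Finset.analyticAt_fun_sum _ fun j _ =>
      ((hcoord i k 0).mul (hcoord j l 0)).mul (hRa i j)
  have hQ0 : Q 0 = 0 := by
    funext k l
    simp [hQdef]
  have hQd : HasFDerivAt Q (0 : (Fin n → ℂ) × (Fin n → Fin n → ℂ) →L[ℂ] Fin n → Fin n → ℂ) 0 := by
    rw [hasFDerivAt_pi']
    intro k
    rw [hasFDerivAt_pi']
    intro l
    have h1 : HasFDerivAt (fun z => ∑ i, ∑ j, z.2 i k * z.2 j l * R i j (z.1, u z))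
        (∑ _i : Fin n, ∑ _j : Fin n, (0 : (Fin n → ℂ) × (Fin n → Fin n → ℂ) →L[ℂ] ℂ)) 0 :=
      HasFDerivAt.fun_sum fun i _ => HasFDerivAt.fun_sum fun j _ =>
        hasFDerivAt_zero_of_mul (hcoord i k 0).differentiableAt (hcoord j l 0).differentiableAt
          (hRa i j).differentiableAt rfl rfl
    refine h1.congr_fderiv ?_
    ext v <;> simp
  have hAa : AnalyticAt ℂ A 0 := by
    rw [analyticAt_pi_iff]
    intro k
    rw [analyticAt_pi_iff]
    intro l
    exact ha k l
  have hA0 : A 0 = 0 := by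
    funext k l
    exact ha0 k l
  obtain ⟨y, hy, hy0, hyeq⟩ := exists_solution hQa hQ0 hQd hAa hA0
  -- the change of coordinates
  have hzy : AnalyticAt ℂ (fun x => (x, y x)) 0 := analyticAt_id.prod hy
  have huy : AnalyticAt ℂ (fun x => u (x, y x)) 0 :=
    AnalyticAt.comp_of_eq (f := fun x => (x, y x)) (hua _) hzy rfl
  set χ : (Fin n → ℂ) → Fin n → ℂ := fun x => x + u (x, y x) with hχ
  have hχa : AnalyticAt ℂ χ 0 := analyticAt_id.add huy
  have hχ0 : χ 0 = 0 := by
    funext i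
    simp [hχ, hu, hy0]
  have hyik : ∀ i k, AnalyticAt ℂ (fun x => y x i k) 0 := fun i k => by
    have h1 := (analyticAt_pi_iff.1 hy) i
    exact (analyticAt_pi_iff.1 h1) k
  have hχd : HasFDerivAt χ ((ContinuousLinearEquiv.refl ℂ (Fin n → ℂ) :
      (Fin n → ℂ) ≃L[ℂ] (Fin n → ℂ)) : (Fin n → ℂ) →L[ℂ] (Fin n → ℂ)) 0 := by
    have h1 : HasFDerivAt (fun x => u (x, y x)) (0 : (Fin n → ℂ) →L[ℂ] (Fin n → ℂ)) 0 := by
      rw [hasFDerivAt_pi']
      intro i
      have h2 : HasFDerivAt (fun x => ∑ k, y x i k * eval x (pderiv k p) * 1)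
          (∑ _k : Fin n, (0 : (Fin n → ℂ) →L[ℂ] ℂ)) 0 :=
        HasFDerivAt.fun_sum fun k _ => hasFDerivAt_zero_of_mul (hyik i k).differentiableAt
          (analyticAt_eval (pderiv k p) analyticAt_id).differentiableAt
          (differentiableAt_const 1) (by rw [hy0]; rfl) (hcrit k)
      have h3 : (fun x => u (x, y x) i) = fun x => ∑ k, y x i k * eval x (pderiv k p) * 1 := by
        funext x; simp [hu]
      rw [h3]
      refine h2.congr_fderiv ?_
      ext v; simp
    refine ((hasFDerivAt_id (𝕜 := ℂ) (0 : Fin n → ℂ)).add h1).congr_fderiv ?_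
    rw [add_zero]
    rfl
  refine (RightEquiv.of_comp (f := fun x => eval x p) hχa hχ0 (ContinuousLinearEquiv.refl ℂ _)
    hχd).trans (RightEquiv.of_eventuallyEq ?_)
  filter_upwards [hid, hyeq] with x hx hyx
  rw [hx]
  change _ = eval (x + u (x, y x)) p
  rw [hT, add_assoc]
  congr 1
  have hakl : ∀ k l, a k l x = y x k l + ∑ i, ∑ j, y x i k * y x j l * R i j (x, u (x, y x)) :=
    fun k l => (congrFun (congrFun hyx k) l).symm
  have e1 : ∑ i, u (x, y x) i * eval x (pderiv i p) =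
      ∑ k, ∑ l, y x k l * (eval x (pderiv k p) * eval x (pderiv l p)) := by
    refine Finset.sum_congr rfl fun i _ => ?_
    simp only [hu, Finset.sum_mul]
    exact Finset.sum_congr rfl fun k _ => by ring
  have e2 : ∑ i, ∑ j, u (x, y x) i * u (x, y x) j * R i j (x, u (x, y x)) =
      ∑ k, ∑ l, (∑ i, ∑ j, y x i k * y x j l * R i j (x, u (x, y x))) *
        (eval x (pderiv k p) * eval x (pderiv l p)) := by
    have e3 : ∀ i j, u (x, y x) i * u (x, y x) j * R i j (x, u (x, y x)) =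
        ∑ k, ∑ l, y x i k * y x j l * R i j (x, u (x, y x)) *
          (eval x (pderiv k p) * eval x (pderiv l p)) := by
      intro i j
      have e4 : u (x, y x) i * u (x, y x) j = ∑ k, ∑ l, (y x i k * eval x (pderiv k p)) *
          (y x j l * eval x (pderiv l p)) := by
        simp only [hu]
        rw [Finset.sum_mul_sum]
      rw [e4, Finset.sum_mul]
      refine Finset.sum_congr rfl fun k _ => ?_
      rw [Finset.sum_mul]
      exact Finset.sum_congr rfl fun l _ => by ring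
    simp_rw [e3, Finset.sum_mul]
    exact sum4 _
  rw [e1, e2, ← Finset.sum_add_distrib]
  refine Finset.sum_congr rfl fun k _ => ?_
  rw [← Finset.sum_add_distrib]
  refine Finset.sum_congr rfl fun l _ => ?_
  rw [hakl k l]
  ring

end Pool.Agent.R851.PolyDeg
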