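import Pool.Agent.R851.PolyDegAlg
import Pool.Agent.R851.PolyDegTou

/-!
# The bound for the analytic order
-/

set_option autoImplicit false

open MvPolynomial Filter Topology

namespace Pool.Agent.R851.PolyDeg

variable {n : ℕ}

lemma totalDegree_translate (t : Fin n → ℂ) (q : MvPolynomial (Fin n) ℂ) :
    (aeval (fun i => (X i + C (t i) : MvPolynomial (Fin n) ℂ)) q).totalDegree ≤ q.totalDegree := by
  conv_lhs => rw [q.as_sum, map_sum]
  refine totalDegree_finsetSum_le fun m hm => ?_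
  rw [aeval_monomial]
  refine (totalDegree_mul _ _).trans ?_
  have h1 : (algebraMap ℂ (MvPolynomial (Fin n) ℂ) (coeff m q)).totalDegree = 0 := totalDegree_C _
  rw [h1, zero_add]
  refine (totalDegree_finsetProd _ _).trans (le_trans (Finset.sum_le_sum fun i _ => ?_)
    (le_totalDegree hm))
  refine (totalDegree_pow _ _).trans ?_
  have h2 : (X i + C (t i) : MvPolynomial (Fin n) ℂ).totalDegree ≤ 1 := by
    refine (totalDegree_add _ _).trans ?_
    rw [totalDegree_X, totalDegree_C]; simp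
  calc m i * (X i + C (t i) : MvPolynomial (Fin n) ℂ).totalDegree ≤ m i * 1 :=
        Nat.mul_le_mul_left _ h2
    _ = m i := mul_one _

/-- a small perturbation with invertible derivative -/
lemma exists_perturbation (L : (Fin n → ℂ) →L[ℂ] (Fin n → ℂ)) {s : Set ℂ} (hs : s ∈ 𝓝 (0 : ℂ)) :
    ∃ c ∈ s, ∃ e : (Fin n → ℂ) ≃L[ℂ] (Fin n → ℂ),
      (e : (Fin n → ℂ) →L[ℂ] (Fin n → ℂ)) = L + c • ContinuousLinearMap.id ℂ (Fin n → ℂ) := by
  set T : Module.End ℂ (Fin n → ℂ) := -(L : (Fin n → ℂ) →ₗ[ℂ] (Fin n → ℂ)) with hT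
  have hfin : (spectrum ℂ T).Finite := Module.End.finite_spectrum T
  obtain ⟨c, hc, hcT⟩ := ((infinite_of_mem_nhds (0 : ℂ) hs).sdiff hfin).nonempty
  have hu : IsUnit (algebraMap ℂ (Module.End ℂ (Fin n → ℂ)) c - T) := by
    rw [← spectrum.mem_resolventSet_iff]
    by_contra h
    exact hcT h
  rw [Module.End.isUnit_iff] at hu
  set e := (LinearEquiv.ofBijective _ hu).toContinuousLinearEquiv with he
  refine ⟨c, hc, e, ?_⟩
  ext v i
  have : e v = c • v + L v := by
    change (algebraMap ℂ (Module.End ℂ (Fin n → ℂ)) c - T) v = _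
    rw [hT]
    simp [Module.algebraMap_end_apply]
  change e v i = _
  rw [this]
  simp [add_comm]

theorem main (hn : 1 ≤ n) {f : (Fin n → ℂ) → ℂ} (hf : IsoCrit f) :
    ∃ (q : MvPolynomial (Fin n) ℂ) (k : ℕ), RightEquiv f (fun x => eval x q) ∧
      q.totalDegree ≤ 2 * k - 1 ∧ k ^ n ≤ n ^ n * ((1 + n + n * n) * milnorG f) := by
  obtain ⟨p, r, hr, hfp, hjac, hrI⟩ := exists_poly_approx hf
  obtain ⟨hfa, hf0, hcrit, hfin⟩ := hf
  set J := jac f with hJ
  have hJ' := jac_eq hfa
  have hJm : J ≤ mm n := by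
    rw [hJ, hJ', Ideal.span_le]
    rintro _ ⟨i, rfl⟩
    exact (germ_mem_mm _).2 (hcrit i)
  have hfin' : Module.Finite ℂ (Germs n ⧸ Ideal.span
      (Set.range fun i => germ (pd i f) (analyticAt_pd hfa i))) := by
    rw [← hJ']; exact hfin
  have hq := quot_bound fun i => germ (pd i f) (analyticAt_pd hfa i)
  rw [← hJ', ← hJ] at hq
  obtain ⟨hfinI, hrank⟩ := hq
  -- nontriviality
  have hne : ∀ I : Ideal (Germs n), I ≤ mm n → Nontrivial (Germs n ⧸ I) := by
    intro I hI
    refine Ideal.Quotient.nontrivial_iff.2 fun h => ?_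
    rw [h, top_le_iff] at hI
    have h1 : (1 : Germs n) ∈ mm n := by rw [hI]; trivial
    have h2 : ev0 (1 : Germs n) = 0 := h1
    rw [map_one] at h2
    exact one_ne_zero h2
  have hntJ := hne J hJm
  have hntI := hne (II J) (II_le_mm J)
  have hμ : 1 ≤ milnorG f := Module.finrank_pos
  obtain ⟨K, hK, hsurj⟩ := pow_le_and_surj (II J) (II_le_mm J)
  obtain ⟨a, k, hk1, hkn, hW⟩ := exists_good_tuple hn
    (fun i => Ideal.Quotient.mk (II J) (xg i)) hsurj
  -- lifts
  choose b hb using fun i => Ideal.Quotient.mk_surjective (a i)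
  choose G hG hGb using fun i => exists_germ (b i)
  set Gv : (Fin n → ℂ) → Fin n → ℂ := fun x i => G i x with hGv
  have hGva : AnalyticAt ℂ Gv 0 := by
    rw [analyticAt_pi_iff]; exact hG
  have hev := eventually_finrank_le a (fun i => Ideal.Quotient.mk (II J) (xg i)) (2 * k - 1)
  obtain ⟨c, hc, e, he⟩ := exists_perturbation (fderiv ℂ Gv 0) hev
  have hWc : W (fun i => a i + c • Ideal.Quotient.mk (II J) (xg i)) (2 * k - 1) = ⊤ := by
    have h1 : Module.finrank ℂ (W a (2 * k - 1)) ≤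
      Module.finrank ℂ (W (fun i => a i + c • Ideal.Quotient.mk (II J) (xg i)) (2 * k - 1)) := hc
    rw [hW, finrank_top] at h1
    exact Submodule.eq_top_of_finrank_eq (le_antisymm (Submodule.finrank_le _) h1)
  -- the coordinate system `ψ`
  set ψ : (Fin n → ℂ) → Fin n → ℂ := fun x => Gv x - Gv 0 + c • x with hψ
  have hcid : AnalyticAt ℂ (fun x : Fin n → ℂ => c • x) 0 :=
    (c • ContinuousLinearMap.id ℂ (Fin n → ℂ)).analyticAt 0
  have hψa : AnalyticAt ℂ ψ 0 := (hGva.sub analyticAt_const).add hcid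
  have hψ0 : ψ 0 = 0 := by simp [hψ]
  have hψd : HasFDerivAt ψ (e : (Fin n → ℂ) →L[ℂ] (Fin n → ℂ)) 0 := by
    rw [he]
    have h1 : HasFDerivAt Gv (fderiv ℂ Gv 0) 0 := hGva.differentiableAt.hasFDerivAt
    exact (h1.sub_const (Gv 0)).add ((hasFDerivAt_id (𝕜 := ℂ) (0 : Fin n → ℂ)).const_smul c)
  have hψi : ∀ i, AnalyticAt ℂ (fun x => ψ x i) 0 := analyticAt_pi_iff.1 hψa
  -- the polynomial
  obtain ⟨q, hqd, hq⟩ := mem_W.1 (show Ideal.Quotient.mk (II J) (germ f hfa) ∈
    W (fun i => a i + c • Ideal.Quotient.mk (II J) (xg i)) (2 * k - 1) by rw [hWc]; trivial)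
  set q' : MvPolynomial (Fin n) ℂ := aeval (fun i => (X i + C (Gv 0 i) : MvPolynomial (Fin n) ℂ)) q
    with hq'
  have hq'd : q'.totalDegree ≤ 2 * k - 1 := (totalDegree_translate _ q).trans hqd
  have hψgerm : ∀ i, Ideal.Quotient.mk (II J) (germ (fun x => ψ x i) (hψi i)) +
      algebraMap ℂ _ (Gv 0 i) = a i + c • Ideal.Quotient.mk (II J) (xg i) := by
    intro i
    have h1 : germ (fun x => ψ x i) (hψi i) + algebraMap ℂ (Germs n) (Gv 0 i) =
        b i + c • xg i := by
      rw [← hGb i, Algebra.smul_def, germ_const, germ_const]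
      unfold xg
      rw [germ_mul, germ_add, germ_add, germ_eq_iff]
      refine Eventually.of_forall fun x => ?_
      simp only [hψ, hGv, Pi.add_apply, Pi.sub_apply, Pi.smul_apply, smul_eq_mul]
      ring
    rw [← hb i]
    exact congrArg (Ideal.Quotient.mkₐ ℂ (II J)) h1
  have hval : Ideal.Quotient.mk (II J) (germ (fun x => eval (ψ x) q') (analyticAt_eval q' hψa)) =
      Ideal.Quotient.mk (II J) (germ f hfa) := by
    rw [← aeval_germ q' hψa hψi]
    have h1 : Ideal.Quotient.mk (II J) (aeval (fun i => germ (fun x => ψ x i) (hψi i)) q') =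
        aeval (fun i => Ideal.Quotient.mk (II J) (germ (fun x => ψ x i) (hψi i))) q' :=
      comp_aeval_apply _ (Ideal.Quotient.mkₐ ℂ (II J)) q'
    rw [h1, hq', ← hq]
    have h2 : (aeval fun i => Ideal.Quotient.mk (II J) (germ (fun x => ψ x i) (hψi i)))
        (aeval (fun i => (X i + C (Gv 0 i) : MvPolynomial (Fin n) ℂ)) q) =
        aeval (fun i => aeval (fun i => Ideal.Quotient.mk (II J)
          (germ (fun x => ψ x i) (hψi i))) (X i + C (Gv 0 i) : MvPolynomial (Fin n) ℂ)) q :=
      comp_aeval_apply _ _ q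
    rw [h2]
    congr 2
    funext i
    rw [map_add, aeval_X, aeval_C]
    exact hψgerm i
  -- right equivalences
  have hp : AnalyticAt ℂ (fun x => eval x p) (0 : Fin n → ℂ) := analyticAt_eval p analyticAt_id
  have hpcrit : ∀ i, eval 0 (pderiv i p) = 0 := by
    intro i
    have h1 : germ (pd i fun x => eval x p) (analyticAt_pd hp i) ∈ mm n := by
      refine hJm ?_
      rw [← hjac, jac_eq hp]
      exact Ideal.subset_span ⟨i, rfl⟩
    rw [germ_mem_mm, pd_eval] at h1
    exact h1
  have hfr : germ f hfa - germ (fun x => eval x p) hp = germ r hr := by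
    rw [germ_sub, germ_eq_iff]
    filter_upwards [hfp] with x hx
    rw [hx]; ring
  have r1 : RightEquiv (fun x => eval x p) f := by
    refine tougeron p hpcrit hfa ?_
    rw [hjac, hfr]; exact hrI
  have r2 : RightEquiv (fun x => eval x p) fun x => eval (ψ x) q' := by
    refine tougeron p hpcrit (analyticAt_eval q' hψa) ?_
    rw [hjac]
    have h1 : germ (fun x => eval (ψ x) q') (analyticAt_eval q' hψa) - germ f hfa ∈ II J :=
      Ideal.Quotient.eq.1 hval
    have h2 : germ (fun x => eval (ψ x) q') (analyticAt_eval q' hψa) -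
        germ (fun x => eval x p) hp =
        (germ (fun x => eval (ψ x) q') (analyticAt_eval q' hψa) - germ f hfa) + germ r hr := by
      rw [← hfr]; ring
    rw [h2]
    exact Ideal.add_mem _ h1 hrI
  have r3 : RightEquiv (fun x => eval x q') fun x => eval (ψ x) q' :=
    RightEquiv.of_comp (f := fun x => eval x q') hψa hψ0 e hψd
  refine ⟨q', k, r1.symm.trans (r2.trans r3.symm), hq'd, hkn.trans ?_⟩
  refine Nat.mul_le_mul_left _ (hrank.trans ?_)
  change milnorG f + (n * milnorG f + n * n) ≤ _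
  nlinarith

end Pool.Agent.R851.PolyDeg
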