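import Pool.Agent.R851.PolyDegGerm

/-!
# The quotient of the local ring by `m J²`
-/

set_option autoImplicit false

open MvPolynomial Filter Topology

namespace Pool.Agent.R851.PolyDeg

variable {n : ℕ}

section Quot

variable (d : Fin n → Germs n)

/-- the ideal `m J²` for `J = (d₁, …, d_n)` -/
noncomputable def II (J : Ideal (Germs n)) : Ideal (Germs n) := mm n * (J * J)

lemma exists_span [Module.Finite ℂ (Germs n ⧸ Ideal.span (Set.range d))] :
    ∃ e : Fin (Module.finrank ℂ (Germs n ⧸ Ideal.span (Set.range d))) → Germs n,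
      ∀ g : Germs n, ∃ s ∈ Submodule.span ℂ (Set.range e), g - s ∈ Ideal.span (Set.range d) := by
  set B := Module.finBasis ℂ (Germs n ⧸ Ideal.span (Set.range d))
  choose e he using fun j => Ideal.Quotient.mk_surjective (B j)
  refine ⟨e, fun g => ⟨∑ j, B.repr (Ideal.Quotient.mk _ g) j • e j, ?_, ?_⟩⟩
  · exact Submodule.sum_mem _ fun j _ => Submodule.smul_mem _ _ (Submodule.subset_span ⟨j, rfl⟩)
  · rw [← Ideal.Quotient.eq]
    conv_lhs => rw [← B.sum_repr (Ideal.Quotient.mk _ g)]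
    rw [map_sum]
    refine Finset.sum_congr rfl fun j _ => ?_
    rw [← he j]
    rfl

lemma scalar_add (g : Germs n) : ∃ m ∈ mm n, g = algebraMap ℂ (Germs n) (ev0 g) + m := by
  refine ⟨g - algebraMap ℂ (Germs n) (ev0 g), ?_, by ring⟩
  change ev0 (g - algebraMap ℂ (Germs n) (ev0 g)) = 0
  rw [map_sub, AlgHom.commutes]
  simp

lemma quot_bound [Module.Finite ℂ (Germs n ⧸ Ideal.span (Set.range d))] :
    Module.Finite ℂ (Germs n ⧸ II (Ideal.span (Set.range d))) ∧
    Module.finrank ℂ (Germs n ⧸ II (Ideal.span (Set.range d))) ≤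
      Module.finrank ℂ (Germs n ⧸ Ideal.span (Set.range d)) +
      (n * Module.finrank ℂ (Germs n ⧸ Ideal.span (Set.range d)) + n * n) := by
  set J := Ideal.span (Set.range d) with hJ
  set μ := Module.finrank ℂ (Germs n ⧸ J) with hμ
  obtain ⟨e, he⟩ := exists_span d
  set v : Fin μ ⊕ (Fin n × Fin μ ⊕ Fin n × Fin n) → Germs n :=
    Sum.elim e (Sum.elim (fun q => d q.1 * e q.2) fun q => d q.1 * d q.2) with hv
  set V : Submodule ℂ (Germs n) := Submodule.span ℂ (Set.range v) with hV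
  set I' : Submodule ℂ (Germs n) := (II J).restrictScalars ℂ with hI'
  -- elements of `J²`
  have h2 : ∀ g ∈ J * J, g ∈ V ⊔ I' := by
    intro g hg
    refine Submodule.mul_induction_on hg (fun a ha b hb => ?_) fun a b ha hb =>
      Submodule.add_mem _ ha hb
    rw [hJ, Ideal.mem_span_range_iff_exists_fun] at ha hb
    obtain ⟨c, rfl⟩ := ha
    obtain ⟨c', rfl⟩ := hb
    rw [Finset.sum_mul_sum]
    refine Submodule.sum_mem _ fun i _ => Submodule.sum_mem _ fun j _ => ?_
    obtain ⟨m, hm, hm2⟩ := scalar_add (c i * c' j)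
    have h3 : c i * d i * (c' j * d j) = ev0 (c i * c' j) • (d i * d j) + m * (d i * d j) := by
      rw [Algebra.smul_def]
      linear_combination (d i * d j) * hm2
    rw [h3]
    refine Submodule.add_mem_sup (Submodule.smul_mem _ _ (Submodule.subset_span
      ⟨Sum.inr (Sum.inr (i, j)), rfl⟩)) ?_
    change m * (d i * d j) ∈ II J
    exact Ideal.mul_mem_mul hm (Ideal.mul_mem_mul (Ideal.subset_span ⟨i, rfl⟩)
      (Ideal.subset_span ⟨j, rfl⟩))
  -- elements of `J`
  have h1 : ∀ g ∈ J, g ∈ V ⊔ I' := by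
    intro g hg
    rw [hJ, Ideal.mem_span_range_iff_exists_fun] at hg
    obtain ⟨c, rfl⟩ := hg
    refine Submodule.sum_mem _ fun i _ => ?_
    obtain ⟨s, hs, hsJ⟩ := he (c i)
    have h3 : c i * d i = d i * s + (c i - s) * d i := by ring
    rw [h3]
    refine Submodule.add_mem _ (Submodule.mem_sup_left ?_)
      (h2 _ (Ideal.mul_mem_mul hsJ (Ideal.subset_span ⟨i, rfl⟩)))
    have h4 : Submodule.span ℂ (Set.range e) ≤
        V.comap (LinearMap.mulLeft ℂ (d i)) := by
      rw [Submodule.span_le]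
      rintro _ ⟨j, rfl⟩
      exact Submodule.subset_span ⟨Sum.inr (Sum.inl (i, j)), rfl⟩
    exact h4 hs
  have h0 : ∀ g : Germs n, g ∈ V ⊔ I' := by
    intro g
    obtain ⟨s, hs, hsJ⟩ := he g
    have h3 : g = s + (g - s) := by ring
    rw [h3]
    refine Submodule.add_mem _ (Submodule.mem_sup_left ?_) (h1 _ hsJ)
    refine Submodule.span_mono ?_ hs
    rintro _ ⟨j, rfl⟩
    exact ⟨Sum.inl j, rfl⟩
  set π : Germs n →ₗ[ℂ] (Germs n ⧸ II J) := (Ideal.Quotient.mkₐ ℂ (II J)).toLinearMap with hπ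
  have hspan : Submodule.span ℂ (Set.range fun i => π (v i)) = ⊤ := by
    rw [eq_top_iff]
    intro y _
    obtain ⟨g, rfl⟩ := Ideal.Quotient.mk_surjective y
    obtain ⟨s, hs, t, ht, hst⟩ := Submodule.mem_sup.1 (h0 g)
    have h5 : Ideal.Quotient.mk (II J) g = π s := by
      change Ideal.Quotient.mk (II J) g = Ideal.Quotient.mk (II J) s
      rw [Ideal.Quotient.eq, ← hst]
      have ht' : t ∈ II J := ht
      simpa using ht'
    rw [h5]
    have h6 : (Set.range fun i => π (v i)) = π '' Set.range v := by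
      rw [← Set.range_comp]; rfl
    rw [h6, Submodule.span_image]
    exact Submodule.mem_map_of_mem hs
  refine ⟨⟨⟨(Set.finite_range fun i => π (v i)).toFinset, by simpa using hspan⟩⟩, ?_⟩
  have := finrank_range_le_card (R := ℂ) fun i => π (v i)
  unfold Set.finrank at this
  rw [hspan, finrank_top] at this
  simpa using this

end Quot

lemma pow_le_and_surj (I : Ideal (Germs n)) (hI : I ≤ mm n) [Module.Finite ℂ (Germs n ⧸ I)] :
    ∃ K, mm n ^ K ≤ I ∧ Function.Surjective
      (aeval (fun i => Ideal.Quotient.mk I (xg i)) : MvPolynomial (Fin n) ℂ →ₐ[ℂ] (Germs n ⧸ I)) := by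
  have hne : I ≠ ⊤ := fun h => by
    rw [h, top_le_iff] at hI
    have : (1 : Germs n) ∈ mm n := by rw [hI]; trivial
    have h2 : ev0 (1 : Germs n) = 0 := this
    rw [map_one] at h2
    exact one_ne_zero h2
  have hnt : Nontrivial (Germs n ⧸ I) := Ideal.Quotient.nontrivial_iff.2 hne
  have hart : IsArtinianRing (Germs n ⧸ I) := IsArtinianRing.of_finite ℂ (Germs n ⧸ I)
  obtain ⟨K, hK⟩ := IsArtinianRing.isNilpotent_jacobson_bot (R := Germs n ⧸ I)
  have hloc : IsLocalRing (Germs n ⧸ I) :=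
    IsLocalRing.of_surjective' (Ideal.Quotient.mk I) Ideal.Quotient.mk_surjective
  have h1 : (mm n).map (Ideal.Quotient.mk I) ≤ Ideal.jacobson ⊥ := by
    rw [IsLocalRing.jacobson_eq_maximalIdeal _ bot_ne_top, Ideal.map_le_iff_le_comap]
    intro g hg
    rw [Ideal.mem_comap, IsLocalRing.mem_maximalIdeal, mem_nonunits_iff]
    intro hu
    obtain ⟨y, hy⟩ := hu.exists_right_inv
    obtain ⟨y, rfl⟩ := Ideal.Quotient.mk_surjective y
    rw [← map_mul, ← map_one (Ideal.Quotient.mk I), Ideal.Quotient.eq] at hy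
    have h2 : ev0 (g * y - 1) = 0 := hI hy
    have h3 : ev0 g = 0 := hg
    rw [map_sub, map_mul, h3, zero_mul, map_one, zero_sub, neg_eq_zero] at h2
    exact one_ne_zero h2
  have hKI : mm n ^ K ≤ I := by
    have h2 : ((mm n) ^ K).map (Ideal.Quotient.mk I) ≤ ⊥ := by
      rw [Ideal.map_pow]
      calc (mm n).map (Ideal.Quotient.mk I) ^ K ≤ (Ideal.jacobson ⊥) ^ K := Ideal.pow_right_mono h1 K
        _ = ⊥ := hK
    rw [Ideal.map_le_iff_le_comap] at h2
    intro g hg
    have h3 := h2 hg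
    rw [Ideal.mem_comap, Ideal.mem_bot, Ideal.Quotient.eq_zero_iff_mem] at h3
    exact h3
  refine ⟨K, hKI, fun y => ?_⟩
  obtain ⟨g, rfl⟩ := Ideal.Quotient.mk_surjective y
  obtain ⟨f, hf, rfl⟩ := exists_germ g
  obtain ⟨p, r, hr, hfp, hrK, -⟩ := taylor K hf
  refine ⟨p, ?_⟩
  have h4 : aeval (fun i => Ideal.Quotient.mk I (xg i)) p =
      Ideal.Quotient.mk I (aeval (xg : Fin n → Germs n) p) :=
    (comp_aeval_apply (xg : Fin n → Germs n) (Ideal.Quotient.mkₐ ℂ I) p).symm
  rw [h4, aeval_xg, Ideal.Quotient.eq]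
  have h5 : germ f hf = germ (fun x => eval x p) (analyticAt_eval p analyticAt_id) + germ r hr := by
    rw [germ_add, germ_eq_iff]; exact hfp
  rw [h5]
  have h6 : germ r hr ∈ I := hKI (Ideal.pow_le_pow_right (Nat.le_succ K) hrK)
  have h7 : germ (fun x => eval x p) (analyticAt_eval p analyticAt_id) -
      (germ (fun x => eval x p) (analyticAt_eval p analyticAt_id) + germ r hr) = - germ r hr := by
    ring
  rw [h7]
  exact I.neg_mem h6

/-! ### Jacobian ideals -/

lemma analyticAt_pd {f : (Fin n → ℂ) → ℂ} {y : Fin n → ℂ} (hf : AnalyticAt ℂ f y) (i : Fin n) :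
    AnalyticAt ℂ (pd i f) y :=
  ((ContinuousLinearMap.apply ℂ ℂ (Pi.single i 1 : Fin n → ℂ)).analyticAt _).comp hf.fderiv

lemma jac_eq {f : (Fin n → ℂ) → ℂ} (hf : AnalyticAt ℂ f 0) :
    jac f = Ideal.span (Set.range fun i => germ (pd i f) (analyticAt_pd hf i)) := by
  unfold jac
  congr 1
  ext g
  constructor
  · rintro ⟨i, h, rfl⟩
    exact ⟨i, rfl⟩
  · rintro ⟨i, rfl⟩
    exact ⟨i, _, rfl⟩

lemma II_le (J : Ideal (Germs n)) : II J ≤ mm n * J :=
  Ideal.mul_mono_right Ideal.mul_le_left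

lemma mm_mul_le (J : Ideal (Germs n)) : mm n * J ≤ J := Ideal.mul_le_right

lemma II_le_mm (J : Ideal (Germs n)) : II J ≤ mm n := Ideal.mul_le_left

/-- a polynomial approximation of `f` with the same Jacobian ideal -/
lemma exists_poly_approx {f : (Fin n → ℂ) → ℂ} (hf : IsoCrit f) :
    ∃ (p : MvPolynomial (Fin n) ℂ) (r : (Fin n → ℂ) → ℂ) (hr : AnalyticAt ℂ r 0),
      (∀ᶠ x in 𝓝 0, f x = eval x p + r x) ∧ jac (fun x => eval x p) = jac f ∧
      germ r hr ∈ II (jac f) := by
  obtain ⟨hfa, -, -, hfin⟩ := hf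
  set J := jac f with hJ
  have hJ' := jac_eq hfa
  have hfinI : Module.Finite ℂ (Germs n ⧸ II J) := by
    have h1 : Module.Finite ℂ (Germs n ⧸ Ideal.span
        (Set.range fun i => germ (pd i f) (analyticAt_pd hfa i))) := by
      rw [← hJ']; exact hfin
    have h2 := (quot_bound fun i => germ (pd i f) (analyticAt_pd hfa i)).1
    rw [hJ, hJ']; exact h2
  obtain ⟨K, hK, -⟩ := pow_le_and_surj (II J) (II_le_mm J)
  obtain ⟨p, r, hr, hfp, hrK, hrd⟩ := taylor K hfa
  have hp : AnalyticAt ℂ (fun x => eval x p) (0 : Fin n → ℂ) := analyticAt_eval p analyticAt_id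
  refine ⟨p, r, hr, hfp, ?_, hK (Ideal.pow_le_pow_right (Nat.le_succ K) hrK)⟩
  -- comparison of the generators
  have hd : ∀ i, germ (pd i f) (analyticAt_pd hfa i) =
      germ (pd i fun x => eval x p) (analyticAt_pd hp i) + germ (pd i r) (analyticAt_pd hr i) := by
    intro i
    rw [germ_add, germ_eq_iff]
    have h1 : ∀ᶠ y in 𝓝 (0 : Fin n → ℂ), f =ᶠ[𝓝 y] fun x => eval x p + r x :=
      hfp.eventually_nhds
    filter_upwards [h1, hp.eventually_analyticAt, hr.eventually_analyticAt] with y h1 h2 h3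
    unfold pd
    rw [h1.fderiv_eq, fderiv_fun_add h2.differentiableAt h3.differentiableAt]
    rfl
  have hr2 : ∀ i, germ (pd i r) (analyticAt_pd hr i) ∈ mm n * J := fun i =>
    II_le J (hK (hrd i _))
  rw [jac_eq hp]
  apply le_antisymm
  · rw [Ideal.span_le]
    rintro _ ⟨i, rfl⟩
    have h1 : germ (pd i fun x => eval x p) (analyticAt_pd hp i) =
        germ (pd i f) (analyticAt_pd hfa i) - germ (pd i r) (analyticAt_pd hr i) := by
      rw [hd i]; ring
    change germ (pd i fun x => eval x p) (analyticAt_pd hp i) ∈ J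
    rw [h1]
    refine J.sub_mem ?_ (mm_mul_le J (hr2 i))
    rw [hJ, hJ']
    exact Ideal.subset_span ⟨i, rfl⟩
  · have hfg : J.FG := by
      rw [hJ, hJ']
      exact Submodule.fg_span (Set.finite_range _)
    refine Submodule.le_of_le_smul_of_le_jacobson_bot hfg mm_le_jacobson ?_
    conv_lhs => rw [hJ, hJ']
    rw [Ideal.span_le]
    rintro _ ⟨i, rfl⟩
    change germ (pd i f) (analyticAt_pd hfa i) ∈ _
    rw [hd i]
    exact Submodule.add_mem_sup (Ideal.subset_span ⟨i, rfl⟩) (hr2 i)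

end Pool.Agent.R851.PolyDeg
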